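import Pool.Agent.K9h72.BN.Stm

/-!
# Basis number and treewidth: assembly of the leaves (helper72)
-/

set_option autoImplicit false

namespace Pool.Agent.K9h72.BN

open Finset

section

variable {V E : Type} [Fintype V] [Fintype E] [DecidableEq V] [DecidableEq E]

/-- the assertion `Cost` for a forest -/
theorem cost_of_forest (s t : E → V) (K : ℝ) (w : E → ℝ) (X : Finset E) (h : Forest s t X) : Cost s t K w X := by
  refine ⟨∅, X, by simp, ?_, subset_rfl, inf_le_left, by simp⟩
  intro c hc h0
  rw [h c hc h0]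
  exact Submodule.zero_mem _

theorem forest_empty (s t : E → V) : Forest s t ∅ := by
  intro c hc _
  funext e
  exact hc e (by simp)

theorem forest_single (s t : E → V) (hl : ∀ e, s e ≠ t e) (e : E) : Forest s t {e} := by
  intro c hc h0
  have h1 : ∀ e', e' ≠ e → c e' = 0 := fun e' he' => hc e' (by simpa using he')
  have h2 := congrFun h0 (s e)
  have h3 : bd s t c (s e) = c e := by
    change ∑ e', c e' * inc s t e' (s e) = c e
    rw [Finset.sum_eq_single e]
    · have : inc s t e (s e) = 1 := by
        unfold inc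
        rw [if_pos rfl, if_neg (Ne.symm (hl e)), add_zero]
      rw [this, mul_one]
    · intro e' _ he'
      rw [h1 e' he', zero_mul]
    · simp
  funext e'
  by_cases he' : e' = e
  · rw [he', ← h3, h2]
    rfl
  · exact h1 e' he'

end

/-- the cycle space of a graph with a tree decomposition with bags of at most `m` vertices -/
theorem main_of (hJ : S_JOIN) (hT : S_TREE) (hP : S_POT) (V E : Type) [Fintype V] [Fintype E] [DecidableEq V]
    [DecidableEq E] (s t : E → V) (hl : ∀ e, s e ≠ t e) (n : ℕ) (T : SimpleGraph (Fin n)) (B : Fin n → Finset V) (m : ℕ)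
    (hTt : T.IsTree) (hc : ∀ v : V, (T.induce {i : Fin n | v ∈ B i}).Connected) (he : ∀ e, ∃ i, s e ∈ B i ∧ t e ∈ B i)
    (hB : ∀ i, (B i).card ≤ m) :
    ∃ S : Finset (E → ZMod 2), LinearIndependent (ZMod 2) (fun c : S => (c : E → ZMod 2)) ∧
      Submodule.span (ZMod 2) (S : Set (E → ZMod 2)) = Cy s t ∧
      ∀ e, (S.filter fun c => c e ≠ 0).card ≤ 8 * m + Nat.log 2 (Fintype.card E) := by
  have hk : 2 * (4 * m) = 8 * m := by ring
  rw [← hk]
  apply hP E (Cy s t) (4 * m)
  intro w hw
  have h1 : Cost s t (4 * m) w univ := by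
    apply hT V E s t n T B m hTt hc he hB (fun X => Cost s t (4 * m) w X)
    · exact cost_of_forest s t _ w _ (forest_empty s t)
    · intro e
      exact cost_of_forest s t _ w _ (forest_single s t hl e)
    · intro X Y hXY hX hY h1 h2
      exact hJ V E s t hl w hw m X Y hXY hX hY h1 h2
  obtain ⟨S, F, h2, h3, h4, h5, h6⟩ := h1
  refine ⟨S, ?_, ?_, ?_⟩
  · intro c hc
    exact (h2 c hc).2
  · intro c hc
    exact h3 c (fun e he => absurd (mem_univ e) he) hc
  · have h7 : 0 ≤ ∑ e ∈ F, w e := Finset.sum_nonneg fun e _ => hw e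
    have h8 : (0 : ℝ) ≤ 4 * m := by positivity
    have h9 := mul_nonneg h8 h7
    push_cast
    linarith

end Pool.Agent.K9h72.BN
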