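import Pool.Agent.K9h72.BN.Stmb
import Pool.Agent.K9h72.BN.Asm

/-!
# Basis number: assembly of the leaves of `Stmb.lean` (helper72)
-/

set_option autoImplicit false

namespace Pool.Agent.K9h72.BN

open Finset

/-- all graphs: `4 (log_2 n + 1) + log_2 m` -/
theorem main2_of (hR : S_RIZ) (hP : S_POT) (V E : Type) [Fintype V] [Fintype E] [DecidableEq V]
    [DecidableEq E] (s t : E → V) :
    ∃ S : Finset (E → ZMod 2), LinearIndependent (ZMod 2) (fun c : S => (c : E → ZMod 2)) ∧
      Submodule.span (ZMod 2) (S : Set (E → ZMod 2)) = Cy s t ∧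
      ∀ e, (S.filter fun c => c e ≠ 0).card ≤
        4 * (Nat.log 2 (Fintype.card V) + 1) + Nat.log 2 (Fintype.card E) := by
  have hk : 2 * (2 * (Nat.log 2 (Fintype.card V) + 1)) = 4 * (Nat.log 2 (Fintype.card V) + 1) := by ring
  rw [← hk]
  apply hP E (Cy s t) (2 * (Nat.log 2 (Fintype.card V) + 1))
  intro w hw
  obtain ⟨S, h2, h3, h4⟩ := hR V E univ s t w hw
  exact ⟨S, fun c hc => (h2 c hc).2, fun c hc => h3 c (fun e he => absurd (mem_univ e) he) hc, h4⟩

/-- graphs with a tree decomposition with bags of at most `m` vertices: `4 b m + log_b |E|` for every `b ≥ 2` -/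
theorem main3_of (hJ : S_JOIN) (hT : S_TREE) (hP : S_POTB) (b : ℕ) (hb : 2 ≤ b) (V E : Type) [Fintype V] [Fintype E]
    [DecidableEq V] [DecidableEq E] (s t : E → V) (hl : ∀ e, s e ≠ t e) (n : ℕ) (T : SimpleGraph (Fin n))
    (B : Fin n → Finset V) (m : ℕ) (hTt : T.IsTree) (hc : ∀ v : V, (T.induce {i : Fin n | v ∈ B i}).Connected)
    (he : ∀ e, ∃ i, s e ∈ B i ∧ t e ∈ B i) (hB : ∀ i, (B i).card ≤ m) :
    ∃ S : Finset (E → ZMod 2), LinearIndependent (ZMod 2) (fun c : S => (c : E → ZMod 2)) ∧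
      Submodule.span (ZMod 2) (S : Set (E → ZMod 2)) = Cy s t ∧
      ∀ e, (S.filter fun c => c e ≠ 0).card ≤ b * (4 * m) + Nat.log b (Fintype.card E) := by
  apply hP b hb E (Cy s t) (4 * m)
  intro w hw
  have h1 : Cost s t (4 * m) w univ := by
    apply hT V E s t n T B m hTt hc he hB (fun X => Cost s t (4 * m) w X)
    · exact cost_of_forest s t _ w _ (forest_empty s t)
    · intro e
      exact cost_of_forest s t _ w _ (forest_single s t hl e)
    · intro X Y hXY hX hY h1 h2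
      exact hJ V E s t hl w hw m X Y hXY hX hY h1 h2
  obtain ⟨S, F, h2, h3, h4, h5, h6⟩ := h1
  refine ⟨S, ?_, ?_, ?_⟩
  · intro c hc
    exact (h2 c hc).2
  · intro c hc
    exact h3 c (fun e he => absurd (mem_univ e) he) hc
  · have h7 : 0 ≤ ∑ e ∈ F, w e := Finset.sum_nonneg fun e _ => hw e
    have h8 : (0 : ℝ) ≤ 4 * m := by positivity
    have h9 := mul_nonneg h8 h7
    push_cast
    linarith

end Pool.Agent.K9h72.BN
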