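import Pool.Agent.K9h72.BN.Stmc
import Pool.Agent.K9h72.BN.Asmb

/-!
# Basis number and path decompositions with large bags: assembly (helper72)
-/

set_option autoImplicit false

namespace Pool.Agent.K9h72.BN

open Finset

theorem main4_of (hA : S_PRA) (hB : S_PRB) (hD : S_DIMX) (hS : S_SUBP) (V E : Type) [Fintype V] [Fintype E]
    [DecidableEq V] [DecidableEq E] (s t : E → V) (κ : E → ℕ) (W : ℕ → Finset V) (a β : ℕ)
    (hW : ∀ e, s e ∈ W (κ e) ∧ t e ∈ W (κ e))
    (hβ : ∀ l, 4 * (Nat.log 2 (W l).card + 1) + Nat.log 2 (Kp κ (fun j => j = l)).card ≤ β)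
    (ha : ∀ l, (bdry s t (Kp κ (fun j => j < l))).card ≤ a) :
    ∃ B : Finset (E → ZMod 2), LinearIndependent (ZMod 2) (fun c : B => (c : E → ZMod 2)) ∧
      Submodule.span (ZMod 2) (B : Set (E → ZMod 2)) = Cy s t ∧
      ∀ e, (B.filter fun c => c e ≠ 0).card ≤ 2 * a + β := by
  have h1 : ∀ l, ∃ D : Finset (E → ZMod 2), LinearIndependent (ZMod 2) (fun c : D => (c : E → ZMod 2)) ∧
      Submodule.span (ZMod 2) (D : Set (E → ZMod 2)) = Cy s t ⊓ Sup (Kp κ (fun j => j = l)) ∧
      ∀ e, (D.filter fun c => c e ≠ 0).card ≤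
        4 * (Nat.log 2 (W l).card + 1) + Nat.log 2 (Kp κ (fun j => j = l)).card := by
    intro l
    apply hS V E s t (Kp κ (fun j => j = l)) (W l)
    intro e he
    have h2 : κ e = l := (mem_filter.mp he).2
    have h3 := hW e
    rw [h2] at h3
    exact h3
  choose D hD1 hD2 hD3 using h1
  have h2 : PartBases (Cy s t) κ D := fun l => ⟨hD1 l, hD2 l⟩
  obtain ⟨B, hG⟩ := hA E (Cy s t) κ D h2
  refine ⟨B, hG.1, hG.2.1, ?_⟩
  have h3 : ∀ l, Module.finrank (ZMod 2) (Cy s t) ≤
      Module.finrank (ZMod 2) ↥(Cy s t ⊓ Sup (Kp κ (fun j => j < l))) +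
      Module.finrank (ZMod 2) ↥(Cy s t ⊓ Sup (Kp κ (fun j => l ≤ j))) + a := by
    intro l
    have h4 := hD V E s t (Kp κ (fun j => j < l))
    have h5 : (Kp κ (fun j => j < l))ᶜ = Kp κ (fun j => l ≤ j) := by
      ext e
      simp [Kp]
    rw [h5] at h4
    have h6 := ha l
    omega
  intro e
  set A := (B \ D (κ e)).filter fun c => c e ≠ 0 with hAdef
  have h4 : A.card ≤ 2 * a := by
    apply hB E (Cy s t) κ D B a h2 hG h3 (κ e) A
    · intro c hc
      exact (mem_sdiff.mp (mem_filter.mp hc).1).1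
    · rw [Finset.disjoint_left]
      intro c hc hc'
      exact (mem_sdiff.mp (mem_filter.mp hc).1).2 hc'
    · intro c hc
      exact ⟨e, rfl, (mem_filter.mp hc).2⟩
  have h5 : (B.filter fun c => c e ≠ 0) ⊆ A ∪ (D (κ e)).filter fun c => c e ≠ 0 := by
    intro c hc
    obtain ⟨h6, h7⟩ := mem_filter.mp hc
    by_cases h8 : c ∈ D (κ e)
    · exact mem_union_right _ (mem_filter.mpr ⟨h8, h7⟩)
    · exact mem_union_left _ (mem_filter.mpr ⟨mem_sdiff.mpr ⟨h6, h8⟩, h7⟩)
  have h6 := card_le_card h5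
  have h7 := card_union_le A ((D (κ e)).filter fun c => c e ≠ 0)
  have h8 := hD3 (κ e) e
  have h9 := hβ (κ e)
  omega

/-- linear partitions of the edges, with given bases of the parts -/
theorem main6_of (hA : S_PRA) (hB : S_PRB) (hD : S_DIMX) (V E : Type) [Fintype V] [Fintype E]
    [DecidableEq V] [DecidableEq E] (s t : E → V) (κ : E → ℕ) (a β : ℕ)
    (h1 : ∀ l, ∃ D : Finset (E → ZMod 2), LinearIndependent (ZMod 2) (fun c : D => (c : E → ZMod 2)) ∧
      Submodule.span (ZMod 2) (D : Set (E → ZMod 2)) = Cy s t ⊓ Sup (Kp κ (fun j => j = l)) ∧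
      ∀ e, (D.filter fun c => c e ≠ 0).card ≤ β)
    (ha : ∀ l, (bdry s t (Kp κ (fun j => j < l))).card ≤ a) :
    ∃ B : Finset (E → ZMod 2), LinearIndependent (ZMod 2) (fun c : B => (c : E → ZMod 2)) ∧
      Submodule.span (ZMod 2) (B : Set (E → ZMod 2)) = Cy s t ∧
      ∀ e, (B.filter fun c => c e ≠ 0).card ≤ 2 * a + β := by
  choose D hD1 hD2 hD3 using h1
  have h2 : PartBases (Cy s t) κ D := fun l => ⟨hD1 l, hD2 l⟩
  obtain ⟨B, hG⟩ := hA E (Cy s t) κ D h2
  refine ⟨B, hG.1, hG.2.1, ?_⟩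
  have h3 : ∀ l, Module.finrank (ZMod 2) (Cy s t) ≤
      Module.finrank (ZMod 2) ↥(Cy s t ⊓ Sup (Kp κ (fun j => j < l))) +
      Module.finrank (ZMod 2) ↥(Cy s t ⊓ Sup (Kp κ (fun j => l ≤ j))) + a := by
    intro l
    have h4 := hD V E s t (Kp κ (fun j => j < l))
    have h5 : (Kp κ (fun j => j < l))ᶜ = Kp κ (fun j => l ≤ j) := by
      ext e
      simp [Kp]
    rw [h5] at h4
    have h6 := ha l
    omega
  intro e
  set A := (B \ D (κ e)).filter fun c => c e ≠ 0 with hAdef
  have h4 : A.card ≤ 2 * a := by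
    apply hB E (Cy s t) κ D B a h2 hG h3 (κ e) A
    · intro c hc
      exact (mem_sdiff.mp (mem_filter.mp hc).1).1
    · rw [Finset.disjoint_left]
      intro c hc hc'
      exact (mem_sdiff.mp (mem_filter.mp hc).1).2 hc'
    · intro c hc
      exact ⟨e, rfl, (mem_filter.mp hc).2⟩
  have h5 : (B.filter fun c => c e ≠ 0) ⊆ A ∪ (D (κ e)).filter fun c => c e ≠ 0 := by
    intro c hc
    obtain ⟨h6, h7⟩ := mem_filter.mp hc
    by_cases h8 : c ∈ D (κ e)
    · exact mem_union_right _ (mem_filter.mpr ⟨h8, h7⟩)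
    · exact mem_union_left _ (mem_filter.mpr ⟨mem_sdiff.mpr ⟨h6, h8⟩, h7⟩)
  have h6 := card_le_card h5
  have h7 := card_union_le A ((D (κ e)).filter fun c => c e ≠ 0)
  have h8 := hD3 (κ e) e
  omega

/-- path decompositions: bags `B i` of at most `N` vertices with at most `M` edges, adhesions of at most `a` vertices -/
theorem main5_of (hA : S_PRA) (hB : S_PRB) (hD : S_DIMX) (hS : S_SUBP) (V E : Type) [Fintype V] [Fintype E]
    [DecidableEq V] [DecidableEq E] (s t : E → V) (n : ℕ)
    (bag : Fin n → Finset V) (a N M : ℕ) (hedge : ∀ e, ∃ i, s e ∈ bag i ∧ t e ∈ bag i)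
    (hint : ∀ (v : V) (i j l : Fin n), i ≤ j → j ≤ l → v ∈ bag i → v ∈ bag l → v ∈ bag j)
    (hN : ∀ i, (bag i).card ≤ N) (hM : ∀ i, (univ.filter fun e => s e ∈ bag i ∧ t e ∈ bag i).card ≤ M) (ha : ∀ i j : Fin n, (i : ℕ) + 1 = j → (bag i ∩ bag j).card ≤ a) :
    ∃ B : Finset (E → ZMod 2), LinearIndependent (ZMod 2) (fun c : B => (c : E → ZMod 2)) ∧
      Submodule.span (ZMod 2) (B : Set (E → ZMod 2)) = Cy s t ∧
      ∀ e, (B.filter fun c => c e ≠ 0).card ≤ 2 * a + (4 * (Nat.log 2 N + 1) + Nat.log 2 M) := by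
  choose ix hix1 hix2 using hedge
  let W : ℕ → Finset V := fun l => if h : l < n then bag ⟨l, h⟩ else ∅
  have hWl : ∀ e, W ((ix e : Fin n) : ℕ) = bag (ix e) := by
    intro e
    simp only [W, (ix e).isLt, dite_true]
  have hWN : ∀ l, (W l).card ≤ N := by
    intro l
    simp only [W]
    split_ifs with h
    · exact hN _
    · simp
  apply main4_of hA hB hD hS V E s t (fun e => ((ix e : Fin n) : ℕ)) W a
  · intro e
    rw [hWl e]
    exact ⟨hix1 e, hix2 e⟩
  · intro l
    have h1 : (Kp (fun e => ((ix e : Fin n) : ℕ)) (fun j => j = l)).card ≤ M := by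
      by_cases hl : l < n
      · refine le_trans (card_le_card ?_) (hM ⟨l, hl⟩)
        intro e he
        have h3 : ((ix e : Fin n) : ℕ) = l := (mem_filter.mp he).2
        have h4 : ix e = ⟨l, hl⟩ := Fin.ext h3
        rw [← h4]
        exact mem_filter.mpr ⟨mem_univ _, hix1 e, hix2 e⟩
      · have h2 : Kp (fun e => ((ix e : Fin n) : ℕ)) (fun j => j = l) = ∅ := by
          apply filter_eq_empty_iff.mpr
          intro e _ he
          have he' : ((ix e : Fin n) : ℕ) = l := he
          have hlt := (ix e).isLt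
          omega
        rw [h2]
        simp
    have h6 : Nat.log 2 (W l).card ≤ Nat.log 2 N := Nat.log_mono_right (hWN l)
    have h7 := Nat.log_mono_right (b := 2) h1
    omega
  · intro l
    by_cases hl0 : l = 0
    · subst hl0
      have h1 : bdry s t (Kp (fun e => ((ix e : Fin n) : ℕ)) (fun j => j < 0)) = ∅ := by
        simp [bdry, touch, Kp]
      rw [h1]
      simp
    by_cases hln : l < n
    · have hl1 : l - 1 < n := by omega
      have h1 : bdry s t (Kp (fun e => ((ix e : Fin n) : ℕ)) (fun j => j < l)) ⊆ bag ⟨l - 1, hl1⟩ ∩ bag ⟨l, hln⟩ := by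
        intro v hv
        obtain ⟨h2, h3⟩ := mem_inter.mp hv
        obtain ⟨_, e, he, hev⟩ := mem_filter.mp h2
        obtain ⟨_, e', he', hev'⟩ := mem_filter.mp h3
        have h4 : ((ix e : Fin n) : ℕ) < l := (mem_filter.mp he).2
        have h5 : l ≤ ((ix e' : Fin n) : ℕ) := by
          by_contra hc
          have hc' : ((ix e' : Fin n) : ℕ) < l := by omega
          exact (mem_compl.mp he') (mem_filter.mpr ⟨mem_univ _, hc'⟩)
        have h6 : v ∈ bag (ix e) := by
          rcases hev with h | h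
          · rw [← h]; exact hix1 e
          · rw [← h]; exact hix2 e
        have h7 : v ∈ bag (ix e') := by
          rcases hev' with h | h
          · rw [← h]; exact hix1 e'
          · rw [← h]; exact hix2 e'
        refine mem_inter.mpr ⟨?_, ?_⟩
        · apply hint v (ix e) ⟨l - 1, hl1⟩ (ix e') _ _ h6 h7
          · rw [Fin.le_def]
            simp only
            omega
          · rw [Fin.le_def]
            simp only
            omega
        · apply hint v (ix e) ⟨l, hln⟩ (ix e') _ _ h6 h7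
          · rw [Fin.le_def]
            simp only
            omega
          · rw [Fin.le_def]
            exact h5
      exact (card_le_card h1).trans (ha _ _ (by simp only; omega))
    · have h1 : bdry s t (Kp (fun e => ((ix e : Fin n) : ℕ)) (fun j => j < l)) = ∅ := by
        have h2 : Kp (fun e => ((ix e : Fin n) : ℕ)) (fun j => j < l) = univ := by
          apply filter_true_of_mem
          intro e _
          have hlt := (ix e).isLt
          have hlt' : ((ix e : Fin n) : ℕ) < l := by omega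
          exact hlt'
        rw [h2]
        simp [bdry, touch]
      rw [h1]
      simp

end Pool.Agent.K9h72.BN
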