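import Pool.Agent.K9h72.BN.DimX

/-!
# Rank and nullity: the boundary of a part has sum zero (variant of `DimX.lean` of helper29)
-/

set_option autoImplicit false

namespace Pool.Agent.K9h72.BN

open Finset

theorem sum_bd {V E : Type} [Fintype V] [Fintype E] [DecidableEq V] [DecidableEq E] (s t : E → V)
    (c : E → ZMod 2) : ∑ v, bd s t c v = 0 := by
  change ∑ v, ∑ e, c e * inc s t e v = 0
  rw [sum_comm]
  apply sum_eq_zero
  intro e _
  rw [← mul_sum]
  have h1 : ∑ v, inc s t e v = 0 := by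
    unfold inc
    rw [sum_add_distrib, sum_ite_eq, sum_ite_eq, if_pos (mem_univ _), if_pos (mem_univ _)]
    exact CharTwo.add_self_eq_zero 1
  rw [h1, mul_zero]

/-- as `S_DIMX`, with `|bdry X| - 1` -/
theorem dimy (V E : Type) [Fintype V] [Fintype E] [DecidableEq V] [DecidableEq E] (s t : E → V) (X : Finset E) :
    Module.finrank (ZMod 2) (Cy s t) ≤ Module.finrank (ZMod 2) ↥(Cy s t ⊓ Sup X) +
      Module.finrank (ZMod 2) ↥(Cy s t ⊓ Sup Xᶜ) + ((bdry s t X).card - 1) := by
  obtain ⟨Y, hY1, hY2⟩ : ∃ Y : Finset V, Y.card ≤ (bdry s t X).card - 1 ∧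
      ∀ c : E → ZMod 2, (∀ v ∈ Y, bd s t c v = 0) → (∀ v, v ∉ bdry s t X → bd s t c v = 0) → bd s t c = 0 := by
    rcases (bdry s t X).eq_empty_or_nonempty with h | ⟨v₀, h⟩
    · refine ⟨∅, by simp, fun c _ h2 => ?_⟩
      funext v
      exact h2 v (by rw [h]; simp)
    · refine ⟨(bdry s t X).erase v₀, by rw [card_erase_of_mem h], fun c h1 h2 => ?_⟩
      have h3 : ∀ v, v ≠ v₀ → bd s t c v = 0 := by
        intro v hv
        by_cases hv' : v ∈ bdry s t X
        · exact h1 v (mem_erase.mpr ⟨hv, hv'⟩)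
        · exact h2 v hv'
      have h4 := sum_bd s t c
      rw [sum_eq_single v₀ (fun v _ hv => h3 v hv) (fun hv => absurd (mem_univ _) hv)] at h4
      funext v
      by_cases hv : v = v₀
      · rw [hv, h4]
        rfl
      · exact h3 v hv
  let r : (E → ZMod 2) →ₗ[ZMod 2] (E → ZMod 2) :=
    { toFun := fun c e => if e ∈ X then c e else 0
      map_add' := by
        intro c d
        funext e
        by_cases he : e ∈ X <;> simp [he]
      map_smul' := by
        intro a c
        funext e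
        by_cases he : e ∈ X <;> simp [he] }
  have hr : ∀ c e, r c e = if e ∈ X then c e else 0 := fun _ _ => rfl
  have hrX : ∀ c, r c ∈ Sup X := by
    intro c e he
    rw [hr, if_neg he]
  have hrc : ∀ c, c - r c ∈ Sup Xᶜ := by
    intro c e he
    rw [mem_compl, not_not] at he
    rw [Pi.sub_apply, hr, if_pos he, sub_self]
  let ψ : (E → ZMod 2) →ₗ[ZMod 2] ({v // v ∈ Y} → ZMod 2) :=
    (LinearMap.funLeft (ZMod 2) (ZMod 2) (Subtype.val : {v // v ∈ Y} → V)).comp ((bd s t).comp r)
  have hψ : ∀ c v, ψ c v = bd s t (r c) v := fun _ _ => rfl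
  let φ := ψ.domRestrict (Cy s t)
  have h1 := LinearMap.finrank_range_add_finrank_ker φ
  have h2 : Module.finrank (ZMod 2) (LinearMap.range φ) ≤ Y.card := by
    refine (Submodule.finrank_le _).trans ?_
    rw [Module.finrank_fintype_fun_eq_card, Fintype.card_coe]
  have h3 : (LinearMap.ker φ).map (Cy s t).subtype ≤ (Cy s t ⊓ Sup X) ⊔ (Cy s t ⊓ Sup Xᶜ) := by
    rintro _ ⟨c, hc, rfl⟩
    have hc0 : bd s t (c : E → ZMod 2) = 0 := c.2
    have hk : ∀ v : {v // v ∈ Y}, bd s t (r c) v = 0 := by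
      intro v
      have h4 : φ c = 0 := hc
      have h5 := congrFun h4 v
      exact h5
    have hb : bd s t (r c) = 0 := by
      refine hY2 _ (fun v hv => hk ⟨v, hv⟩) (fun v hv => ?_)
      · unfold bdry at hv
        rw [mem_inter, not_and_or] at hv
        rcases hv with hv | hv
        · exact dimx_bd s t X _ (hrX _) v hv
        · have h5 := dimx_bd s t Xᶜ _ (hrc c) v hv
          rw [map_sub, hc0, zero_sub, Pi.neg_apply, neg_eq_zero] at h5
          exact h5
    rw [Submodule.subtype_apply, Submodule.mem_sup]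
    refine ⟨r c, ⟨hb, hrX _⟩, (c : E → ZMod 2) - r c, ⟨?_, hrc _⟩, by abel⟩
    change bd s t ((c : E → ZMod 2) - r c) = 0
    rw [map_sub, hc0, hb, sub_zero]
  have h4 : Module.finrank (ZMod 2) (LinearMap.ker φ) ≤ Module.finrank (ZMod 2) ↥(Cy s t ⊓ Sup X) +
      Module.finrank (ZMod 2) ↥(Cy s t ⊓ Sup Xᶜ) := by
    rw [← Submodule.finrank_map_subtype_eq (Cy s t) (LinearMap.ker φ)]
    exact (Submodule.finrank_mono h3).trans (Submodule.finrank_add_le_finrank_add_finrank _ _)
  omega

end Pool.Agent.K9h72.BN
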