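import Pool.Agent.K9h72.BN.Stmc
import Pool.Agent.K9h72.BN.DimY

/-!
# Basis number: gluing along a path (helper72)
-/

set_option autoImplicit false

namespace Pool.Agent.K9h72.BN

open Finset

/-- linear partitions of the edges, with given bases of the parts -/
theorem main7_of (hA : S_PRA) (hB : S_PRB) (V E : Type) [Fintype V] [Fintype E]
    [DecidableEq V] [DecidableEq E] (s t : E → V) (κ : E → ℕ) (a β : ℕ)
    (h1 : ∀ l, ∃ D : Finset (E → ZMod 2), LinearIndependent (ZMod 2) (fun c : D => (c : E → ZMod 2)) ∧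
      Submodule.span (ZMod 2) (D : Set (E → ZMod 2)) = Cy s t ⊓ Sup (Kp κ (fun j => j = l)) ∧
      ∀ e, (D.filter fun c => c e ≠ 0).card ≤ β)
    (ha : ∀ l, (bdry s t (Kp κ (fun j => j < l))).card ≤ a + 1) :
    ∃ B : Finset (E → ZMod 2), LinearIndependent (ZMod 2) (fun c : B => (c : E → ZMod 2)) ∧
      Submodule.span (ZMod 2) (B : Set (E → ZMod 2)) = Cy s t ∧
      ∀ e, (B.filter fun c => c e ≠ 0).card ≤ 2 * a + β := by
  choose D hD1 hD2 hD3 using h1
  have h2 : PartBases (Cy s t) κ D := fun l => ⟨hD1 l, hD2 l⟩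
  obtain ⟨B, hG⟩ := hA E (Cy s t) κ D h2
  refine ⟨B, hG.1, hG.2.1, ?_⟩
  have h3 : ∀ l, Module.finrank (ZMod 2) (Cy s t) ≤
      Module.finrank (ZMod 2) ↥(Cy s t ⊓ Sup (Kp κ (fun j => j < l))) +
      Module.finrank (ZMod 2) ↥(Cy s t ⊓ Sup (Kp κ (fun j => l ≤ j))) + a := by
    intro l
    have h4 := dimy V E s t (Kp κ (fun j => j < l))
    have h5 : (Kp κ (fun j => j < l))ᶜ = Kp κ (fun j => l ≤ j) := by
      ext e
      simp [Kp]
    rw [h5] at h4
    have h6 := ha l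
    omega
  intro e
  set A := (B \ D (κ e)).filter fun c => c e ≠ 0 with hAdef
  have h4 : A.card ≤ 2 * a := by
    apply hB E (Cy s t) κ D B a h2 hG h3 (κ e) A
    · intro c hc
      exact (mem_sdiff.mp (mem_filter.mp hc).1).1
    · rw [Finset.disjoint_left]
      intro c hc hc'
      exact (mem_sdiff.mp (mem_filter.mp hc).1).2 hc'
    · intro c hc
      exact ⟨e, rfl, (mem_filter.mp hc).2⟩
  have h5 : (B.filter fun c => c e ≠ 0) ⊆ A ∪ (D (κ e)).filter fun c => c e ≠ 0 := by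
    intro c hc
    obtain ⟨h6, h7⟩ := mem_filter.mp hc
    by_cases h8 : c ∈ D (κ e)
    · exact mem_union_right _ (mem_filter.mpr ⟨h8, h7⟩)
    · exact mem_union_left _ (mem_filter.mpr ⟨mem_sdiff.mpr ⟨h6, h8⟩, h7⟩)
  have h6 := card_le_card h5
  have h7 := card_union_le A ((D (κ e)).filter fun c => c e ≠ 0)
  have h8 := hD3 (κ e) e
  omega

end Pool.Agent.K9h72.BN
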