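import Pool.Agent.K9h72.BN.Stmc

/-!
# Leaf DIMX: rank and nullity
-/

set_option autoImplicit false

namespace Pool.Agent.K9h72.BN

open Finset

theorem dimx_bd {V E : Type} [Fintype V] [Fintype E] [DecidableEq V] [DecidableEq E] (s t : E → V)
    (X : Finset E) (c : E → ZMod 2) (hc : c ∈ Sup X) (v : V) (hv : v ∉ touch s t X) : bd s t c v = 0 := by
  change ∑ e, c e * inc s t e v = 0
  apply sum_eq_zero
  intro e _
  by_cases he : e ∈ X
  · have h1 : s e ≠ v := fun h => hv (mem_filter.2 ⟨mem_univ _, e, he, Or.inl h⟩)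
    have h2 : t e ≠ v := fun h => hv (mem_filter.2 ⟨mem_univ _, e, he, Or.inr h⟩)
    unfold inc
    rw [if_neg h1, if_neg h2, add_zero, mul_zero]
  · rw [hc e he, zero_mul]

theorem dimx : S_DIMX := by
  intro V E _ _ _ _ s t X
  let r : (E → ZMod 2) →ₗ[ZMod 2] (E → ZMod 2) :=
    { toFun := fun c e => if e ∈ X then c e else 0
      map_add' := by
        intro c d
        funext e
        by_cases he : e ∈ X <;> simp [he]
      map_smul' := by
        intro a c
        funext e
        by_cases he : e ∈ X <;> simp [he] }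
  have hr : ∀ c e, r c e = if e ∈ X then c e else 0 := fun _ _ => rfl
  have hrX : ∀ c, r c ∈ Sup X := by
    intro c e he
    rw [hr, if_neg he]
  have hrc : ∀ c, c - r c ∈ Sup Xᶜ := by
    intro c e he
    rw [mem_compl, not_not] at he
    rw [Pi.sub_apply, hr, if_pos he, sub_self]
  let ψ : (E → ZMod 2) →ₗ[ZMod 2] ({v // v ∈ bdry s t X} → ZMod 2) :=
    (LinearMap.funLeft (ZMod 2) (ZMod 2) (Subtype.val : {v // v ∈ bdry s t X} → V)).comp ((bd s t).comp r)
  have hψ : ∀ c v, ψ c v = bd s t (r c) v := fun _ _ => rfl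
  let φ := ψ.domRestrict (Cy s t)
  have h1 := LinearMap.finrank_range_add_finrank_ker φ
  have h2 : Module.finrank (ZMod 2) (LinearMap.range φ) ≤ (bdry s t X).card := by
    refine (Submodule.finrank_le _).trans ?_
    rw [Module.finrank_fintype_fun_eq_card, Fintype.card_coe]
  have h3 : (LinearMap.ker φ).map (Cy s t).subtype ≤ (Cy s t ⊓ Sup X) ⊔ (Cy s t ⊓ Sup Xᶜ) := by
    rintro _ ⟨c, hc, rfl⟩
    have hc0 : bd s t (c : E → ZMod 2) = 0 := c.2
    have hk : ∀ v : {v // v ∈ bdry s t X}, bd s t (r c) v = 0 := by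
      intro v
      have h4 : φ c = 0 := hc
      have h5 := congrFun h4 v
      exact h5
    have hb : bd s t (r c) = 0 := by
      funext v
      by_cases hv : v ∈ bdry s t X
      · exact hk ⟨v, hv⟩
      · unfold bdry at hv
        rw [mem_inter, not_and_or] at hv
        rcases hv with hv | hv
        · exact dimx_bd s t X _ (hrX _) v hv
        · have h5 := dimx_bd s t Xᶜ _ (hrc c) v hv
          rw [map_sub, hc0, zero_sub, Pi.neg_apply, neg_eq_zero] at h5
          exact h5
    rw [Submodule.subtype_apply, Submodule.mem_sup]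
    refine ⟨r c, ⟨hb, hrX _⟩, (c : E → ZMod 2) - r c, ⟨?_, hrc _⟩, by abel⟩
    change bd s t ((c : E → ZMod 2) - r c) = 0
    rw [map_sub, hc0, hb, sub_zero]
  have h4 : Module.finrank (ZMod 2) (LinearMap.ker φ) ≤ Module.finrank (ZMod 2) ↥(Cy s t ⊓ Sup X) +
      Module.finrank (ZMod 2) ↥(Cy s t ⊓ Sup Xᶜ) := by
    rw [← Submodule.finrank_map_subtype_eq (Cy s t) (LinearMap.ker φ)]
    exact (Submodule.finrank_mono h3).trans (Submodule.finrank_add_le_finrank_add_finrank _ _)
  omega

end Pool.Agent.K9h72.BN
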