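import Pool.Agent.K9h72.BN.Stmb

/-!
# Basis number and path decompositions with large bags: statements of the leaves (helper72)

Goal (third theorem, MP_35885f_co): if `G` has a path decomposition with adhesions of at most `a` vertices and bags of at
most `N` vertices, then its basis number is at most `2 a + 4 (log_2 N + 1) + log_2 (N ^ 2)`: this contains pathwidth
(`N = pw + 1`) and the bound `O(log n)`. The edges are partitioned by `κ : E → ℕ` (the index of the bag).
-/

set_option autoImplicit false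

namespace Pool.Agent.K9h72.BN

open Finset

/-- the edges whose label satisfies `p` -/
abbrev Kp {E : Type} [Fintype E] (κ : E → ℕ) (p : ℕ → Prop) [DecidablePred p] : Finset E := univ.filter fun e => p (κ e)

/-- `D l` is a basis of the part of `C` supported in the edges with label `l` -/
def PartBases {E : Type} [Fintype E] (C : Submodule (ZMod 2) (E → ZMod 2)) (κ : E → ℕ)
    (D : ℕ → Finset (E → ZMod 2)) : Prop :=
  ∀ l, LinearIndependent (ZMod 2) (fun c : D l => (c : E → ZMod 2)) ∧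
    Submodule.span (ZMod 2) (D l : Set (E → ZMod 2)) = C ⊓ Sup (Kp κ (fun j => j = l))

/-- a basis of `C` which contains all `D l`, such that sums behave well at the first and at the last label -/
def Good {E : Type} [Fintype E] (C : Submodule (ZMod 2) (E → ZMod 2)) (κ : E → ℕ)
    (D : ℕ → Finset (E → ZMod 2)) (B : Finset (E → ZMod 2)) : Prop :=
  LinearIndependent (ZMod 2) (fun c : B => (c : E → ZMod 2)) ∧
    Submodule.span (ZMod 2) (B : Set (E → ZMod 2)) = C ∧ (∀ l, D l ⊆ B) ∧
    (∀ l, ∀ S ⊆ B, (∀ c ∈ S, c ∈ Sup (Kp κ (fun j => l ≤ j))) → ∑ c ∈ S, c ∈ Sup (Kp κ (fun j => l < j)) →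
      ∀ c ∈ S, c ∈ Sup (Kp κ (fun j => l < j))) ∧
    (∀ l, ∀ S ⊆ B, (∀ c ∈ S, c ∈ Sup (Kp κ (fun j => j ≤ l))) → ∑ c ∈ S, c ∈ Sup (Kp κ (fun j => j < l)) →
      ∀ c ∈ S, c ∈ Sup (Kp κ (fun j => j < l)))

/-- LEAF PRA. Proof. `hi c = sup {κ e : c e ≠ 0}`, `lo c = sup {M - κ e : c e ≠ 0}` (`κ ≤ M`). Let `B` be a basis of `C` which
contains all `D l` (their union is independent: different labels, disjoint supports) with `∑_{c ∈ B} (hi c + lo c)` minimal.
First property: let `S' ≠ ∅` be the set of the `c ∈ S` which are not `0` somewhere on `κ = l`; `x = ∑ S'` is `0` on `κ ≤ l`.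
Let `c ∈ S'` have the largest `hi`. If `hi c = l` then `S'` is supported in `κ = l` and `x = 0`, contradiction to the
independence. Otherwise `c` is in no `D j`, `B' = B \ {c} ∪ {x}` is a basis which contains all `D j`, `hi x ≤ hi c`,
`lo x < lo c`: contradiction. The second property: the same with `hi` and `lo` exchanged. -/
def S_PRA : Prop := ∀ (E : Type) [Fintype E] [DecidableEq E] (C : Submodule (ZMod 2) (E → ZMod 2)) (κ : E → ℕ)
  (D : ℕ → Finset (E → ZMod 2)), PartBases C κ D → ∃ B, Good C κ D B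

/-- LEAF PRB. Proof. `Cross l` = the `c ∈ B` which are neither in `Sup (κ < l)` nor in `Sup (l ≤ κ)`. `|Cross l| ≤ a`:
`|B| = finrank C`, and `finrank (C ⊓ Sup (κ < l)) ≤ |{c ∈ B : c ∈ Sup (κ < l)}|`, since an element `∑ S` (`S ⊆ B`) of
`C ⊓ Sup (κ < l)` has all `c ∈ S` in `Sup (κ < l)` (second property, descending induction on the label); the same for
`Sup (l ≤ κ)` with the first property. If `c ∈ B \ D l` is not `0` somewhere on `κ = l`, then `c ∉ Sup (κ = l)`
(otherwise `c ∈ span (D l)`, so `c ∈ D l` by independence), so `c` is in `Cross l` or in `Cross (l + 1)`. -/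
def S_PRB : Prop := ∀ (E : Type) [Fintype E] [DecidableEq E] (C : Submodule (ZMod 2) (E → ZMod 2)) (κ : E → ℕ)
  (D : ℕ → Finset (E → ZMod 2)) (B : Finset (E → ZMod 2)) (a : ℕ), PartBases C κ D → Good C κ D B →
  (∀ l, Module.finrank (ZMod 2) C ≤ Module.finrank (ZMod 2) ↥(C ⊓ Sup (Kp κ (fun j => j < l))) +
    Module.finrank (ZMod 2) ↥(C ⊓ Sup (Kp κ (fun j => l ≤ j))) + a) →
  ∀ (l : ℕ) (A : Finset (E → ZMod 2)), A ⊆ B → Disjoint A (D l) → (∀ c ∈ A, ∃ e, κ e = l ∧ c e ≠ 0) → A.card ≤ 2 * a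

/-- LEAF DIMX. Proof: the kernel of `c ↦ bd (c|X)` on `Cy` is the sum of `Cy ⊓ Sup X` and `Cy ⊓ Sup Xᶜ`; its values
are `bd (c|X) = bd (c|Xᶜ)`, supported in `bdry X`. Rank and nullity. -/
def S_DIMX : Prop := ∀ (V E : Type) [Fintype V] [Fintype E] [DecidableEq V] [DecidableEq E] (s t : E → V) (X : Finset E),
  Module.finrank (ZMod 2) (Cy s t) ≤ Module.finrank (ZMod 2) ↥(Cy s t ⊓ Sup X) +
    Module.finrank (ZMod 2) ↥(Cy s t ⊓ Sup Xᶜ) + (bdry s t X).card

/-- LEAF SUBP (with `S_RIZ`, `S_POT` as hypotheses, i.e. `main2_of` of `Asmb.lean`, on main; only transfer between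
types). Proof: apply `main2_of` to the types `{v // v ∈ W}`, `{e // e ∈ X}`, and extend the chains by `0`. -/
def S_SUBP : Prop := ∀ (V E : Type) [Fintype V] [Fintype E] [DecidableEq V] [DecidableEq E] (s t : E → V) (X : Finset E)
  (W : Finset V), (∀ e ∈ X, s e ∈ W ∧ t e ∈ W) →
  ∃ D : Finset (E → ZMod 2), LinearIndependent (ZMod 2) (fun c : D => (c : E → ZMod 2)) ∧
    Submodule.span (ZMod 2) (D : Set (E → ZMod 2)) = Cy s t ⊓ Sup X ∧
    ∀ e, (D.filter fun c => c e ≠ 0).card ≤ 4 * (Nat.log 2 W.card + 1) + Nat.log 2 X.card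

end Pool.Agent.K9h72.BN
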