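import Pool.Agent.K9h72.BN.Stme
import Pool.Agent.K9h72.BN.Stmc
import Pool.Agent.K9h72.BN.DimX

/-!
# Basis number and treewidth, many parts: assembly (helper72)
-/

set_option autoImplicit false

namespace Pool.Agent.K9h72.BN

open Finset

theorem main8_of (hP : S_POTC) (hR : S_REPF) (hW : S_WGT) (V E : Type) [Fintype V] [Fintype E] [DecidableEq V]
    [DecidableEq E] (s t : E → V) (hl : ∀ e, s e ≠ t e) (n : ℕ) (T : SimpleGraph (Fin n)) (B : Fin n → Finset V) (m : ℕ)
    (hTt : T.IsTree) (hc : ∀ v : V, (T.induce {i : Fin n | v ∈ B i}).Connected) (he : ∀ e, ∃ i, s e ∈ B i ∧ t e ∈ B i)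
    (hB : ∀ i, (B i).card ≤ m) (b : ℕ) (hb : 2 ≤ b) (κ : E → ℕ) (β : ℕ)
    (hD : ∀ l, ∃ D : Finset (E → ZMod 2), LinearIndependent (ZMod 2) (fun c : D => (c : E → ZMod 2)) ∧
      Submodule.span (ZMod 2) (D : Set (E → ZMod 2)) = Cy s t ⊓ Sup (Kp κ (fun j => j = l)) ∧
      ∀ e, (D.filter fun c => c e ≠ 0).card ≤ β) :
    ∃ S : Finset (E → ZMod 2), LinearIndependent (ZMod 2) (fun c : S => (c : E → ZMod 2)) ∧
      Submodule.span (ZMod 2) (S : Set (E → ZMod 2)) = Cy s t ∧
      ∀ e, (S.filter fun c => c e ≠ 0).card ≤ β + (b * (4 * m) + Nat.log b (∑ l ∈ univ.image κ,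
        min (Kp κ (fun j => j = l)).card (2 * (bdry s t (Kp κ (fun j => j = l))).card))) := by
  classical
  choose D hD1 hD2 hD3 using hD
  have hF := fun l => hR V E s t hl (Kp κ (fun j => j = l))
  choose F R hFX hRF hWW hRc hRe using hF
  set I : Finset ℕ := univ.image κ with hI
  set H : Finset E := I.biUnion F with hH
  set E₀ : Finset E := I.biUnion R with hE₀
  let r : ℕ → (E → ZMod 2) → (E → ZMod 2) := fun l c x => if κ x = l then c x else 0
  have hFκ : ∀ l x, x ∈ F l → κ x = l := fun l x hx => (mem_filter.mp (hFX l hx)).2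
  have hrX : ∀ l c, r l c ∈ Sup (Kp κ (fun j => j = l)) := by
    intro l c x hx
    have : κ x ≠ l := fun h => hx (mem_filter.mpr ⟨mem_univ _, h⟩)
    simp only [r, if_neg this]
  have hrc : ∀ l c, c - r l c ∈ Sup (Kp κ (fun j => j = l))ᶜ := by
    intro l c x hx
    have : κ x = l := by
      by_contra h
      exact hx (mem_compl.mpr fun h' => h (mem_filter.mp h').2)
    simp only [r, Pi.sub_apply, if_pos this, sub_self]
  have hrbd : ∀ l c, c ∈ Cy s t → ∀ v, v ∉ bdry s t (Kp κ (fun j => j = l)) → bd s t (r l c) v = 0 := by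
    intro l c hc v hv
    have hc0 : bd s t c = 0 := hc
    unfold bdry at hv
    rw [mem_inter, not_and_or] at hv
    rcases hv with hv | hv
    · exact dimx_bd s t _ _ (hrX l c) v hv
    · have h5 := dimx_bd s t _ _ (hrc l c) v hv
      rw [map_sub, hc0, zero_sub, Pi.neg_apply, neg_eq_zero] at h5
      exact h5
  have hrH : ∀ l c, c ∈ Sup H → r l c ∈ Sup (F l) := by
    intro l c hc x hx
    by_cases h : κ x = l
    · simp only [r, if_pos h]
      apply hc x
      intro hxH
      obtain ⟨l', _, hx'⟩ := mem_biUnion.mp hxH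
      have h1 := hFκ l' x hx'
      rw [h] at h1
      rw [← h1] at hx'
      exact hx hx'
    · simp only [r, if_neg h]
  have hrep : ∀ e, (∀ c ∈ Cy s t ⊓ Sup H, c e = 0) ∨ ∃ e₀ ∈ E₀, ∀ c ∈ Cy s t ⊓ Sup H, c e = c e₀ := by
    intro e
    by_cases heH : e ∈ H
    · obtain ⟨l, hlI, heF⟩ := mem_biUnion.mp heH
      have hκe := hFκ l e heF
      rcases hRe l e heF with h | ⟨e₀, he₀, h⟩
      · left
        intro c hc
        have h1 := h (r l c) (hrH l c hc.2) (hrbd l c hc.1)
        simp only [r, if_pos hκe] at h1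
        exact h1
      · right
        refine ⟨e₀, mem_biUnion.mpr ⟨l, hlI, he₀⟩, fun c hc => ?_⟩
        have h1 := h (r l c) (hrH l c hc.2) (hrbd l c hc.1)
        have hκe₀ := hFκ l e₀ (hRF l he₀)
        simp only [r, if_pos hκe, if_pos hκe₀] at h1
        exact h1
    · left
      intro c hc
      exact hc.2 e heH
  obtain ⟨BH, hBH1, hBH2, hBH3⟩ := hP b hb E (Cy s t ⊓ Sup H) (4 * m) E₀ hrep
    (fun w hw => hW V E s t hl n T B m hTt hc he hB H w hw)
  set Q := ∑ l ∈ I, min (Kp κ (fun j => j = l)).card (2 * (bdry s t (Kp κ (fun j => j = l))).card) with hQ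
  have hE₀Q : E₀.card ≤ Q := by
    refine card_biUnion_le.trans (sum_le_sum fun l _ => ?_)
    exact le_min (card_le_card ((hRF l).trans (hFX l))) (hRc l)
  set G : Finset (E → ZMod 2) := I.biUnion D ∪ BH with hG
  have hDle : ∀ l, ∀ c ∈ D l, c ∈ Cy s t ⊓ Sup (Kp κ (fun j => j = l)) := by
    intro l c hc
    rw [← hD2 l]
    exact Submodule.subset_span hc
  have hBHle : ∀ c ∈ BH, c ∈ Cy s t ⊓ Sup H := by
    intro c hc
    rw [← hBH2]
    exact Submodule.subset_span hc
  have hspan : Submodule.span (ZMod 2) (G : Set (E → ZMod 2)) = Cy s t := by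
    apply le_antisymm
    · rw [Submodule.span_le]
      intro c hc
      rcases mem_union.mp (mem_coe.mp hc) with h | h
      · obtain ⟨l, _, h'⟩ := mem_biUnion.mp h
        exact (hDle l c h').1
      · exact (hBHle c h).1
    · intro c hc
      have hc0 : bd s t c = 0 := hc
      have hf : ∀ l, ∃ f ∈ Sup (F l), bd s t f = bd s t (r l c) := by
        intro l
        have h1 : bd s t (r l c) ∈ WW s t (Kp κ (fun j => j = l)) := by
          refine ⟨⟨r l c, hrX l c, rfl⟩, ⟨-(c - r l c), Submodule.neg_mem _ (hrc l c), ?_⟩⟩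
          rw [map_neg, map_sub, hc0, zero_sub, neg_neg]
        obtain ⟨f, hf1, hf2⟩ := hWW l h1
        exact ⟨f, hf1, hf2⟩
      choose f hf1 hf2 using hf
      have hsum : ∀ e, ∑ l ∈ I, r l c e = c e := by
        intro e
        rw [sum_eq_single (κ e)]
        · simp only [r, if_true]
        · intro l _ hne
          simp only [r, if_neg (Ne.symm hne)]
        · intro h
          exact absurd (mem_image.mpr ⟨e, mem_univ _, rfl⟩) h
      have hd : ∀ l ∈ I, r l c - f l ∈ Submodule.span (ZMod 2) (G : Set (E → ZMod 2)) := by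
        intro l hlI
        have h1 : r l c - f l ∈ Cy s t ⊓ Sup (Kp κ (fun j => j = l)) := by
          refine ⟨?_, Submodule.sub_mem _ (hrX l c) ?_⟩
          · change bd s t (r l c - f l) = 0
            rw [map_sub, hf2, sub_self]
          · intro x hx
            exact hf1 l x fun h => hx (hFX l h)
        rw [← hD2 l] at h1
        refine Submodule.span_mono ?_ h1
        intro x hx
        exact mem_coe.mpr (mem_union_left _ (mem_biUnion.mpr ⟨l, hlI, mem_coe.mp hx⟩))
      have hh : c - ∑ l ∈ I, (r l c - f l) ∈ Submodule.span (ZMod 2) (G : Set (E → ZMod 2)) := by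
        have h1 : c - ∑ l ∈ I, (r l c - f l) ∈ Cy s t ⊓ Sup H := by
          constructor
          · change bd s t (c - ∑ l ∈ I, (r l c - f l)) = 0
            rw [map_sub, hc0, map_sum, zero_sub, neg_eq_zero]
            apply sum_eq_zero
            intro l _
            rw [map_sub, hf2, sub_self]
          · intro e heH
            rw [Pi.sub_apply, Finset.sum_apply]
            simp only [Pi.sub_apply, sum_sub_distrib]
            rw [hsum e]
            have h2 : ∑ l ∈ I, f l e = 0 := by
              apply sum_eq_zero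
              intro l hlI
              exact hf1 l e fun h => heH (mem_biUnion.mpr ⟨l, hlI, h⟩)
            rw [h2]
            ring
        rw [← hBH2] at h1
        refine Submodule.span_mono ?_ h1
        intro x hx
        exact mem_coe.mpr (mem_union_right _ (mem_coe.mp hx))
      have h3 := Submodule.add_mem _ hh (Submodule.sum_mem _ hd)
      rw [sub_add_cancel] at h3
      exact h3
  obtain ⟨g, hg1, hg2, hg3⟩ := exists_linearIndependent (ZMod 2) (G : Set (E → ZMod 2))
  have hfin : g.Finite := Set.toFinite g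
  refine ⟨hfin.toFinset, ?_, ?_, ?_⟩
  · have h5 : LinearIndepOn (ZMod 2) id ((hfin.toFinset : Finset (E → ZMod 2)) : Set (E → ZMod 2)) := by
      rw [hfin.coe_toFinset]
      exact hg3
    exact h5
  · rw [hfin.coe_toFinset, hg2, hspan]
  · intro e
    have h1 : (hfin.toFinset.filter fun c => c e ≠ 0) ⊆
        ((D (κ e)).filter fun c => c e ≠ 0) ∪ BH.filter fun c => c e ≠ 0 := by
      intro c hc
      obtain ⟨h2, h3⟩ := mem_filter.mp hc
      have h4 : c ∈ G := mem_coe.mp (hg1 (hfin.mem_toFinset.mp h2))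
      rcases mem_union.mp h4 with h | h
      · obtain ⟨l, _, h'⟩ := mem_biUnion.mp h
        have h5 : κ e = l := by
          by_contra hne
          exact h3 ((hDle l c h').2 e fun h6 => hne (mem_filter.mp h6).2)
        rw [← h5] at h'
        exact mem_union_left _ (mem_filter.mpr ⟨h', h3⟩)
      · exact mem_union_right _ (mem_filter.mpr ⟨h, h3⟩)
    have h2 := (card_le_card h1).trans (card_union_le _ _)
    have h3 := hD3 (κ e) e
    have h4 := hBH3 e
    have h5 : Nat.log b E₀.card ≤ Nat.log b Q := Nat.log_mono_right hE₀Q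
    omega

end Pool.Agent.K9h72.BN
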