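import Pool.Agent.K9h72.BN.Stm

/-!
# Leaf CLS: few different coordinates of the chains in a forest with boundary in a small set
-/

set_option autoImplicit false

namespace Pool.Agent.K9h72.BN

open Finset

section cls

variable {V E : Type} [Fintype V] [Fintype E] [DecidableEq V] [DecidableEq E]

/-- the chains in `F` with boundary in `S` -/
def UU (s t : E → V) (F : Finset E) (S : Finset V) (c : E → ZMod 2) : Prop :=
  c ∈ Sup F ∧ ∀ v, v ∉ S → bd s t c v = 0

/-- `f` is zero or one of the functions of `L` on the chains in `F` with boundary in `S` -/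
def Rep (s t : E → V) (F : Finset E) (S : Finset V) (L : Finset ((E → ZMod 2) → ZMod 2))
    (f : (E → ZMod 2) → ZMod 2) : Prop :=
  (∀ c, UU s t F S c → f c = 0) ∨ ∃ φ ∈ L, ∀ c, UU s t F S c → f c = φ c

lemma bd_single (s t : E → V) (e₀ : E) (a : ZMod 2) (v : V) :
    bd s t (Pi.single e₀ a) v = a * inc s t e₀ v := by
  change ∑ e, (Pi.single e₀ a : E → ZMod 2) e * inc s t e v = _
  rw [Finset.sum_eq_single e₀]
  · rw [Pi.single_eq_same]
  · intro e _ he
    rw [Pi.single_eq_of_ne he, zero_mul]
  · intro h
    exact absurd (Finset.mem_univ _) h

lemma upd_eq (c : E → ZMod 2) (e₀ : E) :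
    c = Function.update c e₀ 0 + Pi.single e₀ (c e₀) := by
  funext e
  rw [Pi.add_apply]
  by_cases h : e = e₀
  · subst h
    rw [Function.update_self, Pi.single_eq_same, zero_add]
  · rw [Function.update_of_ne h, Pi.single_eq_of_ne h, add_zero]

lemma bd_upd (s t : E → V) (c : E → ZMod 2) (e₀ : E) (v : V) :
    bd s t c v = bd s t (Function.update c e₀ 0) v + c e₀ * inc s t e₀ v := by
  conv_lhs => rw [upd_eq c e₀]
  rw [map_add, Pi.add_apply, bd_single]

lemma upd_sup {F : Finset E} {c : E → ZMod 2} (hc : c ∈ Sup F) (e₀ : E) :
    Function.update c e₀ 0 ∈ Sup (F.erase e₀) := by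
  intro e he
  by_cases h : e = e₀
  · subst h
    exact Function.update_self _ _ _
  · rw [Function.update_of_ne h]
    apply hc
    intro h2
    exact he (Finset.mem_erase.2 ⟨h, h2⟩)

theorem cls_aux (hleaf : S_LEAF) (s t : E → V) (hst : ∀ e, s e ≠ t e) :
    ∀ (k : ℕ) (F : Finset E), F.card = k → Forest s t F → ∀ S : Finset V,
      ∃ L : Finset ((E → ZMod 2) → ZMod 2), L.card ≤ 2 * S.card ∧
        (∀ e ∈ F, Rep s t F S L (fun c => c e)) ∧
        ∀ v ∈ S, Rep s t F S L (fun c => bd s t c v) := by
  classical
  intro k
  induction k with
  | zero =>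
    intro F hF _ S
    rw [Finset.card_eq_zero] at hF
    subst hF
    refine ⟨∅, by simp, fun e he => absurd he (Finset.notMem_empty _), fun v _ => Or.inl ?_⟩
    rintro c ⟨hc, _⟩
    have h0 : c = 0 := funext fun e => hc e (Finset.notMem_empty _)
    simp only [h0, map_zero, Pi.zero_apply]
  | succ k ih =>
    intro F hF hfor S
    have hne : F.Nonempty := Finset.card_pos.1 (by omega)
    obtain ⟨e₀, he₀, x, hx, hleafx⟩ := hleaf V E s t hst F hne hfor
    obtain ⟨y, hxy, hinc⟩ : ∃ y, x ≠ y ∧
        ∀ v, inc s t e₀ v = (if x = v then 1 else 0) + (if y = v then 1 else 0) := by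
      rcases hx with rfl | rfl
      · exact ⟨t e₀, hst e₀, fun v => rfl⟩
      · exact ⟨s e₀, (hst e₀).symm, fun v => add_comm _ _⟩
    have hcard : (F.erase e₀).card = k := by
      rw [Finset.card_erase_of_mem he₀, hF]
      omega
    have hfor0 : Forest s t (F.erase e₀) := by
      intro c hc hb
      apply hfor c _ hb
      intro e he
      apply hc
      intro h
      exact he (Finset.mem_of_mem_erase h)
    -- boundaries of `c₀`
    have hx0 : ∀ c ∈ Sup F, bd s t (Function.update c e₀ 0) x = 0 := by
      intro c hc
      change ∑ e, (Function.update c e₀ 0) e * inc s t e x = 0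
      apply Finset.sum_eq_zero
      intro e _
      by_cases h : e = e₀
      · subst h
        rw [Function.update_self, zero_mul]
      · rw [Function.update_of_ne h]
        by_cases heF : e ∈ F
        · obtain ⟨h1, h2⟩ := hleafx e heF h
          unfold inc
          rw [if_neg h1, if_neg h2, add_zero, mul_zero]
        · rw [hc e heF, zero_mul]
    have hbx : ∀ c ∈ Sup F, bd s t c x = c e₀ := by
      intro c hc
      rw [bd_upd s t c e₀ x, hx0 c hc, hinc x, if_pos rfl, if_neg (Ne.symm hxy)]
      ring
    have hby : ∀ c : E → ZMod 2, bd s t (Function.update c e₀ 0) y = bd s t c y + c e₀ := by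
      intro c
      rw [bd_upd s t c e₀ y, hinc y, if_pos rfl, if_neg hxy, zero_add, mul_one, add_assoc,
        CharTwo.add_self_eq_zero, add_zero]
    have hbv : ∀ (c : E → ZMod 2) (v : V), v ≠ x → v ≠ y →
        bd s t (Function.update c e₀ 0) v = bd s t c v := by
      intro c v h1 h2
      rw [bd_upd s t c e₀ v, hinc v, if_neg (Ne.symm h1), if_neg (Ne.symm h2), add_zero, mul_zero,
        add_zero]
    by_cases hxS : x ∈ S
    · by_cases hyS : y ∈ S
      · -- both ends in `S`
        obtain ⟨L, hL, h1, h2⟩ := ih (F.erase e₀) hcard hfor0 (S.erase x)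
        have hU : ∀ c, UU s t F S c → UU s t (F.erase e₀) (S.erase x) (Function.update c e₀ 0) := by
          rintro c ⟨hc, hcS⟩
          refine ⟨upd_sup hc e₀, fun v hv => ?_⟩
          by_cases hvx : v = x
          · rw [hvx]
            exact hx0 c hc
          · have hvS : v ∉ S := fun h => hv (Finset.mem_erase.2 ⟨hvx, h⟩)
            have hvy : v ≠ y := fun h => hvS (h ▸ hyS)
            rw [hbv c v hvx hvy]
            exact hcS v hvS
        have hcS : (S.erase x).card + 1 = S.card := Finset.card_erase_add_one hxS
        refine ⟨L.image (fun φ c => φ (Function.update c e₀ 0)) ∪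
          {fun c => c e₀, fun c => bd s t c y}, ?_, ?_, ?_⟩
        · refine (Finset.card_union_le _ _).trans ?_
          have h3 : (L.image (fun φ c => φ (Function.update c e₀ 0))).card ≤ L.card :=
            Finset.card_image_le
          have h4 : ({fun c => c e₀, fun c => bd s t c y} :
              Finset ((E → ZMod 2) → ZMod 2)).card ≤ 2 := Finset.card_le_two
          omega
        · intro e he
          by_cases hee : e = e₀
          · refine Or.inr ⟨fun c => c e₀, Finset.mem_union_right _ (Finset.mem_insert_self _ _), ?_⟩
            intro c _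
            rw [hee]
          · rcases h1 e (Finset.mem_erase.2 ⟨hee, he⟩) with h | ⟨φ, hφ, h⟩
            · refine Or.inl fun c hc => ?_
              have := h _ (hU c hc)
              simp only [Function.update_of_ne hee] at this
              exact this
            · refine Or.inr ⟨_, Finset.mem_union_left _ (Finset.mem_image_of_mem _ hφ), ?_⟩
              intro c hc
              have := h _ (hU c hc)
              simp only [Function.update_of_ne hee] at this
              exact this
        · intro v hv
          by_cases hvx : v = x
          · refine Or.inr ⟨fun c => c e₀, Finset.mem_union_right _ (Finset.mem_insert_self _ _), ?_⟩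
            intro c hc
            simp only [hvx]
            exact hbx c hc.1
          · by_cases hvy : v = y
            · refine Or.inr ⟨fun c => bd s t c y, Finset.mem_union_right _
                (Finset.mem_insert_of_mem (Finset.mem_singleton_self _)), ?_⟩
              intro c _
              rw [hvy]
            · rcases h2 v (Finset.mem_erase.2 ⟨hvx, hv⟩) with h | ⟨φ, hφ, h⟩
              · refine Or.inl fun c hc => ?_
                have := h _ (hU c hc)
                simp only [hbv c v hvx hvy] at this
                exact this
              · refine Or.inr ⟨_, Finset.mem_union_left _ (Finset.mem_image_of_mem _ hφ), ?_⟩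
                intro c hc
                have := h _ (hU c hc)
                simp only [hbv c v hvx hvy] at this
                exact this
      · -- `x ∈ S`, `y ∉ S`
        obtain ⟨L, hL, h1, h2⟩ := ih (F.erase e₀) hcard hfor0 (insert y (S.erase x))
        have hU : ∀ c, UU s t F S c →
            UU s t (F.erase e₀) (insert y (S.erase x)) (Function.update c e₀ 0) := by
          rintro c ⟨hc, hcS⟩
          refine ⟨upd_sup hc e₀, fun v hv => ?_⟩
          rw [Finset.mem_insert, not_or] at hv
          by_cases hvx : v = x
          · rw [hvx]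
            exact hx0 c hc
          · have hvS : v ∉ S := fun h => hv.2 (Finset.mem_erase.2 ⟨hvx, h⟩)
            rw [hbv c v hvx hv.1]
            exact hcS v hvS
        have hcS : (S.erase x).card + 1 = S.card := Finset.card_erase_add_one hxS
        have hcS2 : (insert y (S.erase x)).card ≤ (S.erase x).card + 1 := Finset.card_insert_le _ _
        have hce : ∀ c, UU s t F S c → c e₀ = bd s t (Function.update c e₀ 0) y := by
          rintro c ⟨hc, hcS⟩
          rw [hby c, hcS y hyS, zero_add]
        have hyr : Rep s t F S (L.image (fun φ c => φ (Function.update c e₀ 0))) (fun c => c e₀) := by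
          rcases h2 y (Finset.mem_insert_self _ _) with h | ⟨φ, hφ, h⟩
          · exact Or.inl fun c hc => (hce c hc).trans (h _ (hU c hc))
          · exact Or.inr ⟨_, Finset.mem_image_of_mem _ hφ, fun c hc =>
              (hce c hc).trans (h _ (hU c hc))⟩
        refine ⟨L.image (fun φ c => φ (Function.update c e₀ 0)), ?_, ?_, ?_⟩
        · have h3 : (L.image (fun φ c => φ (Function.update c e₀ 0))).card ≤ L.card :=
            Finset.card_image_le
          omega
        · intro e he
          by_cases hee : e = e₀
          · rw [hee]
            exact hyr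
          · rcases h1 e (Finset.mem_erase.2 ⟨hee, he⟩) with h | ⟨φ, hφ, h⟩
            · refine Or.inl fun c hc => ?_
              have := h _ (hU c hc)
              simp only [Function.update_of_ne hee] at this
              exact this
            · refine Or.inr ⟨_, Finset.mem_image_of_mem _ hφ, ?_⟩
              intro c hc
              have := h _ (hU c hc)
              simp only [Function.update_of_ne hee] at this
              exact this
        · intro v hv
          by_cases hvx : v = x
          · rcases hyr with h | ⟨φ, hφ, h⟩
            · refine Or.inl fun c hc => ?_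
              simp only [hvx]
              rw [hbx c hc.1]
              exact h c hc
            · refine Or.inr ⟨φ, hφ, fun c hc => ?_⟩
              simp only [hvx]
              rw [hbx c hc.1]
              exact h c hc
          · have hvy : v ≠ y := fun h => hyS (h ▸ hv)
            rcases h2 v (Finset.mem_insert_of_mem (Finset.mem_erase.2 ⟨hvx, hv⟩)) with
              h | ⟨φ, hφ, h⟩
            · refine Or.inl fun c hc => ?_
              have := h _ (hU c hc)
              simp only [hbv c v hvx hvy] at this
              exact this
            · refine Or.inr ⟨_, Finset.mem_image_of_mem _ hφ, ?_⟩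
              intro c hc
              have := h _ (hU c hc)
              simp only [hbv c v hvx hvy] at this
              exact this
    · -- `x ∉ S`
      obtain ⟨L, hL, h1, h2⟩ := ih (F.erase e₀) hcard hfor0 S
      have hc0 : ∀ c, UU s t F S c → c e₀ = 0 := by
        rintro c ⟨hc, hcS⟩
        rw [← hbx c hc]
        exact hcS x hxS
      have hU : ∀ c, UU s t F S c → UU s t (F.erase e₀) S c := by
        intro c hc
        refine ⟨?_, hc.2⟩
        intro e he
        by_cases hee : e = e₀
        · rw [hee]
          exact hc0 c hc
        · apply hc.1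
          intro h
          exact he (Finset.mem_erase.2 ⟨hee, h⟩)
      refine ⟨L, hL, ?_, ?_⟩
      · intro e he
        by_cases hee : e = e₀
        · rw [hee]
          exact Or.inl hc0
        · rcases h1 e (Finset.mem_erase.2 ⟨hee, he⟩) with h | ⟨φ, hφ, h⟩
          · exact Or.inl fun c hc => h c (hU c hc)
          · exact Or.inr ⟨φ, hφ, fun c hc => h c (hU c hc)⟩
      · intro v hv
        rcases h2 v hv with h | ⟨φ, hφ, h⟩
        · exact Or.inl fun c hc => h c (hU c hc)
        · exact Or.inr ⟨φ, hφ, fun c hc => h c (hU c hc)⟩

end cls

theorem cls (h : S_LEAF) : S_CLS := by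
  intro V E _ _ _ _ s t hst F hF S
  obtain ⟨L, hL, h1, _⟩ := cls_aux h s t hst F.card F rfl hF S
  refine ⟨L, hL, fun e he => ?_⟩
  rcases h1 e he with h2 | ⟨φ, hφ, h2⟩
  · exact Or.inl fun c hc hcS => h2 c ⟨hc, hcS⟩
  · exact Or.inr ⟨φ, hφ, fun c hc hcS => h2 c ⟨hc, hcS⟩⟩

end Pool.Agent.K9h72.BN
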