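import Pool.Agent.K9h72.BN.Stmb

/-!
# Leaf CON (helper26): contraction of an edge
-/

set_option autoImplicit false

namespace Pool.Agent.K9h72.BN

open Finset

namespace CON_

section

variable {V E : Type} [Fintype V] [Fintype E] [DecidableEq V] [DecidableEq E]

/-- the map which sends `y` to `x` and fixes all other vertices -/
def ph (x y v : V) : V := if v = y then x else v

theorem bd_apply (s t : E → V) (c : E → ZMod 2) (v : V) :
    bd s t c v = ∑ e, c e * inc s t e v := rfl

theorem inc_ne (s t : E → V) {x y v : V} (h1 : v ≠ x) (h2 : v ≠ y) (e : E) :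
    inc (fun e => ph x y (s e)) (fun e => ph x y (t e)) e v = inc s t e v := by
  have key : ∀ u, (if ph x y u = v then (1 : ZMod 2) else 0) = if u = v then 1 else 0 := by
    intro u
    unfold ph
    by_cases hu : u = y
    · subst hu
      rw [if_pos rfl, if_neg (fun h => h1 h.symm), if_neg (fun h => h2 h.symm)]
    · rw [if_neg hu]
  unfold inc
  rw [key, key]

theorem inc_y (s t : E → V) {x y : V} (h : x ≠ y) (e : E) :
    inc (fun e => ph x y (s e)) (fun e => ph x y (t e)) e y = 0 := by
  have key : ∀ u, ph x y u ≠ y := by
    intro u
    unfold ph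
    by_cases hu : u = y
    · rw [if_pos hu]
      exact h
    · rw [if_neg hu]
      exact hu
  unfold inc
  rw [if_neg (key _), if_neg (key _), add_zero]

theorem inc_x (s t : E → V) {x y : V} (h : x ≠ y) (e : E) :
    inc (fun e => ph x y (s e)) (fun e => ph x y (t e)) e x = inc s t e x + inc s t e y := by
  have key : ∀ u, (if ph x y u = x then (1 : ZMod 2) else 0) =
      (if u = x then 1 else 0) + if u = y then 1 else 0 := by
    intro u
    unfold ph
    by_cases hu : u = y
    · subst hu
      rw [if_pos rfl, if_pos rfl, if_neg h.symm, if_pos rfl, zero_add]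
    · rw [if_neg hu, if_neg hu, add_zero]
  unfold inc
  rw [key, key]
  ring

theorem bd_update (s t : E → V) (c : E → ZMod 2) (f : E) (a : ZMod 2) (v : V) :
    bd s t (Function.update c f a) v = bd s t c v + (a - c f) * inc s t f v := by
  rw [bd_apply, bd_apply, ← Finset.add_sum_erase _ _ (mem_univ f),
    ← Finset.add_sum_erase _ (fun e => c e * inc s t e v) (mem_univ f), Function.update_self]
  have h : ∑ e ∈ univ.erase f, Function.update c f a e * inc s t e v =
      ∑ e ∈ univ.erase f, c e * inc s t e v := by
    apply Finset.sum_congr rfl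
    intro e he
    rw [Function.update_of_ne (ne_of_mem_erase he)]
  rw [h]
  ring

end

end CON_

open CON_

theorem con : S_CON := by
  intro V E _ _ _ _ s t f hf
  set x := s f with hx
  set y := t f with hy
  have h2 : ∀ z : ZMod 2, z + z = 0 := CharTwo.add_self_eq_zero
  refine ⟨fun e => ph x y (s e), fun e => ph x y (t e), fun c hc => ?_, fun c hcf hc => ?_⟩
  · funext v
    rw [bd_update]
    have h0 : inc (fun e => ph x y (s e)) (fun e => ph x y (t e)) f v = 0 := by
      unfold inc
      have e1 : ph x y (s f) = x := by
        unfold ph
        rw [← hx, if_neg hf]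
      have e2 : ph x y (t f) = x := by
        unfold ph
        rw [← hy, if_pos rfl]
      simp only [e1, e2]
      exact h2 _
    rw [h0, mul_zero, add_zero, Pi.zero_apply]
    have hcv : ∀ v, ∑ e, c e * inc s t e v = 0 := fun v => congrFun hc v
    rw [bd_apply]
    by_cases h1 : v = x
    · rw [h1]
      simp only [inc_x s t hf, mul_add, Finset.sum_add_distrib]
      rw [hcv, hcv, add_zero]
    · by_cases h3 : v = y
      · rw [h3]
        simp only [inc_y s t hf, mul_zero, Finset.sum_const_zero]
      · simp only [inc_ne s t h1 h3]
        exact hcv v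
  · refine ⟨bd s t c y, ?_⟩
    have hcv : ∀ v, ∑ e, c e * inc (fun e => ph x y (s e)) (fun e => ph x y (t e)) e v = 0 :=
      fun v => congrFun hc v
    funext v
    rw [bd_update, hcf, sub_zero, Pi.zero_apply]
    by_cases h1 : v = x
    · have e1 : inc s t f v = 1 := by
        unfold inc
        rw [if_pos (by rw [h1]), if_neg (by rw [h1]; exact fun h => hf h.symm), add_zero]
      rw [e1, mul_one, h1]
      have e2 := hcv x
      simp only [inc_x s t hf, mul_add, Finset.sum_add_distrib] at e2
      rw [bd_apply, bd_apply]
      exact e2
    · by_cases h3 : v = y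
      · have e1 : inc s t f v = 1 := by
          unfold inc
          rw [if_neg (by rw [h3]; exact hf), if_pos (by rw [h3]), zero_add]
        rw [e1, mul_one, h3]
        exact h2 _
      · have e1 : inc s t f v = 0 := by
          unfold inc
          rw [if_neg (fun h => h1 (by rw [← h])), if_neg (fun h => h3 (by rw [← h])), add_zero]
        rw [e1, mul_zero, add_zero]
        have e2 := hcv v
        simp only [inc_ne s t h1 h3] at e2
        rw [bd_apply]
        exact e2

end Pool.Agent.K9h72.BN
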