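import Pool.Agent.K9h72.BN.Stm

/-!
# The greedy choice of the cycles (leaf GRE)
-/

set_option autoImplicit false

namespace Pool.Agent.K9h72.BN

open Finset

theorem gre : S_GRE := by
  classical
  intro E U α _ _ _ _ δ w hw κ Λ
  suffices main : ∀ (n : ℕ) (H : Finset E), H.card = n → ∀ R : Submodule (ZMod 2) (E → ZMod 2), R ≤ Sup H →
      (∀ e ∈ H, κ e ∈ Λ ∨ ∀ c ∈ R, c e = 0) → (∀ e ∈ H, ∀ e' ∈ H, κ e = κ e' → ∀ c ∈ R, c e = c e') →
      ∃ (S : Finset (E → ZMod 2)) (H' : Finset E), (∀ c ∈ S, c ∈ R ∧ δ c = 0) ∧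
        (∀ c ∈ R, δ c = 0 → c ∈ Submodule.span (ZMod 2) (S : Set (E → ZMod 2))) ∧ H' ⊆ H ∧
        (∀ c ∈ R, ∃ c' ∈ R, c' ∈ Sup H' ∧ δ c' = δ c) ∧
        ∑ c ∈ S, wt w c + (Λ.card : ℝ) * ∑ e ∈ H', w e ≤ (Λ.card : ℝ) * ∑ e ∈ H, w e from
    fun H R h1 h2 h3 => main H.card H rfl R h1 h2 h3
  have hwt : ∀ c : E → ZMod 2, 0 ≤ wt w c := fun c => Finset.sum_nonneg fun e _ => hw e
  intro n
  induction n using Nat.strong_induction_on with
  | _ n ih =>
    intro H hn R hR h2 h3
    by_cases hex : ∃ c ∈ R, c ≠ 0 ∧ δ c = 0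
    · obtain ⟨c, hcR, hc0, hcδ⟩ := hex
      -- the support
      have hsub : ∀ e, c e ≠ 0 → e ∈ H := fun e he => by
        by_contra h
        exact he (hR hcR e h)
      have hlab : ∀ e, c e ≠ 0 → κ e ∈ Λ := fun e he => by
        rcases h2 e (hsub e he) with h | h
        · exact h
        · exact absurd (h c hcR) he
      let P : Finset E := univ.filter fun e => c e ≠ 0
      have hP : P.Nonempty := by
        obtain ⟨e, he⟩ := Function.ne_iff.1 hc0
        exact ⟨e, mem_filter.2 ⟨mem_univ _, he⟩⟩
      obtain ⟨a, haA, hmax⟩ := Finset.exists_max_image (P.image κ)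
        (fun a => ∑ e ∈ H.filter (fun e => κ e = a), w e) (hP.image κ)
      obtain ⟨e₀, he₀, rfl⟩ := mem_image.1 haA
      have hce₀ : c e₀ ≠ 0 := (mem_filter.1 he₀).2
      have he₀H : e₀ ∈ H := hsub e₀ hce₀
      have hone : ∀ x : ZMod 2, x ≠ 0 → x = 1 := by decide
      have hc1 : ∀ e ∈ H, κ e = κ e₀ → c e = 1 := fun e he hk => by
        rw [h3 e he e₀ he₀H hk c hcR]
        exact hone _ hce₀
      have hwtc : wt w c ≤ (Λ.card : ℝ) * ∑ e ∈ H.filter (fun e => κ e = κ e₀), w e := by
        have hf0 : (0 : ℝ) ≤ ∑ e ∈ H.filter (fun e => κ e = κ e₀), w e :=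
          Finset.sum_nonneg fun e _ => hw e
        calc wt w c = ∑ e ∈ P, w e := rfl
          _ = ∑ b ∈ P.image κ, ∑ e ∈ P.filter (fun e => κ e = b), w e :=
              (Finset.sum_fiberwise_of_maps_to (fun e he => mem_image_of_mem κ he) _).symm
          _ ≤ ∑ b ∈ P.image κ, ∑ e ∈ H.filter (fun e => κ e = b), w e := by
              refine Finset.sum_le_sum fun b _ => ?_
              refine Finset.sum_le_sum_of_subset_of_nonneg ?_ fun e _ _ => hw e
              intro e he
              rw [mem_filter] at he ⊢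
              exact ⟨hsub e (mem_filter.1 he.1).2, he.2⟩
          _ ≤ ∑ _b ∈ P.image κ, ∑ e ∈ H.filter (fun e => κ e = κ e₀), w e :=
              Finset.sum_le_sum fun b hb => hmax b hb
          _ = ((P.image κ).card : ℝ) * ∑ e ∈ H.filter (fun e => κ e = κ e₀), w e := by
              rw [Finset.sum_const, nsmul_eq_mul]
          _ ≤ _ := by
              refine mul_le_mul_of_nonneg_right ?_ hf0
              have : P.image κ ⊆ Λ := by
                intro b hb
                obtain ⟨e, he, rfl⟩ := mem_image.1 hb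
                exact hlab e (mem_filter.1 he).2
              exact_mod_cast Finset.card_le_card this
      -- the smaller set
      let H₁ : Finset E := H.filter fun e => ¬ κ e = κ e₀
      have hH₁ : H₁ ⊆ H := filter_subset _ _
      have hlt : H₁.card < n := by
        rw [← hn]
        refine Finset.card_lt_card ((Finset.ssubset_iff_of_subset hH₁).2 ⟨e₀, he₀H, ?_⟩)
        intro h
        exact (mem_filter.1 h).2 rfl
      obtain ⟨S₁, H', hS1, hS2, hH', hS4, hS5⟩ := ih H₁.card hlt H₁ rfl (R ⊓ Sup H₁) inf_le_right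
        (fun e he => by
          rcases h2 e (hH₁ he) with h | h
          · exact Or.inl h
          · exact Or.inr fun c hc => h c hc.1)
        (fun e he e' he' hk c hc => h3 e (hH₁ he) e' (hH₁ he') hk c hc.1)
      -- reduction by `c`
      have hred : ∀ r ∈ R, r - (r e₀) • c ∈ R ⊓ Sup H₁ := by
        intro r hr
        refine ⟨R.sub_mem hr (R.smul_mem _ hcR), ?_⟩
        intro e he
        rw [Pi.sub_apply, Pi.smul_apply, smul_eq_mul]
        by_cases heH : e ∈ H
        · have hk : κ e = κ e₀ := by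
            by_contra hk
            exact he (mem_filter.2 ⟨heH, hk⟩)
          rw [hc1 e heH hk, mul_one, h3 e heH e₀ he₀H hk r hr, sub_self]
        · rw [hR hr e heH, hR hcR e heH, mul_zero, sub_zero]
      have hδred : ∀ r ∈ R, δ (r - (r e₀) • c) = δ r := by
        intro r _
        rw [map_sub, map_smul, hcδ, smul_zero, sub_zero]
      refine ⟨insert c S₁, H', ?_, ?_, hH'.trans hH₁, ?_, ?_⟩
      · intro x hx
        rcases mem_insert.1 hx with rfl | hx
        · exact ⟨hcR, hcδ⟩
        · exact ⟨(hS1 x hx).1.1, (hS1 x hx).2⟩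
      · intro r hr hrδ
        have h4 := hS2 _ (hred r hr) ((hδred r hr).trans hrδ)
        have h5 : r - (r e₀) • c ∈ Submodule.span (ZMod 2) ((insert c S₁ : Finset (E → ZMod 2)) :
            Set (E → ZMod 2)) := by
          refine Submodule.span_mono ?_ h4
          rw [Finset.coe_insert]
          exact Set.subset_insert _ _
        have h6 : c ∈ Submodule.span (ZMod 2) ((insert c S₁ : Finset (E → ZMod 2)) :
            Set (E → ZMod 2)) := Submodule.subset_span (by
          rw [Finset.coe_insert]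
          exact Set.mem_insert _ _)
        have h7 := Submodule.add_mem _ h5 (Submodule.smul_mem _ (r e₀) h6)
        rwa [sub_add_cancel] at h7
      · intro r hr
        obtain ⟨r', h4, h5, h6⟩ := hS4 _ (hred r hr)
        exact ⟨r', h4.1, h5, h6.trans (hδred r hr)⟩
      · have h8 : ∑ x ∈ insert c S₁, wt w x ≤ wt w c + ∑ x ∈ S₁, wt w x := by
          by_cases hc : c ∈ S₁
          · rw [Finset.insert_eq_of_mem hc]
            have := hwt c
            linarith
          · rw [Finset.sum_insert hc]
        have h9 := Finset.sum_filter_add_sum_filter_not H (fun e => κ e = κ e₀) w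
        have h10 : (Λ.card : ℝ) * ∑ e ∈ H, w e =
            (Λ.card : ℝ) * ∑ e ∈ H.filter (fun e => κ e = κ e₀), w e +
              (Λ.card : ℝ) * ∑ e ∈ H₁, w e := by
          rw [← h9, mul_add]
        rw [h10]
        linarith
    · push Not at hex
      refine ⟨∅, H, fun c hc => absurd hc (Finset.notMem_empty _), ?_, Finset.Subset.refl _, ?_, ?_⟩
      · intro c hc hcδ
        have h4 : c = 0 := by
          by_contra h
          exact hex c hc h hcδ
        rw [h4]
        exact Submodule.zero_mem _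
      · intro c hc
        exact ⟨c, hc, hR hc, rfl⟩
      · rw [Finset.sum_empty, zero_add]

end Pool.Agent.K9h72.BN
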