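import Mathlib

/-!
# Basis number and treewidth: definitions and statements of the leaves (helper72)

Goal (MP_35885f_co): a graph with treewidth at most `k` has a cycle basis in which every edge is in at most
`8 (k + 1) + log_2 |E|` members. Graphs without loops: edges `e : E` with ends `s e ≠ t e`. Chains: functions
`E → ZMod 2`. File of the leaf NAME: `Pool/Agent/K9h72/BN/Name.lean`, in the namespace `Pool.Agent.K9h72.BN`.
-/

set_option autoImplicit false

namespace Pool.Agent.K9h72.BN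

open Finset

section defs

variable {V E : Type} [Fintype V] [Fintype E] [DecidableEq V] [DecidableEq E]

/-- incidence of the edge `e` and the vertex `v` -/
def inc (s t : E → V) (e : E) (v : V) : ZMod 2 := (if s e = v then 1 else 0) + (if t e = v then 1 else 0)

/-- the boundary of a chain -/
def bd (s t : E → V) : (E → ZMod 2) →ₗ[ZMod 2] (V → ZMod 2) where
  toFun c v := ∑ e, c e * inc s t e v
  map_add' c d := by
    funext v
    simp only [Pi.add_apply, add_mul, Finset.sum_add_distrib]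
  map_smul' a c := by
    funext v
    simp only [Pi.smul_apply, smul_eq_mul, RingHom.id_apply, Finset.mul_sum, mul_assoc]

/-- the chains supported in `X` -/
def Sup (X : Finset E) : Submodule (ZMod 2) (E → ZMod 2) where
  carrier := {c | ∀ e, e ∉ X → c e = 0}
  zero_mem' := fun _ _ => rfl
  add_mem' := by
    intro c d hc hd e he
    rw [Pi.add_apply, hc e he, hd e he, add_zero]
  smul_mem' := by
    intro a c hc e he
    rw [Pi.smul_apply, hc e he, smul_zero]

/-- the cycle space -/
def Cy (s t : E → V) : Submodule (ZMod 2) (E → ZMod 2) := LinearMap.ker (bd s t)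

/-- the boundaries of the parts in `X` of the cycles -/
def WW (s t : E → V) (X : Finset E) : Submodule (ZMod 2) (V → ZMod 2) :=
  (Sup X).map (bd s t) ⊓ (Sup Xᶜ).map (bd s t)

/-- the ends of the edges in `X` -/
def touch (s t : E → V) (X : Finset E) : Finset V := univ.filter fun v => ∃ e ∈ X, s e = v ∨ t e = v

/-- the vertices which are ends of edges in `X` and of edges not in `X` -/
def bdry (s t : E → V) (X : Finset E) : Finset V := touch s t X ∩ touch s t Xᶜ

/-- the weight of a chain -/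
noncomputable def wt (w : E → ℝ) (c : E → ZMod 2) : ℝ := ∑ e ∈ univ.filter (fun e => c e ≠ 0), w e

/-- `F` is a forest: it contains no cycle -/
def Forest (s t : E → V) (F : Finset E) : Prop := ∀ c ∈ Sup F, bd s t c = 0 → c = 0

/-- there are a generating set `S` of the cycle space of `X` and a set `F` of edges which realises all the boundaries in
`WW X`, with weight `S + K weight F ≤ K weight X` -/
def Cost (s t : E → V) (K : ℝ) (w : E → ℝ) (X : Finset E) : Prop :=
  ∃ (S : Finset (E → ZMod 2)) (F : Finset E), (∀ c ∈ S, c ∈ Sup X ∧ bd s t c = 0) ∧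
    (∀ c ∈ Sup X, bd s t c = 0 → c ∈ Submodule.span (ZMod 2) (S : Set (E → ZMod 2))) ∧ F ⊆ X ∧
    WW s t X ≤ (Sup F).map (bd s t) ∧ ∑ c ∈ S, wt w c + K * ∑ e ∈ F, w e ≤ K * ∑ e ∈ X, w e

end defs

/-- LEAF LEAF: a nonempty forest has a leaf. Proof: `bd` is injective on `Sup F` (dimension `|F|`), its image consists of
functions supported in `touch F` with sum `0`, so `|F| ≤ |touch F| - 1`; if no vertex of `touch F` had degree one in `F`
then `2 |F| = ∑_{v ∈ touch F} deg v ≥ 2 |touch F|`. -/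
def S_LEAF : Prop := ∀ (V E : Type) [Fintype V] [Fintype E] [DecidableEq V] [DecidableEq E] (s t : E → V),
  (∀ e, s e ≠ t e) → ∀ F : Finset E, F.Nonempty → Forest s t F →
  ∃ e ∈ F, ∃ x : V, (s e = x ∨ t e = x) ∧ ∀ e' ∈ F, e' ≠ e → s e' ≠ x ∧ t e' ≠ x

/-- LEAF CLS (with `S_LEAF` as hypothesis): on the space `U(F, S)` of the chains in the forest `F` with boundary supported
in `S` the coordinates `c ↦ c e`, `e ∈ F`, are at most `2 |S|` different nonzero functionals. Proof by induction on `|F|`,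
for the larger family of the coordinates `c ↦ c e`, `e ∈ F`, and `c ↦ bd c v`, `v ∈ S`. Let `x` be a leaf of `F` with the
edge `e₀` and let `y` be the other end of `e₀`. For `c` in `U(F, S)` `c e₀ = bd c x`; put `c₀ = c - c e₀ e₀`
(`Function.update c e₀ 0`), a chain in `F₀ = F \ {e₀}`. If `x ∉ S` then `c e₀ = 0`, `c₀ = c`, `S₀ = S`. If `x ∈ S`,
`y ∉ S`: `S₀ = S \ {x} ∪ {y}`, and `c e₀ = bd c x = bd c₀ y`, the other functionals are those of `c₀`. If `x, y ∈ S`:
`S₀ = S \ {x}`, all the functionals except `c e₀ = bd c x` and `bd c y` are those of `c₀`: two more. So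
`L = L₀.image (fun φ c => φ (Function.update c e₀ 0)) ∪ {fun c => c e₀, fun c => bd c y}`. -/
def S_CLS : Prop := ∀ (V E : Type) [Fintype V] [Fintype E] [DecidableEq V] [DecidableEq E] (s t : E → V),
  (∀ e, s e ≠ t e) → ∀ F : Finset E, Forest s t F → ∀ S : Finset V,
  ∃ L : Finset ((E → ZMod 2) → ZMod 2), L.card ≤ 2 * S.card ∧
    ∀ e ∈ F, (∀ c ∈ Sup F, (∀ v, v ∉ S → bd s t c v = 0) → c e = 0) ∨
      ∃ φ ∈ L, ∀ c ∈ Sup F, (∀ v, v ∉ S → bd s t c v = 0) → c e = φ c

/-- LEAF GRE (greedy choice of the cycles; linear algebra only). `R` is a space of chains in `H`; the edges of `H` have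
labels such that the elements of `R` are constant on the edges with equal labels, and vanish on the edges with a label
not in `Λ`. Proof by induction on `|H|`. If `R` contains no `c ≠ 0` with `δ c = 0` take `S = ∅`, `H' = H`. Otherwise let `c`
be such an element, `a ∈ Λ` a label of an edge of the support of `c`, such that the weight of the class
`H_a = {e ∈ H : κ e = a}` is maximal; `c` is `1` on `H_a`; `wt c ≤ |Λ| * weight H_a`. Put `H₁ = H \ H_a`, `R₁ = R ⊓ Sup H₁`;
for `r ∈ R` one of `r`, `r + c` is in `R₁`. Induction gives `S₁`, `H'`; `S = insert c S₁`. -/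
def S_GRE : Prop := ∀ (E U α : Type) [Fintype E] [DecidableEq E] [AddCommGroup U] [Module (ZMod 2) U]
  (δ : (E → ZMod 2) →ₗ[ZMod 2] U) (w : E → ℝ), (∀ e, 0 ≤ w e) → ∀ (κ : E → α) (Λ : Finset α) (H : Finset E)
  (R : Submodule (ZMod 2) (E → ZMod 2)), R ≤ Sup H →
  (∀ e ∈ H, κ e ∈ Λ ∨ ∀ c ∈ R, c e = 0) → (∀ e ∈ H, ∀ e' ∈ H, κ e = κ e' → ∀ c ∈ R, c e = c e') →
  ∃ (S : Finset (E → ZMod 2)) (H' : Finset E), (∀ c ∈ S, c ∈ R ∧ δ c = 0) ∧
    (∀ c ∈ R, δ c = 0 → c ∈ Submodule.span (ZMod 2) (S : Set (E → ZMod 2))) ∧ H' ⊆ H ∧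
    (∀ c ∈ R, ∃ c' ∈ R, c' ∈ Sup H' ∧ δ c' = δ c) ∧
    ∑ c ∈ S, wt w c + (Λ.card : ℝ) * ∑ e ∈ H', w e ≤ (Λ.card : ℝ) * ∑ e ∈ H, w e

/-- LEAF JOIN (with `S_CLS`, `S_GRE` as hypotheses). Proof. (a) `F_X` and `F_Y` may be replaced by inclusion-minimal subsets
which realise `WW X`, `WW Y`; these are forests (if `c ≠ 0` is a cycle in `F` and `c e = 1` then `F \ {e}` also realises
the boundaries). (b) Elements of `WW X` are supported in `bdry X`. Let `H = F_X ∪ F_Y` and
`R = {c ∈ Sup H : bd (c|X) ∈ WW X, bd (c|Y) ∈ WW Y}` (`c|X` is `c` on `X`, zero outside); labels: the functionals of `S_CLS` for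
`F_X, bdry X` (tag `inl`) and `F_Y, bdry Y` (tag `inr`), and one label not in `Λ` for the zero functionals;
`|Λ| ≤ 2 m + 2 m ≤ K`. (c) If `w ∈ WW (X ∪ Y)`, `w = bd c`, `c ∈ Sup (X ∪ Y)`, then `bd (c|X) ∈ WW X`
(`bd (c|X) = w + bd (c|Y)` and `w ∈ bd (Sup (X ∪ Y)ᶜ)`), so there is `r ∈ R` with `bd (r|X) = bd (c|X)`,
`bd (r|Y) = bd (c|Y)`, `bd r = w`. With `c` a cycle in `X ∪ Y` (`w = 0`): `c - r` is the sum of a cycle in `X` and one in
`Y`. Apply `S_GRE` (`δ = bd`): `S = S_X ∪ S_Y ∪ S'`, `F = H'`. -/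
def S_JOIN : Prop := ∀ (V E : Type) [Fintype V] [Fintype E] [DecidableEq V] [DecidableEq E] (s t : E → V),
  (∀ e, s e ≠ t e) → ∀ w : E → ℝ, (∀ e, 0 ≤ w e) → ∀ (m : ℕ) (X Y : Finset E), Disjoint X Y →
  (bdry s t X).card ≤ m → (bdry s t Y).card ≤ m → Cost s t (4 * m) w X → Cost s t (4 * m) w Y →
  Cost s t (4 * m) w (X ∪ Y)

/-- LEAF TREE (induction along a tree decomposition; combinatorics only). Proof with
`Pool.Agent.R37.exists_rooting`, `Pool.Agent.R37.Rooting.sub_of_connected` (file `Pool/Agent/R37/Tree.lean` of the starting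
library: depth, parent, tops of subtrees). Choose for each edge a node whose bag contains both ends. Process the nodes by
decreasing depth, merging the set `Y_l` of a node `l` into that of its parent; invariant: a vertex which is an end of
edges in two different sets `Y_x`, `Y_z` is in the bag of `x`; so all unions that occur have their boundary in a bag. -/
def S_TREE : Prop := ∀ (V E : Type) [Fintype V] [Fintype E] [DecidableEq V] [DecidableEq E] (s t : E → V) (n : ℕ)
  (T : SimpleGraph (Fin n)) (B : Fin n → Finset V) (m : ℕ), T.IsTree →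
  (∀ v : V, (T.induce {i : Fin n | v ∈ B i}).Connected) → (∀ e, ∃ i, s e ∈ B i ∧ t e ∈ B i) →
  (∀ i, (B i).card ≤ m) → ∀ P : Finset E → Prop, P ∅ → (∀ e, P {e}) →
  (∀ X Y : Finset E, Disjoint X Y → (bdry s t X).card ≤ m → (bdry s t Y).card ≤ m → P X → P Y → P (X ∪ Y)) →
  P univ

/-- LEAF POT (local optimum of the potential `∑_e 2 ^ load e`; linear algebra only). Proof. Let `b : Fin d → C` be a basis of
`C` for which `Φ(b) = ∑_e 2 ^ load e`, `load e = #{i : b i e ≠ 0}`, is minimal, and `w e = 2 ^ load e`. The hypothesis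
gives a basis `b'` of `C` with `∑_j wt w (b' j) ≤ K ∑_e w e` (choose a basis in the generating set). Since the matrix of
`b'` with respect to `b` is invertible there is a permutation `σ` such that the coefficient of `b i` in `b' (σ i)` is not
`0` for all `i` (Leibniz formula for the determinant), so `Function.update b i (b' (σ i))` is a basis. Its potential is at
least that of `b`, and at most `Φ(b) - wt w (b i) / 2 + wt w (b' (σ i))`. So `wt w (b i) ≤ 2 wt w (b' (σ i))`, and
`∑_e load e 2 ^ load e = ∑_i wt w (b i) ≤ 2 K ∑_e 2 ^ load e`. If `load e₁ = L > 2 K` for some `e₁`, then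
`2 ^ L ≤ (L - 2 K) 2 ^ L ≤ ∑_{load e < 2 K} (2 K - load e) 2 ^ load e ≤ |E| 2 ^ (2 K)`. -/
def S_POT : Prop := ∀ (E : Type) [Fintype E] [DecidableEq E] (C : Submodule (ZMod 2) (E → ZMod 2)) (K : ℕ),
  (∀ w : E → ℝ, (∀ e, 0 ≤ w e) → ∃ S : Finset (E → ZMod 2), (∀ c ∈ S, c ∈ C) ∧
    (∀ c ∈ C, c ∈ Submodule.span (ZMod 2) (S : Set (E → ZMod 2))) ∧ ∑ c ∈ S, wt w c ≤ (K : ℝ) * ∑ e, w e) →
  ∃ B : Finset (E → ZMod 2), LinearIndependent (ZMod 2) (fun c : B => (c : E → ZMod 2)) ∧
    Submodule.span (ZMod 2) (B : Set (E → ZMod 2)) = C ∧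
    ∀ e, (B.filter fun c => c e ≠ 0).card ≤ 2 * K + Nat.log 2 (Fintype.card E)

end Pool.Agent.K9h72.BN
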