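import Mathlib
import Pool.Agent.K9h72.BN.Stm

/-!
# The leaf JOIN
-/

set_option autoImplicit false
set_option linter.unusedSectionVars false

namespace Pool.Agent.K9h72.BN

open Finset

namespace JN

section sup

variable {E : Type} [Fintype E] [DecidableEq E]

/-- the part of a chain in `X` -/
def rs (X : Finset E) : (E → ZMod 2) →ₗ[ZMod 2] (E → ZMod 2) where
  toFun c e := if e ∈ X then c e else 0
  map_add' c d := by
    funext e
    by_cases h : e ∈ X <;> simp [h]
  map_smul' a c := by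
    funext e
    by_cases h : e ∈ X <;> simp [h]

lemma rs_pos {X : Finset E} {e : E} (h : e ∈ X) (c : E → ZMod 2) : rs X c e = c e := if_pos h

lemma rs_neg {X : Finset E} {e : E} (h : e ∉ X) (c : E → ZMod 2) : rs X c e = 0 := if_neg h

lemma rs_mem (X : Finset E) (c : E → ZMod 2) : rs X c ∈ Sup X := fun _ he => rs_neg he c

lemma sup_mono {X Y : Finset E} (h : X ⊆ Y) : Sup X ≤ Sup Y :=
  fun _ hc e he => hc e (fun h' => he (h h'))

lemma rs_eq {X : Finset E} {c : E → ZMod 2} (h : c ∈ Sup X) : rs X c = c := by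
  funext e
  by_cases he : e ∈ X
  · exact rs_pos he c
  · exact (rs_neg he c).trans (h e he).symm

lemma rs_zero {X Y : Finset E} (hd : Disjoint X Y) {c : E → ZMod 2} (h : c ∈ Sup Y) :
    rs X c = 0 := by
  funext e
  by_cases he : e ∈ X
  · exact (rs_pos he c).trans (h e (Finset.disjoint_left.mp hd he))
  · exact rs_neg he c

lemma rs_add {X Y : Finset E} (hd : Disjoint X Y) {c : E → ZMod 2} (h : c ∈ Sup (X ∪ Y)) :
    rs X c + rs Y c = c := by
  funext e
  rw [Pi.add_apply]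
  by_cases he : e ∈ X
  · rw [rs_pos he, rs_neg (Finset.disjoint_left.mp hd he), add_zero]
  · by_cases he' : e ∈ Y
    · rw [rs_neg he, rs_pos he', zero_add]
    · rw [rs_neg he, rs_neg he', add_zero]
      refine (h e fun h' => ?_).symm
      rcases Finset.mem_union.mp h' with h' | h'
      · exact he h'
      · exact he' h'

lemma rs_sub {X Y F F' : Finset E} (hd : Disjoint X Y) (hF' : F' ⊆ Y)
    {c : E → ZMod 2} (h : c ∈ Sup (F ∪ F')) : rs X c ∈ Sup F := by
  intro e he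
  by_cases hX : e ∈ X
  · rw [rs_pos hX]
    refine h e fun h' => ?_
    rcases Finset.mem_union.mp h' with h' | h'
    · exact he h'
    · exact Finset.disjoint_left.mp hd hX (hF' h')
  · exact rs_neg hX c

lemma zmod_two_eq_one {x : ZMod 2} (h : x ≠ 0) : x = 1 := by
  revert h
  revert x
  decide

end sup

section gr

variable {V E : Type} [Fintype V] [Fintype E] [DecidableEq V] [DecidableEq E] {s t : E → V}

lemma bd_apply_eq_zero {X : Finset E} {c : E → ZMod 2} (hc : c ∈ Sup X) {v : V}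
    (hv : v ∉ touch s t X) : bd s t c v = 0 := by
  change ∑ e, c e * inc s t e v = 0
  refine Finset.sum_eq_zero fun e _ => ?_
  by_cases he : e ∈ X
  · have h1 : ¬ (s e = v ∨ t e = v) := fun h => hv (by
      rw [touch, Finset.mem_filter]
      exact ⟨Finset.mem_univ _, e, he, h⟩)
    push Not at h1
    rw [inc, if_neg h1.1, if_neg h1.2, add_zero, mul_zero]
  · rw [hc e he, zero_mul]

lemma ww_apply {X : Finset E} {a : V → ZMod 2} (ha : a ∈ WW s t X) {v : V}
    (hv : v ∉ bdry s t X) : a v = 0 := by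
  obtain ⟨⟨c, hc, rfl⟩, ⟨d, hd, hdc⟩⟩ := ha
  by_cases h : v ∈ touch s t X
  · have h' : v ∉ touch s t Xᶜ := fun h' => hv (Finset.mem_inter.mpr ⟨h, h'⟩)
    rw [← hdc]
    exact bd_apply_eq_zero hd h'
  · exact bd_apply_eq_zero hc h

/-- a generating set of edges contains a forest -/
lemma exists_forest {A : Submodule (ZMod 2) (V → ZMod 2)} (n : ℕ) : ∀ F : Finset E, F.card = n →
    A ≤ (Sup F).map (bd s t) → ∃ F' ⊆ F, Forest s t F' ∧ A ≤ (Sup F').map (bd s t) := by
  induction n with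
  | zero =>
    intro F hF hA
    refine ⟨F, Finset.Subset.refl _, fun c hc _ => ?_, hA⟩
    rw [Finset.card_eq_zero.mp hF] at hc
    funext e
    exact hc e (Finset.notMem_empty e)
  | succ n ih =>
    intro F hF hA
    by_cases h : Forest s t F
    · exact ⟨F, Finset.Subset.refl _, h, hA⟩
    · rw [Forest] at h
      push Not at h
      obtain ⟨c, hc, hb, hne⟩ := h
      obtain ⟨e, he⟩ := Function.ne_iff.mp hne
      have he' : c e ≠ 0 := he
      have heF : e ∈ F := by
        by_contra h'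
        exact he' (hc e h')
      have h1 : A ≤ (Sup (F.erase e)).map (bd s t) := by
        refine hA.trans ?_
        rintro a ⟨x, hx, rfl⟩
        refine ⟨x + x e • c, fun e' h' => ?_, ?_⟩
        · rw [Pi.add_apply, Pi.smul_apply, smul_eq_mul]
          by_cases h2 : e' = e
          · subst h2
            rw [zmod_two_eq_one he', mul_one]
            exact CharTwo.add_self_eq_zero _
          · have h3 : e' ∉ F := fun h3 => h' (Finset.mem_erase.mpr ⟨h2, h3⟩)
            rw [hx e' h3, hc e' h3, mul_zero, add_zero]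
        · rw [map_add, map_smul, hb, smul_zero, add_zero]
      obtain ⟨F', hF', h2, h3⟩ := ih (F.erase e) (by rw [Finset.card_erase_of_mem heF]; omega) h1
      exact ⟨F', hF'.trans (Finset.erase_subset _ _), h2, h3⟩

/-- the parts of the boundaries -/
lemma part_mem {X Y : Finset E} (hd : Disjoint X Y) {c : E → ZMod 2} (hc : c ∈ Sup (X ∪ Y))
    (hb : bd s t c ∈ (Sup (X ∪ Y)ᶜ).map (bd s t)) : bd s t (rs X c) ∈ WW s t X := by
  refine ⟨⟨_, rs_mem X c, rfl⟩, ?_⟩
  obtain ⟨d, hd', hdc⟩ := hb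
  refine ⟨d - rs Y c, ?_, ?_⟩
  · refine Submodule.sub_mem _ (sup_mono ?_ hd') (sup_mono ?_ (rs_mem Y c))
    · exact Finset.compl_subset_compl.mpr Finset.subset_union_left
    · intro e he
      rw [Finset.mem_compl]
      exact Finset.disjoint_right.mp hd he
  · rw [map_sub, hdc]
    have h1 := congrArg (bd s t) (rs_add hd hc)
    rw [map_add] at h1
    rw [← h1, add_sub_cancel_right]

/-- the labels of the edges of one forest -/
lemma labels (h1 : S_CLS) (hl : ∀ e, s e ≠ t e) {m : ℕ} {X F : Finset E} (hF : Forest s t F)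
    (hX : (bdry s t X).card ≤ m) :
    ∃ (L : Finset ((E → ZMod 2) → ZMod 2)) (κ : E → Option ((E → ZMod 2) → ZMod 2)),
      L.card ≤ 2 * m ∧ ∀ e ∈ F,
        (κ e = none ∧ ∀ c ∈ Sup F, bd s t c ∈ WW s t X → c e = 0) ∨
        ∃ φ ∈ L, κ e = some φ ∧ ∀ c ∈ Sup F, bd s t c ∈ WW s t X → c e = φ c := by
  classical
  obtain ⟨L, hL, hL'⟩ := h1 V E s t hl F hF (bdry s t X)
  have h2 : ∀ e, ∃ κ : Option ((E → ZMod 2) → ZMod 2), e ∈ F →
      (κ = none ∧ ∀ c ∈ Sup F, bd s t c ∈ WW s t X → c e = 0) ∨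
        ∃ φ ∈ L, κ = some φ ∧ ∀ c ∈ Sup F, bd s t c ∈ WW s t X → c e = φ c := by
    intro e
    by_cases he : e ∈ F
    · rcases hL' e he with h | ⟨φ, hφ, h⟩
      · exact ⟨none, fun _ => Or.inl ⟨rfl, fun c hc hb => h c hc fun v hv => ww_apply hb hv⟩⟩
      · exact ⟨some φ, fun _ => Or.inr ⟨φ, hφ, rfl, fun c hc hb => h c hc fun v hv =>
          ww_apply hb hv⟩⟩
    · exact ⟨none, fun h => absurd h he⟩
  choose κ hκ using h2
  exact ⟨L, κ, hL.trans (Nat.mul_le_mul_left 2 hX), hκ⟩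

lemma wt_nonneg {w : E → ℝ} (hw : ∀ e, 0 ≤ w e) (c : E → ZMod 2) : 0 ≤ wt w c :=
  Finset.sum_nonneg fun e _ => hw e

end gr

end JN

open JN

theorem join_ (h1 : S_CLS) (h2 : S_GRE) : S_JOIN := by
  classical
  intro V E _ _ _ _ s t hl w hw m X Y hd hX hY hCX hCY
  obtain ⟨SX, FX₀, a1, a2, a3, a4, a5⟩ := hCX
  obtain ⟨SY, FY₀, b1, b2, b3, b4, b5⟩ := hCY
  obtain ⟨FX, a6, a7, a8⟩ := exists_forest _ FX₀ rfl a4
  obtain ⟨FY, b6, b7, b8⟩ := exists_forest _ FY₀ rfl b4
  have a9 : FX ⊆ X := a6.trans a3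
  have b9 : FY ⊆ Y := b6.trans b3
  have hdF : Disjoint FX FY := Finset.disjoint_of_subset_left a9 (Finset.disjoint_of_subset_right b9 hd)
  obtain ⟨LX, κX, c1, c2⟩ := labels h1 hl a7 hX
  obtain ⟨LY, κY, d1, d2⟩ := labels h1 hl b7 hY
  let R : Submodule (ZMod 2) (E → ZMod 2) := Sup (FX ∪ FY) ⊓
    ((WW s t X).comap ((bd s t).comp (rs X)) ⊓ (WW s t Y).comap ((bd s t).comp (rs Y)))
  have hR : ∀ c, c ∈ R ↔ c ∈ Sup (FX ∪ FY) ∧ bd s t (rs X c) ∈ WW s t X ∧
      bd s t (rs Y c) ∈ WW s t Y := fun c => Iff.rfl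
  let κ : E → Option (((E → ZMod 2) → ZMod 2) ⊕ ((E → ZMod 2) → ZMod 2)) := fun e =>
    if e ∈ FX then (κX e).map Sum.inl else (κY e).map Sum.inr
  have hκ1 : ∀ e, e ∈ FX → κ e = (κX e).map Sum.inl := fun e he => if_pos he
  have hκ2 : ∀ e, e ∈ FY → κ e = (κY e).map Sum.inr := fun e he =>
    if_neg (Finset.disjoint_right.mp hdF he)
  let Λ : Finset (Option (((E → ZMod 2) → ZMod 2) ⊕ ((E → ZMod 2) → ZMod 2))) :=
    LX.image (fun φ => some (Sum.inl φ)) ∪ LY.image (fun φ => some (Sum.inr φ))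
  have hΛ : (Λ.card : ℝ) ≤ 4 * m := by
    have h3 : Λ.card ≤ 4 * m := by
      refine (Finset.card_union_le _ _).trans ?_
      have h4 := (Finset.card_image_le (s := LX) (f := fun φ =>
        (some (Sum.inl φ) : Option (((E → ZMod 2) → ZMod 2) ⊕ ((E → ZMod 2) → ZMod 2))))).trans c1
      have h5 := (Finset.card_image_le (s := LY) (f := fun φ =>
        (some (Sum.inr φ) : Option (((E → ZMod 2) → ZMod 2) ⊕ ((E → ZMod 2) → ZMod 2))))).trans d1
      omega
    exact_mod_cast h3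
  -- values of the elements of `R`
  have e1 : ∀ c ∈ R, ∀ e ∈ FX, (κX e = none ∧ c e = 0) ∨
      ∃ φ ∈ LX, κX e = some φ ∧ c e = φ (rs X c) := by
    intro c hc e he
    obtain ⟨r1, r2, r3⟩ := (hR c).mp hc
    have r4 : rs X c ∈ Sup FX := rs_sub hd b9 r1
    have r5 : rs X c e = c e := rs_pos (a9 he) c
    rcases c2 e he with ⟨h3, h4⟩ | ⟨φ, h3, h4, h5⟩
    · exact Or.inl ⟨h3, r5.symm.trans (h4 _ r4 r2)⟩
    · exact Or.inr ⟨φ, h3, h4, r5.symm.trans (h5 _ r4 r2)⟩
  have e2 : ∀ c ∈ R, ∀ e ∈ FY, (κY e = none ∧ c e = 0) ∨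
      ∃ φ ∈ LY, κY e = some φ ∧ c e = φ (rs Y c) := by
    intro c hc e he
    obtain ⟨r1, r2, r3⟩ := (hR c).mp hc
    have r4 : rs Y c ∈ Sup FY := rs_sub hd.symm a9 (by rwa [Finset.union_comm])
    have r5 : rs Y c e = c e := rs_pos (b9 he) c
    rcases d2 e he with ⟨h3, h4⟩ | ⟨φ, h3, h4, h5⟩
    · exact Or.inl ⟨h3, r5.symm.trans (h4 _ r4 r3)⟩
    · exact Or.inr ⟨φ, h3, h4, r5.symm.trans (h5 _ r4 r3)⟩
  obtain ⟨S', H', g1, g2, g3, g4, g5⟩ := h2 E (V → ZMod 2) _ (bd s t) w hw κ Λ (FX ∪ FY) R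
    (fun c hc => ((hR c).mp hc).1) (fun e he => by
      rcases Finset.mem_union.mp he with he | he
      · rcases c2 e he with ⟨h3, h4⟩ | ⟨φ, h3, h4, h5⟩
        · right
          intro c hc
          rcases e1 c hc e he with h6 | ⟨φ, -, h6, -⟩
          · exact h6.2
          · rw [h3] at h6
            exact absurd h6 (by simp)
        · left
          rw [hκ1 e he, h4]
          exact Finset.mem_union_left _ (Finset.mem_image_of_mem _ h3)
      · rcases d2 e he with ⟨h3, h4⟩ | ⟨φ, h3, h4, h5⟩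
        · right
          intro c hc
          rcases e2 c hc e he with h6 | ⟨φ, -, h6, -⟩
          · exact h6.2
          · rw [h3] at h6
            exact absurd h6 (by simp)
        · left
          rw [hκ2 e he, h4]
          exact Finset.mem_union_right _ (Finset.mem_image_of_mem _ h3)) (fun e he e' he' hee c hc => by
      rcases Finset.mem_union.mp he with he | he <;> rcases Finset.mem_union.mp he' with he' | he'
      · rw [hκ1 e he, hκ1 e' he'] at hee
        rcases e1 c hc e he with ⟨h3, h4⟩ | ⟨φ, -, h3, h4⟩ <;>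
          rcases e1 c hc e' he' with ⟨h5, h6⟩ | ⟨ψ, -, h5, h6⟩
        · rw [h4, h6]
        · rw [h3, h5] at hee
          exact absurd hee (by simp)
        · rw [h3, h5] at hee
          exact absurd hee (by simp)
        · rw [h3, h5] at hee
          have h7 : φ = ψ := by simpa using hee
          rw [h4, h6, h7]
      · rw [hκ1 e he, hκ2 e' he'] at hee
        rcases e1 c hc e he with ⟨h3, h4⟩ | ⟨φ, -, h3, h4⟩ <;>
          rcases e2 c hc e' he' with ⟨h5, h6⟩ | ⟨ψ, -, h5, h6⟩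
        · rw [h4, h6]
        · rw [h3, h5] at hee
          exact absurd hee (by simp)
        · rw [h3, h5] at hee
          exact absurd hee (by simp)
        · rw [h3, h5] at hee
          exact absurd hee (by simp)
      · rw [hκ2 e he, hκ1 e' he'] at hee
        rcases e2 c hc e he with ⟨h3, h4⟩ | ⟨φ, -, h3, h4⟩ <;>
          rcases e1 c hc e' he' with ⟨h5, h6⟩ | ⟨ψ, -, h5, h6⟩
        · rw [h4, h6]
        · rw [h3, h5] at hee
          exact absurd hee (by simp)
        · rw [h3, h5] at hee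
          exact absurd hee (by simp)
        · rw [h3, h5] at hee
          exact absurd hee (by simp)
      · rw [hκ2 e he, hκ2 e' he'] at hee
        rcases e2 c hc e he with ⟨h3, h4⟩ | ⟨φ, -, h3, h4⟩ <;>
          rcases e2 c hc e' he' with ⟨h5, h6⟩ | ⟨ψ, -, h5, h6⟩
        · rw [h4, h6]
        · rw [h3, h5] at hee
          exact absurd hee (by simp)
        · rw [h3, h5] at hee
          exact absurd hee (by simp)
        · rw [h3, h5] at hee
          have h7 : φ = ψ := by simpa using hee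
          rw [h4, h6, h7])
  have hH : FX ∪ FY ⊆ X ∪ Y := Finset.union_subset_union a9 b9
  -- elements of `R` with given boundaries of the parts
  have key : ∀ c ∈ Sup (X ∪ Y), bd s t c ∈ (Sup (X ∪ Y)ᶜ).map (bd s t) → ∃ r ∈ R,
      bd s t (rs X r) = bd s t (rs X c) ∧ bd s t (rs Y r) = bd s t (rs Y c) ∧
        bd s t r = bd s t c := by
    intro c hc hb
    have k1 := part_mem hd hc hb
    have k2 := part_mem (X := Y) (Y := X) hd.symm (c := c) (by rwa [Finset.union_comm])
      (by rwa [Finset.union_comm])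
    obtain ⟨x, hx, hx'⟩ := a8 k1
    obtain ⟨y, hy, hy'⟩ := b8 k2
    have x1 : x ∈ Sup X := sup_mono a9 hx
    have y1 : y ∈ Sup Y := sup_mono b9 hy
    have r1 : rs X (x + y) = x := by
      rw [map_add, rs_eq x1, rs_zero hd y1, add_zero]
    have r2 : rs Y (x + y) = y := by
      rw [map_add, rs_eq y1, rs_zero hd.symm x1, zero_add]
    refine ⟨x + y, (hR _).mpr ⟨Submodule.add_mem _ (sup_mono Finset.subset_union_left hx)
      (sup_mono Finset.subset_union_right hy), ?_, ?_⟩, ?_, ?_, ?_⟩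
    · rw [r1, hx']
      exact k1
    · rw [r2, hy']
      exact k2
    · rw [r1, hx']
    · rw [r2, hy']
    · rw [map_add, hx', hy', ← map_add, rs_add hd hc]
  refine ⟨SX ∪ SY ∪ S', H', ?_, ?_, g3.trans hH, ?_, ?_⟩
  · intro c hc
    rcases Finset.mem_union.mp hc with hc | hc
    · rcases Finset.mem_union.mp hc with hc | hc
      · exact ⟨sup_mono Finset.subset_union_left (a1 c hc).1, (a1 c hc).2⟩
      · exact ⟨sup_mono Finset.subset_union_right (b1 c hc).1, (b1 c hc).2⟩
    · exact ⟨sup_mono hH ((hR c).mp (g1 c hc).1).1, (g1 c hc).2⟩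
  · intro c hc hb
    obtain ⟨r, hr, k1, k2, k3⟩ := key c hc (by
      rw [hb]
      exact Submodule.zero_mem _)
    have m1 : (SX : Set (E → ZMod 2)) ⊆ ((SX ∪ SY ∪ S' : Finset (E → ZMod 2)) : Set _) := by
      intro x hx
      exact Finset.mem_union_left _ (Finset.mem_union_left _ hx)
    have m2 : (SY : Set (E → ZMod 2)) ⊆ ((SX ∪ SY ∪ S' : Finset (E → ZMod 2)) : Set _) := by
      intro x hx
      exact Finset.mem_union_left _ (Finset.mem_union_right _ hx)
    have m3 : (S' : Set (E → ZMod 2)) ⊆ ((SX ∪ SY ∪ S' : Finset (E → ZMod 2)) : Set _) := by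
      intro x hx
      exact Finset.mem_union_right _ hx
    have n1 : rs X c - rs X r ∈ Submodule.span (ZMod 2) (SX : Set (E → ZMod 2)) := by
      refine a2 _ (Submodule.sub_mem _ (rs_mem X c) (rs_mem X r)) ?_
      rw [map_sub, k1, sub_self]
    have n2 : rs Y c - rs Y r ∈ Submodule.span (ZMod 2) (SY : Set (E → ZMod 2)) := by
      refine b2 _ (Submodule.sub_mem _ (rs_mem Y c) (rs_mem Y r)) ?_
      rw [map_sub, k2, sub_self]
    have n3 : r ∈ Submodule.span (ZMod 2) (S' : Set (E → ZMod 2)) := g2 r hr (k3.trans hb)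
    have n4 : c = (rs X c - rs X r) + (rs Y c - rs Y r) + r := by
      have q1 := rs_add hd hc
      have q2 := rs_add hd (sup_mono hH ((hR r).mp hr).1)
      calc c = (rs X c + rs Y c) - (rs X r + rs Y r) + r := by rw [q1, q2, sub_add_cancel]
        _ = _ := by abel
    rw [n4]
    exact Submodule.add_mem _ (Submodule.add_mem _ (Submodule.span_mono m1 n1)
      (Submodule.span_mono m2 n2)) (Submodule.span_mono m3 n3)
  · rintro a ⟨⟨c, hc, rfl⟩, hb⟩
    obtain ⟨r, hr, -, -, k3⟩ := key c hc hb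
    obtain ⟨c', -, h3, h4⟩ := g4 r hr
    exact ⟨c', h3, h4.trans k3⟩
  · have p1 : ∑ c ∈ SX ∪ SY ∪ S', wt w c ≤ ∑ c ∈ SX, wt w c + ∑ c ∈ SY, wt w c
        + ∑ c ∈ S', wt w c := by
      have q1 := Finset.sum_union_inter (s₁ := SX ∪ SY) (s₂ := S') (f := fun c => wt w c)
      have q2 := Finset.sum_union_inter (s₁ := SX) (s₂ := SY) (f := fun c => wt w c)
      have q3 : 0 ≤ ∑ c ∈ (SX ∪ SY) ∩ S', wt w c := Finset.sum_nonneg fun c _ => wt_nonneg hw c
      have q4 : 0 ≤ ∑ c ∈ SX ∩ SY, wt w c := Finset.sum_nonneg fun c _ => wt_nonneg hw c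
      linarith
    have p2 : ∑ e ∈ X ∪ Y, w e = ∑ e ∈ X, w e + ∑ e ∈ Y, w e := Finset.sum_union hd
    have p3 : ∑ e ∈ FX ∪ FY, w e = ∑ e ∈ FX, w e + ∑ e ∈ FY, w e := Finset.sum_union hdF
    have p4 : ∑ e ∈ FX, w e ≤ ∑ e ∈ FX₀, w e :=
      Finset.sum_le_sum_of_subset_of_nonneg a6 fun e _ _ => hw e
    have p5 : ∑ e ∈ FY, w e ≤ ∑ e ∈ FY₀, w e :=
      Finset.sum_le_sum_of_subset_of_nonneg b6 fun e _ _ => hw e
    have p6 : ∑ e ∈ H', w e ≤ ∑ e ∈ FX ∪ FY, w e :=
      Finset.sum_le_sum_of_subset_of_nonneg g3 fun e _ _ => hw e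
    have hm : (0 : ℝ) ≤ 4 * m := by positivity
    have p7 : (Λ.card : ℝ) * (∑ e ∈ FX ∪ FY, w e - ∑ e ∈ H', w e)
        ≤ 4 * m * (∑ e ∈ FX ∪ FY, w e - ∑ e ∈ H', w e) :=
      mul_le_mul_of_nonneg_right hΛ (by linarith)
    have p8 := mul_le_mul_of_nonneg_left p4 hm
    have p9 := mul_le_mul_of_nonneg_left p5 hm
    rw [p2]
    rw [p3] at p7 g5
    nlinarith [p1, p7, p8, p9, a5, b5, g5]

end Pool.Agent.K9h72.BN
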