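import Pool.Agent.K9h72.BN.Stm

set_option autoImplicit false

namespace Pool.Agent.K9h72.BN

open Finset

section

variable {V E : Type} [Fintype V] [Fintype E] [DecidableEq V] [DecidableEq E]

theorem mem_Sup {X : Finset E} {c : E → ZMod 2} : c ∈ Sup X ↔ ∀ e, e ∉ X → c e = 0 := Iff.rfl

theorem zmod2_cases (a : ZMod 2) : a = 0 ∨ a = 1 := by
  revert a; decide

theorem zmod2_add_self (a : ZMod 2) : a + a = 0 := by
  revert a; decide

/-- a set of edges which realises the boundaries in `W` contains a forest which does -/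
theorem join_forest (s t : E → V) (W : Submodule (ZMod 2) (V → ZMod 2)) (F : Finset E)
    (h : W ≤ (Sup F).map (bd s t)) :
    ∃ F' ⊆ F, Forest s t F' ∧ W ≤ (Sup F').map (bd s t) := by
  induction F using Finset.strongInduction with
  | H F ih =>
    by_cases hF : Forest s t F
    · exact ⟨F, subset_rfl, hF, h⟩
    · unfold Forest at hF
      push Not at hF
      obtain ⟨c, hc, hb, hne⟩ := hF
      obtain ⟨e, he⟩ : ∃ e, c e ≠ 0 := by
        by_contra hcon
        push Not at hcon
        exact hne (funext hcon)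
      have he1 : c e = 1 := (zmod2_cases (c e)).resolve_left he
      have heF : e ∈ F := by
        by_contra hcon
        exact he (hc e hcon)
      have h' : W ≤ (Sup (F.erase e)).map (bd s t) := by
        intro w hw
        obtain ⟨d, hd, rfl⟩ := h hw
        rcases zmod2_cases (d e) with h0 | h1
        · refine ⟨d, fun x hx => ?_, rfl⟩
          by_cases hxe : x = e
          · rw [hxe]; exact h0
          · exact hd x (fun hxF => hx (Finset.mem_erase.2 ⟨hxe, hxF⟩))
        · refine ⟨d + c, fun x hx => ?_, ?_⟩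
          · by_cases hxe : x = e
            · rw [hxe, Pi.add_apply, h1, he1]; exact zmod2_add_self 1
            · have hxF : x ∉ F := fun hxF => hx (Finset.mem_erase.2 ⟨hxe, hxF⟩)
              rw [Pi.add_apply, hd x hxF, hc x hxF, add_zero]
          · rw [map_add, hb, add_zero]
      obtain ⟨F', h1, h2, h3⟩ := ih (F.erase e) (Finset.erase_ssubset heF) h'
      exact ⟨F', h1.trans (Finset.erase_subset e F), h2, h3⟩

theorem bd_apply (s t : E → V) (c : E → ZMod 2) (v : V) :
    bd s t c v = ∑ e, c e * inc s t e v := rfl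

/-- the boundary of a chain in `X` is supported in the ends of `X` -/
theorem bd_supp {s t : E → V} {X : Finset E} {c : E → ZMod 2} (hc : c ∈ Sup X) {v : V}
    (hv : v ∉ touch s t X) : bd s t c v = 0 := by
  rw [bd_apply]
  refine Finset.sum_eq_zero fun e _ => ?_
  by_cases he : e ∈ X
  · have h1 : ¬ (s e = v) := fun h => hv (by
      simp only [touch, mem_filter, mem_univ, true_and]; exact ⟨e, he, Or.inl h⟩)
    have h2 : ¬ (t e = v) := fun h => hv (by
      simp only [touch, mem_filter, mem_univ, true_and]; exact ⟨e, he, Or.inr h⟩)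
    rw [inc, if_neg h1, if_neg h2, add_zero, mul_zero]
  · rw [hc e he, zero_mul]

/-- elements of `WW X` are supported in `bdry X` -/
theorem WW_supp {s t : E → V} {X : Finset E} {w : V → ZMod 2} (hw : w ∈ WW s t X) {v : V}
    (hv : v ∉ bdry s t X) : w v = 0 := by
  obtain ⟨⟨c, hc, h1⟩, ⟨d, hd, h2⟩⟩ := hw
  have : v ∉ touch s t X ∨ v ∉ touch s t Xᶜ := by
    by_contra hcon
    push Not at hcon
    exact hv (Finset.mem_inter.2 hcon)
  rcases this with h | h
  · rw [← h1]; exact bd_supp hc h
  · rw [← h2]; exact bd_supp hd h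

/-- the restriction of a chain to `X` -/
def res (X : Finset E) : (E → ZMod 2) →ₗ[ZMod 2] (E → ZMod 2) where
  toFun c e := if e ∈ X then c e else 0
  map_add' c d := by
    funext e
    by_cases he : e ∈ X <;> simp [he]
  map_smul' a c := by
    funext e
    by_cases he : e ∈ X <;> simp [he]

theorem res_apply (X : Finset E) (c : E → ZMod 2) (e : E) : res X c e = if e ∈ X then c e else 0 :=
  rfl

theorem res_mem (X : Finset E) (c : E → ZMod 2) : res X c ∈ Sup X := by
  intro e he
  rw [res_apply, if_neg he]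

theorem res_of_mem {X : Finset E} {c : E → ZMod 2} (hc : c ∈ Sup X) : res X c = c := by
  funext e
  by_cases he : e ∈ X
  · rw [res_apply, if_pos he]
  · rw [res_apply, if_neg he, hc e he]

theorem res_of_disj {X Y : Finset E} (h : Disjoint X Y) {c : E → ZMod 2} (hc : c ∈ Sup Y) :
    res X c = 0 := by
  funext e
  by_cases he : e ∈ X
  · rw [res_apply, if_pos he]
    exact hc e (Finset.disjoint_left.1 h he)
  · rw [res_apply, if_neg he]; rfl

theorem Sup_mono {X Y : Finset E} (h : X ⊆ Y) : Sup X ≤ Sup Y :=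
  fun _ hc e he => hc e (fun hx => he (h hx))

theorem res_add {X Y : Finset E} (h : Disjoint X Y) {c : E → ZMod 2} (hc : c ∈ Sup (X ∪ Y)) :
    res X c + res Y c = c := by
  funext e
  rw [Pi.add_apply, res_apply, res_apply]
  by_cases hx : e ∈ X
  · have hy : e ∉ Y := Finset.disjoint_left.1 h hx
    rw [if_pos hx, if_neg hy, add_zero]
  · by_cases hy : e ∈ Y
    · rw [if_neg hx, if_pos hy, zero_add]
    · rw [if_neg hx, if_neg hy, add_zero]
      exact (hc e (by simp [hx, hy])).symm

/-- if `bd c ∈ WW (X ∪ Y)` with `c` in `X ∪ Y` then `bd (res X c) ∈ WW X` -/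
theorem ww_split {s t : E → V} {X Y : Finset E} (h : Disjoint X Y) {c : E → ZMod 2}
    (hc : c ∈ Sup (X ∪ Y)) (hw : bd s t c ∈ WW s t (X ∪ Y)) : bd s t (res X c) ∈ WW s t X := by
  refine ⟨⟨res X c, res_mem X c, rfl⟩, ?_⟩
  obtain ⟨-, ⟨d, hd, h2⟩⟩ := hw
  refine ⟨d + res Y c, ?_, ?_⟩
  · intro e he
    have he' : e ∈ X := by simpa using he
    have h1 : d e = 0 := hd e (by simp [he'])
    rw [Pi.add_apply, h1, res_apply, if_neg (Finset.disjoint_left.1 h he'), add_zero]
  · rw [map_add, h2]
    have h3 : bd s t c = bd s t (res X c) + bd s t (res Y c) := by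
      rw [← map_add, res_add h hc]
    rw [h3, add_assoc]
    have h4 : bd s t (res Y c) + bd s t (res Y c) = 0 := by
      funext v
      exact zmod2_add_self _
    rw [h4, add_zero]

theorem ww_split' {s t : E → V} {X Y : Finset E} (h : Disjoint X Y) {c : E → ZMod 2}
    (hc : c ∈ Sup (X ∪ Y)) (hw : bd s t c ∈ WW s t (X ∪ Y)) : bd s t (res Y c) ∈ WW s t Y := by
  rw [Finset.union_comm] at hc hw
  exact ww_split h.symm hc hw

end

end Pool.Agent.K9h72.BN
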