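import Pool.Agent.K9h72.BN.JoinA

set_option autoImplicit false

namespace Pool.Agent.K9h72.BN

open Finset

section

variable {V E : Type} [Fintype V] [Fintype E] [DecidableEq V] [DecidableEq E]

theorem wt_nonneg {w : E → ℝ} (hw : ∀ e, 0 ≤ w e) (c : E → ZMod 2) : 0 ≤ wt w c :=
  Finset.sum_nonneg fun e _ => hw e

/-- the labels of the edges of a forest -/
theorem labels_one (h1 : S_CLS) (s t : E → V) (hst : ∀ e, s e ≠ t e) {F X : Finset E}
    (hF : Forest s t F) : ∃ (L : Finset ((E → ZMod 2) → ZMod 2))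
      (κ : E → Option ((E → ZMod 2) → ZMod 2)), L.card ≤ 2 * (bdry s t X).card ∧
      (∀ e ∈ F, (∃ φ ∈ L, κ e = some φ ∧
          ∀ c ∈ Sup F, bd s t c ∈ WW s t X → c e = φ c) ∨
        (κ e = none ∧ ∀ c ∈ Sup F, bd s t c ∈ WW s t X → c e = 0)) := by
  classical
  obtain ⟨L, hL, hc⟩ := h1 V E s t hst F hF (bdry s t X)
  refine ⟨L, fun e => if h : ∃ φ ∈ L, ∀ c ∈ Sup F, bd s t c ∈ WW s t X → c e = φ c
    then some h.choose else none, hL, fun e he => ?_⟩
  by_cases h : ∃ φ ∈ L, ∀ c ∈ Sup F, bd s t c ∈ WW s t X → c e = φ c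
  · left
    refine ⟨h.choose, h.choose_spec.1, ?_, h.choose_spec.2⟩
    simp only [dif_pos h]
  · right
    refine ⟨by simp only [dif_neg h], ?_⟩
    rcases hc e he with h2 | ⟨φ, hφ, h2⟩
    · exact fun c hc hb => h2 c hc (fun v hv => WW_supp hb hv)
    · exact absurd ⟨φ, hφ, fun c hc hb => h2 c hc (fun v hv => WW_supp hb hv)⟩ h

theorem cost_forest {s t : E → V} {K : ℝ} (hK : 0 ≤ K) {w : E → ℝ} (hw : ∀ e, 0 ≤ w e)
    {X : Finset E} (h : Cost s t K w X) :
    ∃ (S : Finset (E → ZMod 2)) (F : Finset E), (∀ c ∈ S, c ∈ Sup X ∧ bd s t c = 0) ∧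
    (∀ c ∈ Sup X, bd s t c = 0 → c ∈ Submodule.span (ZMod 2) (S : Set (E → ZMod 2))) ∧ F ⊆ X ∧
    Forest s t F ∧
    WW s t X ≤ (Sup F).map (bd s t) ∧ ∑ c ∈ S, wt w c + K * ∑ e ∈ F, w e ≤ K * ∑ e ∈ X, w e := by
  obtain ⟨S, F, h1, h2, h3, h4, h5⟩ := h
  obtain ⟨F', h6, h7, h8⟩ := join_forest s t (WW s t X) F h4
  refine ⟨S, F', h1, h2, h6.trans h3, h7, h8, le_trans ?_ h5⟩
  have : ∑ e ∈ F', w e ≤ ∑ e ∈ F, w e :=
    Finset.sum_le_sum_of_subset_of_nonneg h6 fun e _ _ => hw e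
  have := mul_le_mul_of_nonneg_left this hK
  linarith

end

theorem join_ (h1 : S_CLS) (h2 : S_GRE) : S_JOIN := by
  classical
  intro V E _ _ _ _ s t hst w hw m X Y hXY hmX hmY hX hY
  have hK : (0 : ℝ) ≤ 4 * (m : ℝ) := by positivity
  obtain ⟨SX, FX, x1, x2, x3, x4, x5, x6⟩ := cost_forest hK hw hX
  obtain ⟨SY, FY, y1, y2, y3, y4, y5, y6⟩ := cost_forest hK hw hY
  obtain ⟨LX, κX, lx1, lx2⟩ := labels_one h1 s t hst (X := X) x4
  obtain ⟨LY, κY, ly1, ly2⟩ := labels_one h1 s t hst (X := Y) y4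
  -- the space
  let R : Submodule (ZMod 2) (E → ZMod 2) := Sup (FX ∪ FY) ⊓
    ((WW s t X).comap ((bd s t).comp (res X)) ⊓ (WW s t Y).comap ((bd s t).comp (res Y)))
  have hR : ∀ c, c ∈ R ↔ c ∈ Sup (FX ∪ FY) ∧ bd s t (res X c) ∈ WW s t X ∧
      bd s t (res Y c) ∈ WW s t Y := fun c => Iff.rfl
  have hHXY : FX ∪ FY ⊆ X ∪ Y := Finset.union_subset_union x3 y3
  have hdX : ∀ e, e ∈ X → e ∉ Y := fun e h => Finset.disjoint_left.1 hXY h
  have resX : ∀ c ∈ R, res X c ∈ Sup FX := by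
    intro c hc e he
    rw [res_apply]
    by_cases hx : e ∈ X
    · rw [if_pos hx]
      exact ((hR c).1 hc).1 e (fun h => by
        rcases Finset.mem_union.1 h with h | h
        · exact he h
        · exact hdX e hx (y3 h))
    · rw [if_neg hx]
  have resY : ∀ c ∈ R, res Y c ∈ Sup FY := by
    intro c hc e he
    rw [res_apply]
    by_cases hx : e ∈ Y
    · rw [if_pos hx]
      exact ((hR c).1 hc).1 e (fun h => by
        rcases Finset.mem_union.1 h with h | h
        · exact hdX e (x3 h) hx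
        · exact he h)
    · rw [if_neg hx]
  have eX : ∀ c : E → ZMod 2, ∀ e ∈ FX, res X c e = c e := fun c e he => by
    rw [res_apply, if_pos (x3 he)]
  have eY : ∀ c : E → ZMod 2, ∀ e ∈ FY, res Y c e = c e := fun c e he => by
    rw [res_apply, if_pos (y3 he)]
  -- the labels
  let Φ := (E → ZMod 2) → ZMod 2
  let κ : E → Option (Φ ⊕ Φ) := fun e =>
    if e ∈ FX then (κX e).map Sum.inl else (κY e).map Sum.inr
  let Λ : Finset (Option (Φ ⊕ Φ)) :=
    LX.image (fun φ => some (Sum.inl φ)) ∪ LY.image (fun φ => some (Sum.inr φ))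
  have hΛ : Λ.card ≤ 4 * m := by
    have a1 : (LX.image (fun φ => (some (Sum.inl φ) : Option (Φ ⊕ Φ)))).card ≤ LX.card :=
      Finset.card_image_le
    have a2 : (LY.image (fun φ => (some (Sum.inr φ) : Option (Φ ⊕ Φ)))).card ≤ LY.card :=
      Finset.card_image_le
    have a3 := Finset.card_union_le (LX.image (fun φ => (some (Sum.inl φ) : Option (Φ ⊕ Φ))))
      (LY.image (fun φ => (some (Sum.inr φ) : Option (Φ ⊕ Φ))))
    have : Λ.card = (LX.image (fun φ => (some (Sum.inl φ) : Option (Φ ⊕ Φ))) ∪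
      LY.image (fun φ => (some (Sum.inr φ) : Option (Φ ⊕ Φ)))).card := rfl
    omega
  -- description of the labels
  have key : ∀ e ∈ FX ∪ FY,
      (∃ φ ∈ LX, κ e = some (Sum.inl φ) ∧ ∀ c ∈ R, c e = φ (res X c)) ∨
      (∃ φ ∈ LY, κ e = some (Sum.inr φ) ∧ ∀ c ∈ R, c e = φ (res Y c)) ∨
      (κ e = none ∧ ∀ c ∈ R, c e = 0) := by
    intro e he
    by_cases hx : e ∈ FX
    · have hk : κ e = (κX e).map Sum.inl := if_pos hx
      rcases lx2 e hx with ⟨φ, hφ, hk2, h3⟩ | ⟨hk2, h3⟩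
      · left
        refine ⟨φ, hφ, by rw [hk, hk2]; rfl, fun c hc => ?_⟩
        rw [← eX c e hx]
        exact h3 _ (resX c hc) ((hR c).1 hc).2.1
      · right; right
        refine ⟨by rw [hk, hk2]; rfl, fun c hc => ?_⟩
        rw [← eX c e hx]
        exact h3 _ (resX c hc) ((hR c).1 hc).2.1
    · have hy : e ∈ FY := (Finset.mem_union.1 he).resolve_left hx
      have hk : κ e = (κY e).map Sum.inr := if_neg hx
      rcases ly2 e hy with ⟨φ, hφ, hk2, h3⟩ | ⟨hk2, h3⟩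
      · right; left
        refine ⟨φ, hφ, by rw [hk, hk2]; rfl, fun c hc => ?_⟩
        rw [← eY c e hy]
        exact h3 _ (resY c hc) ((hR c).1 hc).2.2
      · right; right
        refine ⟨by rw [hk, hk2]; rfl, fun c hc => ?_⟩
        rw [← eY c e hy]
        exact h3 _ (resY c hc) ((hR c).1 hc).2.2
  obtain ⟨S', H', g1, g2, g3, g4, g5⟩ := h2 E (V → ZMod 2) (Option (Φ ⊕ Φ)) (bd s t) w hw κ Λ
    (FX ∪ FY) R inf_le_left
    (by
      intro e he
      rcases key e he with ⟨φ, hφ, hk, -⟩ | ⟨φ, hφ, hk, -⟩ | ⟨-, h3⟩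
      · left
        rw [hk]
        exact Finset.mem_union_left _ (Finset.mem_image_of_mem _ hφ)
      · left
        rw [hk]
        exact Finset.mem_union_right _ (Finset.mem_image_of_mem _ hφ)
      · exact Or.inr h3)
    (by
      intro e he e' he' hk c hc
      rcases key e he with ⟨φ, hφ, hk1, h3⟩ | ⟨φ, hφ, hk1, h3⟩ | ⟨hk1, h3⟩ <;>
        rcases key e' he' with ⟨ψ, hψ, hk2, h4⟩ | ⟨ψ, hψ, hk2, h4⟩ | ⟨hk2, h4⟩ <;>
        rw [hk1, hk2] at hk
      · have : φ = ψ := Sum.inl_injective (Option.some_injective _ hk)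
        rw [h3 c hc, h4 c hc, this]
      · exact absurd (Option.some_injective _ hk) (by simp)
      · exact absurd hk (by simp)
      · exact absurd (Option.some_injective _ hk) (by simp)
      · have : φ = ψ := Sum.inr_injective (Option.some_injective _ hk)
        rw [h3 c hc, h4 c hc, this]
      · exact absurd hk (by simp)
      · exact absurd hk (by simp)
      · exact absurd hk (by simp)
      · rw [h3 c hc, h4 c hc])
  -- chains of `X ∪ Y` with boundary in `WW (X ∪ Y)`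
  have rep : ∀ c ∈ Sup (X ∪ Y), bd s t c ∈ WW s t (X ∪ Y) → ∃ a ∈ Sup FX, ∃ b ∈ Sup FY,
      bd s t a = bd s t (res X c) ∧ bd s t b = bd s t (res Y c) ∧ a + b ∈ R ∧
      bd s t (a + b) = bd s t c := by
    intro c hc hb
    obtain ⟨a, ha, ha2⟩ := x5 (ww_split hXY hc hb)
    obtain ⟨b, hb1, hb2⟩ := y5 (ww_split' hXY hc hb)
    have raX : res X a = a := res_of_mem (Sup_mono x3 ha)
    have raY : res Y a = 0 := res_of_disj hXY.symm (Sup_mono x3 ha)
    have rbX : res X b = 0 := res_of_disj hXY (Sup_mono y3 hb1)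
    have rbY : res Y b = b := res_of_mem (Sup_mono y3 hb1)
    refine ⟨a, ha, b, hb1, ha2, hb2, ?_, ?_⟩
    · rw [hR]
      refine ⟨(Sup (FX ∪ FY)).add_mem (Sup_mono Finset.subset_union_left ha)
        (Sup_mono Finset.subset_union_right hb1), ?_, ?_⟩
      · rw [map_add, raX, rbX, add_zero, ha2]
        exact ww_split hXY hc hb
      · rw [map_add, raY, rbY, zero_add, hb2]
        exact ww_split' hXY hc hb
    · rw [map_add, ha2, hb2, ← map_add, res_add hXY hc]
  refine ⟨SX ∪ SY ∪ S', H', ?_, ?_, g3.trans hHXY, ?_, ?_⟩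
  · intro c hc
    rcases Finset.mem_union.1 hc with hc | hc
    · rcases Finset.mem_union.1 hc with hc | hc
      · exact ⟨Sup_mono Finset.subset_union_left (x1 c hc).1, (x1 c hc).2⟩
      · exact ⟨Sup_mono Finset.subset_union_right (y1 c hc).1, (y1 c hc).2⟩
    · exact ⟨Sup_mono hHXY ((hR c).1 (g1 c hc).1).1, (g1 c hc).2⟩
  · intro c hc hb
    have hb' : bd s t c ∈ WW s t (X ∪ Y) := by rw [hb]; exact Submodule.zero_mem _
    obtain ⟨a, ha, b, hb1, ha2, hb2, h3, h4⟩ := rep c hc hb'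
    have hr : a + b ∈ Submodule.span (ZMod 2) (S' : Set (E → ZMod 2)) :=
      g2 _ h3 (by rw [h4, hb])
    have hx : res X c - a ∈ Submodule.span (ZMod 2) (SX : Set (E → ZMod 2)) :=
      x2 _ ((Sup X).sub_mem (res_mem X c) (Sup_mono x3 ha)) (by rw [map_sub, ha2, sub_self])
    have hy : res Y c - b ∈ Submodule.span (ZMod 2) (SY : Set (E → ZMod 2)) :=
      y2 _ ((Sup Y).sub_mem (res_mem Y c) (Sup_mono y3 hb1)) (by rw [map_sub, hb2, sub_self])
    have e1 : c = (res X c - a) + (res Y c - b) + (a + b) := by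
      conv_lhs => rw [← res_add hXY hc]
      abel
    rw [e1]
    have m1 : Submodule.span (ZMod 2) (SX : Set (E → ZMod 2)) ≤
        Submodule.span (ZMod 2) ((SX ∪ SY ∪ S' : Finset (E → ZMod 2)) : Set (E → ZMod 2)) :=
      Submodule.span_mono (by
        intro z hz
        simp only [Finset.coe_union, Set.mem_union]
        exact Or.inl (Or.inl hz))
    have m2 : Submodule.span (ZMod 2) (SY : Set (E → ZMod 2)) ≤
        Submodule.span (ZMod 2) ((SX ∪ SY ∪ S' : Finset (E → ZMod 2)) : Set (E → ZMod 2)) :=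
      Submodule.span_mono (by
        intro z hz
        simp only [Finset.coe_union, Set.mem_union]
        exact Or.inl (Or.inr hz))
    have m3 : Submodule.span (ZMod 2) (S' : Set (E → ZMod 2)) ≤
        Submodule.span (ZMod 2) ((SX ∪ SY ∪ S' : Finset (E → ZMod 2)) : Set (E → ZMod 2)) :=
      Submodule.span_mono (by
        intro z hz
        simp only [Finset.coe_union, Set.mem_union]
        exact Or.inr hz)
    exact Submodule.add_mem _ (Submodule.add_mem _ (m1 hx) (m2 hy)) (m3 hr)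
  · rintro v hv
    obtain ⟨c, hc, hc2⟩ := hv.1
    have hv' : bd s t c ∈ WW s t (X ∪ Y) := by rw [hc2]; exact hv
    obtain ⟨a, ha, b, hb1, ha2, hb2, h3, h4⟩ := rep c hc hv'
    obtain ⟨c', -, h5, h6⟩ := g4 _ h3
    exact ⟨c', h5, by rw [h6, h4, hc2]⟩
  · have n0 : ∀ T : Finset (E → ZMod 2), 0 ≤ ∑ c ∈ T, wt w c := fun T =>
      Finset.sum_nonneg fun c _ => wt_nonneg hw c
    have u1 : ∑ c ∈ SX ∪ SY ∪ S', wt w c ≤ ∑ c ∈ SX, wt w c + ∑ c ∈ SY, wt w c +
        ∑ c ∈ S', wt w c := by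
      have a1 := Finset.sum_union_inter (s₁ := SX ∪ SY) (s₂ := S') (f := fun c => wt w c)
      have a2 := Finset.sum_union_inter (s₁ := SX) (s₂ := SY) (f := fun c => wt w c)
      have a3 := n0 ((SX ∪ SY) ∩ S')
      have a4 := n0 (SX ∩ SY)
      linarith
    have u2 : ∑ e ∈ FX ∪ FY, w e = ∑ e ∈ FX, w e + ∑ e ∈ FY, w e :=
      Finset.sum_union (Finset.disjoint_of_subset_left x3 (Finset.disjoint_of_subset_right y3 hXY))
    have u3 : ∑ e ∈ X ∪ Y, w e = ∑ e ∈ X, w e + ∑ e ∈ Y, w e := Finset.sum_union hXY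
    have u4 : ∑ e ∈ H', w e ≤ ∑ e ∈ FX ∪ FY, w e :=
      Finset.sum_le_sum_of_subset_of_nonneg g3 fun e _ _ => hw e
    have u5 : (Λ.card : ℝ) ≤ 4 * (m : ℝ) := by exact_mod_cast hΛ
    have u6 : (4 * (m : ℝ) - Λ.card) * ∑ e ∈ H', w e ≤
        (4 * (m : ℝ) - Λ.card) * ∑ e ∈ FX ∪ FY, w e :=
      mul_le_mul_of_nonneg_left u4 (by linarith)
    rw [u3]
    rw [u2] at u6 g5
    nlinarith

end Pool.Agent.K9h72.BN
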