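import Pool.Agent.K9h72.BN.Stm

/-!
# A nonempty forest has a leaf
-/

set_option autoImplicit false

namespace Pool.Agent.K9h72.BN

open Finset

theorem leaf_card {V E : Type} [Fintype V] [Fintype E] [DecidableEq V] [DecidableEq E] (s t : E → V)
    (F : Finset E) (hF : Forest s t F) (x₀ : V) (hx₀ : x₀ ∈ touch s t F) :
    F.card ≤ ((touch s t F).erase x₀).card := by
  classical
  let ext : (F → ZMod 2) →ₗ[ZMod 2] (E → ZMod 2) :=
    { toFun := fun c e => if h : e ∈ F then c ⟨e, h⟩ else 0
      map_add' := by
        intro c d
        funext e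
        by_cases h : e ∈ F <;> simp [h]
      map_smul' := by
        intro a c
        funext e
        by_cases h : e ∈ F <;> simp [h] }
  let Φ : (F → ZMod 2) →ₗ[ZMod 2] (((touch s t F).erase x₀ : Finset V) → ZMod 2) :=
    (LinearMap.funLeft (ZMod 2) (ZMod 2) (fun v : ((touch s t F).erase x₀ : Finset V) => (v : V))) ∘ₗ
      (bd s t) ∘ₗ ext
  have hinj : Function.Injective Φ := by
    rw [← LinearMap.ker_eq_bot, LinearMap.ker_eq_bot']
    intro c hc
    have hsup : ext c ∈ Sup F := by
      intro e he
      change (if h : e ∈ F then c ⟨e, h⟩ else 0) = 0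
      rw [dif_neg he]
    have h1 : ∀ v, v ∈ (touch s t F).erase x₀ → bd s t (ext c) v = 0 := by
      intro v hv
      exact congrFun hc ⟨v, hv⟩
    have h2 : ∀ v, v ∉ touch s t F → bd s t (ext c) v = 0 := by
      intro v hv
      change ∑ e, (ext c) e * inc s t e v = 0
      apply Finset.sum_eq_zero
      intro e _
      by_cases he : e ∈ F
      · have : inc s t e v = 0 := by
          unfold inc
          have hs : s e ≠ v := by
            intro h
            exact hv (by rw [touch, mem_filter]; exact ⟨mem_univ _, e, he, Or.inl h⟩)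
          have ht : t e ≠ v := by
            intro h
            exact hv (by rw [touch, mem_filter]; exact ⟨mem_univ _, e, he, Or.inr h⟩)
          rw [if_neg hs, if_neg ht, add_zero]
        rw [this, mul_zero]
      · rw [hsup e he, zero_mul]
    have h3 : ∑ v, bd s t (ext c) v = 0 := by
      change ∑ v, ∑ e, (ext c) e * inc s t e v = 0
      rw [Finset.sum_comm]
      apply Finset.sum_eq_zero
      intro e _
      rw [← Finset.mul_sum]
      have : ∑ v, inc s t e v = 0 := by
        unfold inc
        rw [Finset.sum_add_distrib, Finset.sum_ite_eq, Finset.sum_ite_eq]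
        simp only [mem_univ, if_true]
        decide
      rw [this, mul_zero]
    have h4 : bd s t (ext c) x₀ = 0 := by
      rw [Finset.sum_eq_single x₀] at h3
      · exact h3
      · intro v _ hv
        by_cases h : v ∈ touch s t F
        · exact h1 v (mem_erase.2 ⟨hv, h⟩)
        · exact h2 v h
      · intro h
        exact absurd (mem_univ _) h
    have h5 : bd s t (ext c) = 0 := by
      funext v
      by_cases hv : v = x₀
      · rw [hv, h4]; rfl
      · by_cases h : v ∈ touch s t F
        · exact h1 v (mem_erase.2 ⟨hv, h⟩)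
        · exact h2 v h
    have h6 := hF _ hsup h5
    funext e
    have h7 := congrFun h6 (e : E)
    change (if h : (e : E) ∈ F then c ⟨e, h⟩ else 0) = 0 at h7
    rw [dif_pos e.2] at h7
    exact h7
  have h := LinearMap.finrank_le_finrank_of_injective hinj
  rw [Module.finrank_fintype_fun_eq_card, Module.finrank_fintype_fun_eq_card, Fintype.card_coe,
    Fintype.card_coe] at h
  exact h

theorem leaf : S_LEAF := by
  intro V E _ _ _ _ s t hst F hne hF
  by_contra hcon
  push Not at hcon
  obtain ⟨e₀, he₀⟩ := hne
  have hx₀ : s e₀ ∈ touch s t F := by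
    rw [touch, mem_filter]
    exact ⟨mem_univ _, e₀, he₀, Or.inl rfl⟩
  have h1 := leaf_card s t F hF (s e₀) hx₀
  rw [card_erase_of_mem hx₀] at h1
  have hpos : 0 < (touch s t F).card := card_pos.2 ⟨_, hx₀⟩
  -- double counting
  have h2 := Finset.sum_card_bipartiteAbove_eq_sum_card_bipartiteBelow
    (s := F) (t := touch s t F) (fun (e : E) (v : V) => s e = v ∨ t e = v)
  have h3 : ∀ e ∈ F, ((touch s t F).bipartiteAbove (fun (e : E) (v : V) => s e = v ∨ t e = v) e).card
      ≤ 2 := by
    intro e _
    have : (touch s t F).bipartiteAbove (fun (e : E) (v : V) => s e = v ∨ t e = v) e ⊆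
        {s e, t e} := by
      intro v hv
      rw [mem_bipartiteAbove] at hv
      rw [mem_insert, mem_singleton]
      rcases hv.2 with h | h
      · exact Or.inl h.symm
      · exact Or.inr h.symm
    exact (card_le_card this).trans (card_insert_le _ _)
  have h4 : ∀ v ∈ touch s t F, 2 ≤
      (F.bipartiteBelow (fun (e : E) (v : V) => s e = v ∨ t e = v) v).card := by
    intro v hv
    rw [touch, mem_filter] at hv
    obtain ⟨-, e, he, hev⟩ := hv
    obtain ⟨e', he', hne, h5⟩ := hcon e he v hev
    have h6 : s e' = v ∨ t e' = v := by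
      by_cases h : s e' = v
      · exact Or.inl h
      · exact Or.inr (h5 h)
    have hsub : ({e, e'} : Finset E) ⊆
        F.bipartiteBelow (fun (e : E) (v : V) => s e = v ∨ t e = v) v := by
      intro a ha
      rw [mem_insert, mem_singleton] at ha
      rw [mem_bipartiteBelow]
      rcases ha with rfl | rfl
      · exact ⟨he, hev⟩
      · exact ⟨he', h6⟩
    calc 2 = ({e, e'} : Finset E).card := (card_pair (Ne.symm hne)).symm
      _ ≤ _ := card_le_card hsub
  have h5 : (touch s t F).card * 2 ≤ ∑ v ∈ touch s t F,
      (F.bipartiteBelow (fun (e : E) (v : V) => s e = v ∨ t e = v) v).card := by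
    rw [← smul_eq_mul]
    exact Finset.card_nsmul_le_sum _ _ _ h4
  have h6 : ∑ e ∈ F, ((touch s t F).bipartiteAbove (fun (e : E) (v : V) => s e = v ∨ t e = v) e).card
      ≤ F.card * 2 := by
    rw [← smul_eq_mul]
    exact Finset.sum_le_card_nsmul _ _ _ h3
  omega

end Pool.Agent.K9h72.BN
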