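import Pool.Agent.K9h72.BN.Stm

/-!
The leaf POT: a local optimum of the potential `∑_e 2 ^ load e`.
-/

set_option autoImplicit false

namespace Pool.Agent.K9h72.BN

open Finset Module

section pot

variable {E : Type} [Fintype E] [DecidableEq E]

/-- the number of the members of the family which contain `e` -/
noncomputable def load {d : ℕ} (b : Fin d → E → ZMod 2) (e : E) : ℕ :=
  (univ.filter fun i => b i e ≠ 0).card

theorem load_eq {d : ℕ} (b : Fin d → E → ZMod 2) (i : Fin d) (e : E) :
    load b e = (if b i e ≠ 0 then 1 else 0) +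
      ((univ.erase i).filter fun k => b k e ≠ 0).card := by
  classical
  unfold load
  rw [Finset.card_filter, Finset.card_filter,
    ← Finset.add_sum_erase univ (fun k => if b k e ≠ 0 then 1 else 0) (mem_univ i)]

theorem load_update {d : ℕ} (b : Fin d → E → ZMod 2) (i : Fin d) (v : E → ZMod 2) (e : E) :
    load (Function.update b i v) e = (if v e ≠ 0 then 1 else 0) +
      ((univ.erase i).filter fun k => b k e ≠ 0).card := by
  classical
  rw [load_eq _ i, Function.update_self]
  congr 2
  refine Finset.filter_congr fun k hk => ?_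
  rw [Function.update_of_ne (Finset.ne_of_mem_erase hk)]

theorem pow_load_update {d : ℕ} (b : Fin d → E → ZMod 2) (i : Fin d) (v : E → ZMod 2) (e : E) :
    (2 : ℝ) ^ load (Function.update b i v) e ≤ 2 ^ load b e -
      (1 / 2) * (if b i e ≠ 0 then 2 ^ load b e else 0) + (if v e ≠ 0 then 2 ^ load b e else 0) := by
  rw [load_update, load_eq b i]
  set m := ((univ.erase i).filter fun k => b k e ≠ 0).card
  have hm : (0 : ℝ) < 2 ^ m := by positivity
  by_cases h1 : b i e ≠ 0 <;> by_cases h2 : v e ≠ 0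
  · rw [if_pos h1, if_pos h1, if_pos h2, if_pos h2, pow_add]
    linarith
  · rw [if_pos h1, if_pos h1, if_neg h2, if_neg h2, pow_add, pow_add]
    linarith
  · rw [if_neg h1, if_neg h1, if_pos h2, if_pos h2, pow_add, pow_add]
    linarith
  · rw [if_neg h1, if_neg h1, if_neg h2, if_neg h2, pow_add]
    linarith

theorem wt_eq (w : E → ℝ) (c : E → ZMod 2) : wt w c = ∑ e, if c e ≠ 0 then w e else 0 := by
  unfold wt
  rw [Finset.sum_filter]

theorem wt_nonneg {w : E → ℝ} (hw : ∀ e, 0 ≤ w e) (c : E → ZMod 2) : 0 ≤ wt w c :=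
  Finset.sum_nonneg fun e _ => hw e

/-- the potential after an exchange -/
theorem pot_update {d : ℕ} (b : Fin d → E → ZMod 2) (i : Fin d) (v : E → ZMod 2) :
    ∑ e, (2 : ℝ) ^ load (Function.update b i v) e ≤ ∑ e, (2 : ℝ) ^ load b e -
      (1 / 2) * wt (fun e => 2 ^ load b e) (b i) + wt (fun e => 2 ^ load b e) v := by
  rw [wt_eq, wt_eq, Finset.mul_sum, ← Finset.sum_sub_distrib, ← Finset.sum_add_distrib]
  exact Finset.sum_le_sum fun e _ => pow_load_update b i v e

/-- the exchange bijection -/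
theorem exists_perm {C : Type} [AddCommGroup C] [Module (ZMod 2) C] {d : ℕ}
    (b b' : Basis (Fin d) (ZMod 2) C) :
    ∃ σ : Equiv.Perm (Fin d), ∀ j, b.repr (b' j) (σ j) ≠ 0 := by
  classical
  have h1 : (b.toMatrix b').det ≠ 0 := by
    have h2 : b.toMatrix b' * b'.toMatrix b = 1 := b.toMatrix_mul_toMatrix_flip b'
    have h3 := congrArg Matrix.det h2
    rw [Matrix.det_mul, Matrix.det_one] at h3
    intro h4
    rw [h4, zero_mul] at h3
    exact zero_ne_one h3
  rw [Matrix.det_apply] at h1
  obtain ⟨σ, -, hσ⟩ := Finset.exists_ne_zero_of_sum_ne_zero h1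
  refine ⟨σ, fun j h0 => hσ ?_⟩
  rw [Finset.prod_eq_zero (Finset.mem_univ j), smul_zero]
  exact h0

/-- the exchange -/
theorem exists_update {C : Type} [AddCommGroup C] [Module (ZMod 2) C] {d : ℕ}
    (b : Basis (Fin d) (ZMod 2) C) (v : C) (i : Fin d) (hv : b.repr v i ≠ 0) :
    ∃ b2 : Basis (Fin d) (ZMod 2) C, (b2 : Fin d → C) = Function.update b i v := by
  classical
  have hfin : Module.Finite (ZMod 2) C := Module.Finite.of_basis b
  have hcard : Fintype.card (Fin d) = finrank (ZMod 2) C :=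
    (finrank_eq_card_basis b).symm
  set b2 := Function.update (b : Fin d → C) i v with hb2
  have h1 : v ∉ Submodule.span (ZMod 2) (b '' {k | k ≠ i}) := by
    intro h
    rw [b.mem_span_image] at h
    exact h (Finsupp.mem_support_iff.2 hv) rfl
  have h2 : v ∈ Submodule.span (ZMod 2) (insert (b i) (b '' {k | k ≠ i})) := by
    have h3 : insert (b i) (b '' {k | k ≠ i}) = Set.range b := by
      ext z
      constructor
      · rintro (rfl | ⟨k, -, rfl⟩)
        · exact ⟨i, rfl⟩
        · exact ⟨k, rfl⟩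
      · rintro ⟨k, rfl⟩
        by_cases hk : k = i
        · subst hk
          exact Or.inl rfl
        · exact Or.inr ⟨k, hk, rfl⟩
    rw [h3, b.span_eq]
    exact Submodule.mem_top
  have h4 := mem_span_insert_exchange h2 h1
  have hsub : insert v (b '' {k | k ≠ i}) ⊆ Set.range b2 := by
    rintro z (rfl | ⟨k, hk, rfl⟩)
    · exact ⟨i, by rw [hb2, Function.update_self]⟩
    · exact ⟨k, by rw [hb2, Function.update_of_ne hk]⟩
  have hspan : ⊤ ≤ Submodule.span (ZMod 2) (Set.range b2) := by
    rw [← b.span_eq, Submodule.span_le]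
    rintro _ ⟨k, rfl⟩
    by_cases hk : k = i
    · subst hk
      exact Submodule.span_mono hsub h4
    · exact Submodule.subset_span ⟨k, by rw [hb2, Function.update_of_ne hk]⟩
  exact ⟨basisOfTopLeSpanOfCardEqFinrank b2 hspan hcard,
    coe_basisOfTopLeSpanOfCardEqFinrank b2 hspan hcard⟩

/-- a basis in a generating set -/
theorem exists_basis {C : Submodule (ZMod 2) (E → ZMod 2)} {S : Finset (E → ZMod 2)}
    (hS : ∀ c ∈ S, c ∈ C) (hS2 : ∀ c ∈ C, c ∈ Submodule.span (ZMod 2) (S : Set (E → ZMod 2))) :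
    ∃ (b : Basis (Fin (finrank (ZMod 2) C)) (ZMod 2) C), (∀ i, (b i : E → ZMod 2) ∈ S) := by
  classical
  obtain ⟨t, ht, hspan, hli⟩ := exists_linearIndependent (ZMod 2) (S : Set (E → ZMod 2))
  have hspanC : Submodule.span (ZMod 2) (S : Set (E → ZMod 2)) = C :=
    le_antisymm (Submodule.span_le.2 fun c hc => hS c hc) hS2
  have htC : Submodule.span (ZMod 2) (Set.range fun x : t => (x : E → ZMod 2)) = C := by
    rw [Subtype.range_coe, hspan, hspanC]
  let b1 : Basis t (ZMod 2) C :=
    (Basis.span hli).map (LinearEquiv.ofEq _ _ htC)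
  have hb1 : ∀ x : t, (b1 x : E → ZMod 2) = x := by
    intro x
    simp only [b1, Basis.map_apply, LinearEquiv.coe_ofEq_apply]
    exact congrArg Subtype.val (Basis.span_apply hli x)
  have hfint : Fintype t := Fintype.ofFinite t
  have hc : Fintype.card t = finrank (ZMod 2) C := (finrank_eq_card_basis b1).symm
  obtain ⟨ε⟩ : Nonempty (t ≃ Fin (finrank (ZMod 2) C)) :=
    ⟨(Fintype.equivFin t).trans (finCongr hc)⟩
  refine ⟨b1.reindex ε, fun i => ?_⟩
  rw [Basis.reindex_apply, hb1]
  exact ht (ε.symm i).2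

theorem pot : S_POT := by
  classical
  intro E _ _ C K h
  obtain ⟨S0, hS0, hS0', -⟩ := h 0 fun e => le_rfl
  obtain ⟨b0, -⟩ := exists_basis hS0 hS0'
  set d := finrank (ZMod 2) C with hd
  let Φ : Basis (Fin d) (ZMod 2) C → ℕ := fun b => ∑ e, 2 ^ load (fun i => (b i : E → ZMod 2)) e
  have : Nonempty (Basis (Fin d) (ZMod 2) C) := ⟨b0⟩
  obtain ⟨b, hb⟩ : ∃ b : Basis (Fin d) (ZMod 2) C, ∀ b2, Φ b ≤ Φ b2 :=
    ⟨Function.argmin Φ, fun b2 => Function.argmin_le Φ b2⟩
  set f : Fin d → E → ZMod 2 := fun i => (b i : E → ZMod 2) with hf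
  set w : E → ℝ := fun e => 2 ^ load f e with hw
  have hw0 : ∀ e, 0 ≤ w e := fun e => by positivity
  obtain ⟨S, hS, hS', hSw⟩ := h w hw0
  obtain ⟨b', hb'⟩ := exists_basis hS hS'
  obtain ⟨σ, hσ⟩ := exists_perm b b'
  -- the exchange inequality
  have hex : ∀ j, wt w (f (σ j)) ≤ 2 * wt w (b' j : E → ZMod 2) := by
    intro j
    obtain ⟨b2, hb2⟩ := exists_update b (b' j) (σ j) (hσ j)
    have h1 := hb b2
    have h2 : (fun i => (b2 i : E → ZMod 2)) = Function.update f (σ j) (b' j : E → ZMod 2) := by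
      funext i
      rw [hb2]
      by_cases hi : i = σ j
      · subst hi
        rw [Function.update_self, Function.update_self]
      · rw [Function.update_of_ne hi, Function.update_of_ne hi]
    have h3 := pot_update f (σ j) (b' j : E → ZMod 2)
    have h4 : (∑ e, (2 : ℝ) ^ load f e) ≤
        ∑ e, (2 : ℝ) ^ load (Function.update f (σ j) (b' j : E → ZMod 2)) e := by
      have h5 : Φ b ≤ ∑ e, 2 ^ load (Function.update f (σ j) (b' j : E → ZMod 2)) e := by
        rw [← h2]
        exact h1
      exact_mod_cast h5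
    linarith
  -- the sum of the weights
  have hsum1 : ∑ j, wt w (b' j : E → ZMod 2) ≤ K * ∑ e, w e := by
    refine le_trans ?_ hSw
    have hinj : Function.Injective fun j => (b' j : E → ZMod 2) :=
      Subtype.val_injective.comp b'.injective
    rw [← Finset.sum_image (s := univ) (g := fun j => (b' j : E → ZMod 2)) (f := wt w)
      fun x _ y _ hxy => hinj hxy]
    refine Finset.sum_le_sum_of_subset_of_nonneg ?_ fun c _ _ => wt_nonneg hw0 c
    intro c hc
    obtain ⟨j, -, rfl⟩ := Finset.mem_image.1 hc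
    exact hb' j
  have hsum2 : ∑ i, wt w (f i) = ∑ e, (load f e : ℝ) * w e := by
    simp_rw [wt_eq]
    rw [Finset.sum_comm]
    refine Finset.sum_congr rfl fun e _ => ?_
    rw [← Finset.sum_filter, Finset.sum_const, nsmul_eq_mul]
    rfl
  have hsum3 : ∑ i, wt w (f i) ≤ 2 * (K * ∑ e, w e) := by
    rw [← Equiv.sum_comp σ]
    calc ∑ j, wt w (f (σ j)) ≤ ∑ j, 2 * wt w (b' j : E → ZMod 2) :=
          Finset.sum_le_sum fun j _ => hex j
      _ = 2 * ∑ j, wt w (b' j : E → ZMod 2) := by rw [Finset.mul_sum]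
      _ ≤ _ := mul_le_mul_of_nonneg_left hsum1 (by norm_num)
  have hkey : ∑ e, ((load f e : ℝ) - 2 * K) * w e ≤ 0 := by
    have h1 : ∑ e, ((load f e : ℝ) - 2 * K) * w e =
        ∑ e, (load f e : ℝ) * w e - 2 * (K * ∑ e, w e) := by
      rw [Finset.mul_sum, Finset.mul_sum, ← Finset.sum_sub_distrib]
      exact Finset.sum_congr rfl fun e _ => by ring
    rw [h1, ← hsum2]
    linarith
  -- the loads
  have hload : ∀ e, load f e ≤ 2 * K + Nat.log 2 (Fintype.card E) := by
    intro e1
    by_contra hcon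
    push Not at hcon
    obtain ⟨r, hr⟩ : ∃ r, load f e1 = 2 * K + r := ⟨load f e1 - 2 * K, by omega⟩
    have hr1 : Nat.log 2 (Fintype.card E) < r := by omega
    have hE : Fintype.card E < 2 ^ r :=
      Nat.lt_pow_of_log_lt (by norm_num) hr1
    have hterm : ∀ e, -(2 : ℝ) ^ (2 * K) ≤ ((load f e : ℝ) - 2 * K) * w e := by
      intro e
      by_cases hl : 2 * K ≤ load f e
      · have h1 : (0 : ℝ) ≤ (load f e : ℝ) - 2 * K := by
          have : ((2 * K : ℕ) : ℝ) ≤ load f e := by exact_mod_cast hl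
          push_cast at this
          linarith
        have h2 := mul_nonneg h1 (hw0 e)
        have h3 : (0 : ℝ) ≤ 2 ^ (2 * K) := by positivity
        linarith
      · obtain ⟨l, hl'⟩ : ∃ l, 2 * K = load f e + l := ⟨2 * K - load f e, by omega⟩
        have h1 : (2 * K : ℝ) = load f e + l := by exact_mod_cast hl'
        rw [h1, hw]
        simp only
        rw [hl', pow_add]
        have h2 : (l : ℝ) ≤ 2 ^ l := by exact_mod_cast Nat.lt_two_pow_self.le
        have h3 : (0 : ℝ) ≤ 2 ^ load f e := by positivity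
        nlinarith [mul_le_mul_of_nonneg_left h2 h3]
    have h1 : ((load f e1 : ℝ) - 2 * K) * w e1 + ∑ e ∈ univ.erase e1,
        ((load f e : ℝ) - 2 * K) * w e ≤ 0 := by
      have := Finset.add_sum_erase univ (fun e => ((load f e : ℝ) - 2 * K) * w e) (mem_univ e1)
      rw [← this] at hkey
      exact hkey
    have h2 : -(((univ.erase e1).card : ℕ) : ℝ) * 2 ^ (2 * K) ≤ ∑ e ∈ univ.erase e1,
        ((load f e : ℝ) - 2 * K) * w e := by
      calc -(((univ.erase e1).card : ℕ) : ℝ) * 2 ^ (2 * K)
          = ∑ _e ∈ univ.erase e1, -(2 : ℝ) ^ (2 * K) := by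
            rw [Finset.sum_const, nsmul_eq_mul]; ring
        _ ≤ _ := Finset.sum_le_sum fun e _ => hterm e
    have h3 : (((univ.erase e1).card : ℕ) : ℝ) ≤ (Fintype.card E : ℝ) - 1 := by
      rw [Finset.card_erase_of_mem (mem_univ e1), Finset.card_univ, Nat.cast_sub
        (Fintype.card_pos_iff.2 ⟨e1⟩), Nat.cast_one]
    have h4 : ((load f e1 : ℝ) - 2 * K) * w e1 = r * (2 ^ (2 * K) * 2 ^ r) := by
      rw [hw]
      simp only
      rw [hr, pow_add]
      push_cast
      ring
    have h5 : (1 : ℝ) ≤ r := by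
      have : 1 ≤ r := by omega
      exact_mod_cast this
    have h6 : (Fintype.card E : ℝ) < 2 ^ r := by exact_mod_cast hE
    have h7 : (0 : ℝ) < 2 ^ (2 * K) := by positivity
    have h8 : (0 : ℝ) < 2 ^ (2 * K) * 2 ^ r := by positivity
    have h9 : (2 : ℝ) ^ (2 * K) * 2 ^ r ≤ r * (2 ^ (2 * K) * 2 ^ r) := by nlinarith
    have h10 : (((univ.erase e1).card : ℕ) : ℝ) * 2 ^ (2 * K) ≤
        ((Fintype.card E : ℝ) - 1) * 2 ^ (2 * K) := mul_le_mul_of_nonneg_right h3 h7.le
    have h11 : ((Fintype.card E : ℝ) - 1) * 2 ^ (2 * K) < 2 ^ r * 2 ^ (2 * K) :=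
      mul_lt_mul_of_pos_right (by linarith) h7
    rw [h4] at h1
    nlinarith
  -- the finset
  have hinj : Function.Injective f := Subtype.val_injective.comp b.injective
  refine ⟨univ.image f, ?_, ?_, fun e => ?_⟩
  · have h1 : LinearIndependent (ZMod 2) f :=
      b.linearIndependent.map' C.subtype (Submodule.ker_subtype C)
    have h2 := h1.linearIndepOn_id
    have h3 : (Set.range f) = ((univ.image f : Finset (E → ZMod 2)) : Set (E → ZMod 2)) := by
      rw [Finset.coe_image, Finset.coe_univ, Set.image_univ]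
    rw [h3] at h2
    exact h2
  · rw [Finset.coe_image, Finset.coe_univ, Set.image_univ]
    have h1 : Set.range f = C.subtype '' Set.range b := by
      rw [← Set.range_comp]
      rfl
    rw [h1, Submodule.span_image, b.span_eq, Submodule.map_top, Submodule.range_subtype]
  · have h1 : ((univ.image f).filter fun c => c e ≠ 0) = (univ.filter fun i => f i e ≠ 0).image f := by
      ext c
      simp only [Finset.mem_filter, Finset.mem_image, Finset.mem_univ, true_and]
      constructor
      · rintro ⟨⟨i, rfl⟩, h⟩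
        exact ⟨i, h, rfl⟩
      · rintro ⟨i, h, rfl⟩
        exact ⟨⟨i, rfl⟩, h⟩
    rw [h1, Finset.card_image_of_injective _ hinj]
    exact hload e

end pot

end Pool.Agent.K9h72.BN
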