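import Pool.Agent.K9h72.BN.Stmb
import Pool.Agent.K9h72.BN.Pot

/-!
The leaf POTB: a local optimum of the potential `∑_e b ^ load e`.
-/

set_option autoImplicit false

namespace Pool.Agent.K9h72.BN

open Finset Module

section potb

variable {E : Type} [Fintype E] [DecidableEq E]

theorem pow_load_updateb {q : ℝ} (hq : 2 ≤ q) {d : ℕ} (b : Fin d → E → ZMod 2) (i : Fin d)
    (v : E → ZMod 2) (e : E) :
    q * q ^ load (Function.update b i v) e ≤ q * q ^ load b e -
      (q - 1) * (if b i e ≠ 0 then q ^ load b e else 0) +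
        (q * (q - 1)) * (if v e ≠ 0 then q ^ load b e else 0) := by
  rw [load_update, load_eq b i]
  set m := ((univ.erase i).filter fun k => b k e ≠ 0).card
  have hm : (0 : ℝ) < q ^ m := by positivity
  by_cases h1 : b i e ≠ 0 <;> by_cases h2 : v e ≠ 0
  · rw [if_pos h1, if_pos h1, if_pos h2, if_pos h2, pow_add, pow_one]
    have h3 : 0 ≤ (q - 1) ^ 2 * (q * q ^ m) := by positivity
    nlinarith
  · rw [if_pos h1, if_pos h1, if_neg h2, if_neg h2, pow_add, pow_add, pow_one, pow_zero]
    nlinarith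
  · rw [if_neg h1, if_neg h1, if_pos h2, if_pos h2, pow_add, pow_add, pow_one, pow_zero]
    nlinarith
  · rw [if_neg h1, if_neg h1, if_neg h2, if_neg h2, pow_add, pow_zero]
    linarith

/-- the potential after an exchange -/
theorem pot_updateb {q : ℝ} (hq : 2 ≤ q) {d : ℕ} (b : Fin d → E → ZMod 2) (i : Fin d)
    (v : E → ZMod 2) :
    q * ∑ e, q ^ load (Function.update b i v) e ≤ q * ∑ e, q ^ load b e -
      (q - 1) * wt (fun e => q ^ load b e) (b i) + (q * (q - 1)) * wt (fun e => q ^ load b e) v := by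
  rw [wt_eq, wt_eq, Finset.mul_sum, Finset.mul_sum, Finset.mul_sum, Finset.mul_sum,
    ← Finset.sum_sub_distrib, ← Finset.sum_add_distrib]
  exact Finset.sum_le_sum fun e _ => pow_load_updateb hq b i v e

theorem potb : S_POTB := by
  classical
  intro q hq2 E _ _ C K h
  have hq : (2 : ℝ) ≤ q := by exact_mod_cast hq2
  have hq0 : (0 : ℝ) < q := by linarith
  obtain ⟨S0, hS0, hS0', -⟩ := h 0 fun e => le_rfl
  obtain ⟨b0, -⟩ := exists_basis hS0 hS0'
  set d := finrank (ZMod 2) C with hd
  let Φ : Basis (Fin d) (ZMod 2) C → ℕ := fun b => ∑ e, q ^ load (fun i => (b i : E → ZMod 2)) e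
  have : Nonempty (Basis (Fin d) (ZMod 2) C) := ⟨b0⟩
  obtain ⟨b, hb⟩ : ∃ b : Basis (Fin d) (ZMod 2) C, ∀ b2, Φ b ≤ Φ b2 :=
    ⟨Function.argmin Φ, fun b2 => Function.argmin_le Φ b2⟩
  set f : Fin d → E → ZMod 2 := fun i => (b i : E → ZMod 2) with hf
  set w : E → ℝ := fun e => (q : ℝ) ^ load f e with hw
  have hw0 : ∀ e, 0 ≤ w e := fun e => by positivity
  obtain ⟨S, hS, hS', hSw⟩ := h w hw0
  obtain ⟨b', hb'⟩ := exists_basis hS hS'
  obtain ⟨σ, hσ⟩ := exists_perm b b'
  -- the exchange inequality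
  have hex : ∀ j, wt w (f (σ j)) ≤ q * wt w (b' j : E → ZMod 2) := by
    intro j
    obtain ⟨b2, hb2⟩ := exists_update b (b' j) (σ j) (hσ j)
    have h1 := hb b2
    have h2 : (fun i => (b2 i : E → ZMod 2)) = Function.update f (σ j) (b' j : E → ZMod 2) := by
      funext i
      rw [hb2]
      by_cases hi : i = σ j
      · subst hi
        rw [Function.update_self, Function.update_self]
      · rw [Function.update_of_ne hi, Function.update_of_ne hi]
    have h3 := pot_updateb hq f (σ j) (b' j : E → ZMod 2)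
    have h4 : (∑ e, (q : ℝ) ^ load f e) ≤
        ∑ e, (q : ℝ) ^ load (Function.update f (σ j) (b' j : E → ZMod 2)) e := by
      have h5 : Φ b ≤ ∑ e, q ^ load (Function.update f (σ j) (b' j : E → ZMod 2)) e := by
        rw [← h2]
        exact h1
      exact_mod_cast h5
    have h6 : (q - 1 : ℝ) * wt w (f (σ j)) ≤ (q - 1 : ℝ) * (q * wt w (b' j : E → ZMod 2)) := by
      have h7 := mul_le_mul_of_nonneg_left h4 hq0.le
      linarith
    exact le_of_mul_le_mul_left h6 (by linarith)
  -- the sum of the weights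
  have hsum1 : ∑ j, wt w (b' j : E → ZMod 2) ≤ K * ∑ e, w e := by
    refine le_trans ?_ hSw
    have hinj : Function.Injective fun j => (b' j : E → ZMod 2) :=
      Subtype.val_injective.comp b'.injective
    rw [← Finset.sum_image (s := univ) (g := fun j => (b' j : E → ZMod 2)) (f := wt w)
      fun x _ y _ hxy => hinj hxy]
    refine Finset.sum_le_sum_of_subset_of_nonneg ?_ fun c _ _ => wt_nonneg hw0 c
    intro c hc
    obtain ⟨j, -, rfl⟩ := Finset.mem_image.1 hc
    exact hb' j
  have hsum2 : ∑ i, wt w (f i) = ∑ e, (load f e : ℝ) * w e := by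
    simp_rw [wt_eq]
    rw [Finset.sum_comm]
    refine Finset.sum_congr rfl fun e _ => ?_
    rw [← Finset.sum_filter, Finset.sum_const, nsmul_eq_mul]
    rfl
  have hsum3 : ∑ i, wt w (f i) ≤ q * (K * ∑ e, w e) := by
    rw [← Equiv.sum_comp σ]
    calc ∑ j, wt w (f (σ j)) ≤ ∑ j, q * wt w (b' j : E → ZMod 2) :=
          Finset.sum_le_sum fun j _ => hex j
      _ = q * ∑ j, wt w (b' j : E → ZMod 2) := by rw [Finset.mul_sum]
      _ ≤ _ := mul_le_mul_of_nonneg_left hsum1 hq0.le
  have hkey : ∑ e, ((load f e : ℝ) - q * K) * w e ≤ 0 := by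
    have h1 : ∑ e, ((load f e : ℝ) - q * K) * w e =
        ∑ e, (load f e : ℝ) * w e - q * (K * ∑ e, w e) := by
      rw [Finset.mul_sum, Finset.mul_sum, ← Finset.sum_sub_distrib]
      exact Finset.sum_congr rfl fun e _ => by ring
    rw [h1, ← hsum2]
    linarith
  -- the loads
  have hload : ∀ e, load f e ≤ q * K + Nat.log q (Fintype.card E) := by
    intro e1
    by_contra hcon
    push Not at hcon
    obtain ⟨r, hr⟩ : ∃ r, load f e1 = q * K + r := ⟨load f e1 - q * K, by omega⟩
    have hr1 : Nat.log q (Fintype.card E) < r := by omega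
    have hE : Fintype.card E < q ^ r :=
      Nat.lt_pow_of_log_lt (by omega) hr1
    have hterm : ∀ e, -(q : ℝ) ^ (q * K) ≤ ((load f e : ℝ) - q * K) * w e := by
      intro e
      by_cases hl : q * K ≤ load f e
      · have h1 : (0 : ℝ) ≤ (load f e : ℝ) - q * K := by
          have : ((q * K : ℕ) : ℝ) ≤ load f e := by exact_mod_cast hl
          push_cast at this
          linarith
        have h2 := mul_nonneg h1 (hw0 e)
        have h3 : (0 : ℝ) ≤ (q : ℝ) ^ (q * K) := by positivity
        linarith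
      · obtain ⟨l, hl'⟩ : ∃ l, q * K = load f e + l := ⟨q * K - load f e, by omega⟩
        have h1 : (q * K : ℝ) = load f e + l := by exact_mod_cast hl'
        rw [h1, hw]
        simp only
        rw [hl', pow_add]
        have h2 : (l : ℝ) ≤ (q : ℝ) ^ l := by
          exact_mod_cast (Nat.lt_pow_self (by omega : 1 < q)).le
        have h3 : (0 : ℝ) ≤ (q : ℝ) ^ load f e := by positivity
        nlinarith [mul_le_mul_of_nonneg_left h2 h3]
    have h1 : ((load f e1 : ℝ) - q * K) * w e1 + ∑ e ∈ univ.erase e1,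
        ((load f e : ℝ) - q * K) * w e ≤ 0 := by
      have := Finset.add_sum_erase univ (fun e => ((load f e : ℝ) - q * K) * w e) (mem_univ e1)
      rw [← this] at hkey
      exact hkey
    have h2 : -(((univ.erase e1).card : ℕ) : ℝ) * (q : ℝ) ^ (q * K) ≤ ∑ e ∈ univ.erase e1,
        ((load f e : ℝ) - q * K) * w e := by
      calc -(((univ.erase e1).card : ℕ) : ℝ) * (q : ℝ) ^ (q * K)
          = ∑ _e ∈ univ.erase e1, -(q : ℝ) ^ (q * K) := by
            rw [Finset.sum_const, nsmul_eq_mul]; ring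
        _ ≤ _ := Finset.sum_le_sum fun e _ => hterm e
    have h3 : (((univ.erase e1).card : ℕ) : ℝ) ≤ (Fintype.card E : ℝ) - 1 := by
      rw [Finset.card_erase_of_mem (mem_univ e1), Finset.card_univ, Nat.cast_sub
        (Fintype.card_pos_iff.2 ⟨e1⟩), Nat.cast_one]
    have h4 : ((load f e1 : ℝ) - q * K) * w e1 = r * ((q : ℝ) ^ (q * K) * (q : ℝ) ^ r) := by
      rw [hw]
      simp only
      rw [hr, pow_add]
      push_cast
      ring
    have h5 : (1 : ℝ) ≤ r := by
      have : 1 ≤ r := by omega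
      exact_mod_cast this
    have h6 : (Fintype.card E : ℝ) < (q : ℝ) ^ r := by exact_mod_cast hE
    have h7 : (0 : ℝ) < (q : ℝ) ^ (q * K) := by positivity
    have h8 : (0 : ℝ) < (q : ℝ) ^ (q * K) * (q : ℝ) ^ r := by positivity
    have h9 : (q : ℝ) ^ (q * K) * (q : ℝ) ^ r ≤ r * ((q : ℝ) ^ (q * K) * (q : ℝ) ^ r) := by
      nlinarith
    have h10 : (((univ.erase e1).card : ℕ) : ℝ) * (q : ℝ) ^ (q * K) ≤
        ((Fintype.card E : ℝ) - 1) * (q : ℝ) ^ (q * K) := mul_le_mul_of_nonneg_right h3 h7.le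
    have h11 : ((Fintype.card E : ℝ) - 1) * (q : ℝ) ^ (q * K) < (q : ℝ) ^ r * (q : ℝ) ^ (q * K) :=
      mul_lt_mul_of_pos_right (by linarith) h7
    rw [h4] at h1
    nlinarith
  -- the finset
  have hinj : Function.Injective f := Subtype.val_injective.comp b.injective
  refine ⟨univ.image f, ?_, ?_, fun e => ?_⟩
  · have h1 : LinearIndependent (ZMod 2) f :=
      b.linearIndependent.map' C.subtype (Submodule.ker_subtype C)
    have h2 := h1.linearIndepOn_id
    have h3 : (Set.range f) = ((univ.image f : Finset (E → ZMod 2)) : Set (E → ZMod 2)) := by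
      rw [Finset.coe_image, Finset.coe_univ, Set.image_univ]
    rw [h3] at h2
    exact h2
  · rw [Finset.coe_image, Finset.coe_univ, Set.image_univ]
    have h1 : Set.range f = C.subtype '' Set.range b := by
      rw [← Set.range_comp]
      rfl
    rw [h1, Submodule.span_image, b.span_eq, Submodule.map_top, Submodule.range_subtype]
  · have h1 : ((univ.image f).filter fun c => c e ≠ 0) = (univ.filter fun i => f i e ≠ 0).image f := by
      ext c
      simp only [Finset.mem_filter, Finset.mem_image, Finset.mem_univ, true_and]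
      constructor
      · rintro ⟨⟨i, rfl⟩, h⟩
        exact ⟨i, h, rfl⟩
      · rintro ⟨i, h, rfl⟩
        exact ⟨⟨i, rfl⟩, h⟩
    rw [h1, Finset.card_image_of_injective _ hinj]
    exact hload e

end potb

end Pool.Agent.K9h72.BN
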