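import Mathlib
import Pool.Agent.K9h72.BN.Stm
import Pool.Agent.R37.Tree

/-!
# Induction along a tree decomposition (leaf TREE)
-/

set_option autoImplicit false
set_option linter.all false

namespace Pool.Agent.K9h72.BN

open Finset Pool.Agent.R37

section tree

variable {ι : Type} {T : SimpleGraph ι} (R : Rooting T)

/-- `x` is below `c` -/
def Dn (c x : ι) : Prop := R.dep c ≤ R.dep x ∧ R.par^[R.dep x - R.dep c] x = c

theorem tree_iter_dep (x : ι) : ∀ k, k ≤ R.dep x → R.dep (R.par^[k] x) = R.dep x - k := by
  intro k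
  induction k with
  | zero => intro _; simp
  | succ k ih =>
    intro hk
    rw [Function.iterate_succ_apply']
    have h1 := ih (by omega)
    have h2 : R.par^[k] x ≠ R.root := R.ne_root_of_dep (by omega)
    have := R.dep_par _ h2
    omega

theorem tree_dn_root (x : ι) : Dn R R.root x := by
  refine ⟨by rw [R.dep_root]; omega, ?_⟩
  apply R.eq_root
  rw [R.dep_root, Nat.sub_zero, tree_iter_dep R x _ le_rfl]
  omega

theorem tree_dn_refl (x : ι) : Dn R x x := ⟨le_rfl, by simp⟩

theorem tree_dn_child {c x : ι} (hc : c ≠ R.root) (h : Dn R c x) : Dn R (R.par c) x := by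
  obtain ⟨h1, h2⟩ := h
  have h3 := R.dep_par c hc
  refine ⟨by omega, ?_⟩
  have e : R.dep x - R.dep (R.par c) = (R.dep x - R.dep c) + 1 := by omega
  rw [e, Function.iterate_succ_apply', h2]

theorem tree_dn_step {i x : ι} (h : Dn R i x) (hx : x ≠ i) :
    ∃ c, c ≠ R.root ∧ R.par c = i ∧ Dn R c x := by
  obtain ⟨h1, h2⟩ := h
  have h3 : R.dep i < R.dep x := by
    by_contra hc
    have e : R.dep x - R.dep i = 0 := by omega
    rw [e] at h2
    exact hx h2
  obtain ⟨k, hk⟩ : ∃ k, R.dep x - R.dep i = k + 1 := ⟨R.dep x - R.dep i - 1, by omega⟩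
  rw [hk, Function.iterate_succ_apply'] at h2
  have h4 := tree_iter_dep R x k (by omega)
  have h5 : R.par^[k] x ≠ R.root := R.ne_root_of_dep (by omega)
  refine ⟨R.par^[k] x, h5, h2, by omega, ?_⟩
  have : R.dep x - R.dep (R.par^[k] x) = k := by omega
  rw [this]

theorem tree_dn_unique {c c' x : ι} (h : Dn R c x) (h' : Dn R c' x) (hd : R.dep c = R.dep c') :
    c = c' := by
  rw [← h.2, ← h'.2, hd]

theorem tree_cross {S : Set ι} (hS : R.Sub S) {c x y : ι} (hx : x ∈ S) (hy : y ∈ S)
    (hcx : Dn R c x) (hcy : ¬ Dn R c y) : c ∈ S ∧ c ≠ R.root ∧ R.par c ∈ S := by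
  obtain ⟨τ, hτ⟩ := hS
  obtain ⟨h1, h2⟩ := hcx
  have h3 := hτ.dep_le x hx
  have h4 := hτ.dep_le y hy
  have hlt : R.dep τ < R.dep c := by
    by_contra hge
    push Not at hge
    apply hcy
    have hxτ := hτ.iter_eq hx
    have hyτ := hτ.iter_eq hy
    refine ⟨by omega, ?_⟩
    have e1 : R.dep x - R.dep c = (R.dep τ - R.dep c) + (R.dep x - R.dep τ) := by omega
    have e2 : R.dep y - R.dep c = (R.dep τ - R.dep c) + (R.dep y - R.dep τ) := by omega
    rw [e1, Function.iterate_add_apply, hxτ] at h2
    rw [e2, Function.iterate_add_apply, hyτ]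
    exact h2
  have h5 := hτ.iter_mem hx (R.dep x - R.dep c) (by omega)
  have h6 := hτ.iter_mem hx (R.dep x - R.dep c + 1) (by omega)
  rw [h2] at h5
  rw [Function.iterate_succ_apply', h2] at h6
  exact ⟨h5.1, R.ne_root_of_dep (by omega), h6.1⟩

end tree

/-- **Induction along a tree decomposition.** -/
theorem tree_ : S_TREE := by
  classical
  intro V E _ _ _ _ s t n T B m hT hconn hcov hB P h0 h1 hU
  obtain ⟨r⟩ := hT.connected.nonempty
  obtain ⟨R, -⟩ := exists_rooting hT r
  choose β hβ using hcov
  have hsub : ∀ v : V, R.Sub {i : Fin n | v ∈ B i} := fun v => Rooting.sub_of_connected (hconn v)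
  obtain ⟨X, hX⟩ : ∃ X : Fin n → Finset E, X = fun i => univ.filter fun e => Dn R i (β e) :=
    ⟨_, rfl⟩
  have hXm : ∀ i e, e ∈ X i ↔ Dn R i (β e) := by
    intro i e
    rw [hX]
    simp
  have hend : ∀ (v : V) (e : E), (s e = v ∨ t e = v) → β e ∈ {i : Fin n | v ∈ B i} := by
    rintro v e (rfl | rfl)
    · exact (hβ e).1
    · exact (hβ e).2
  have hbd : ∀ (i : Fin n) (O : Finset E) (C : Finset (Fin n)), (∀ e ∈ O, β e = i) →
      (∀ c ∈ C, c ≠ R.root ∧ R.par c = i) → (bdry s t (O ∪ C.biUnion X)).card ≤ m := by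
    intro i O C hO hC
    refine (card_le_card ?_).trans (hB i)
    intro v hv
    obtain ⟨hv1, hv2⟩ := mem_inter.1 hv
    obtain ⟨-, e, he, hev⟩ := mem_filter.1 hv1
    obtain ⟨-, e', he', hev'⟩ := mem_filter.1 hv2
    rw [mem_compl, mem_union, not_or] at he'
    have m1 := hend v e hev
    have m2 := hend v e' hev'
    rcases mem_union.1 he with h | h
    · rw [hO e h] at m1
      exact m1
    · obtain ⟨c, hc, hec⟩ := mem_biUnion.1 h
      have h3 : ¬ Dn R c (β e') := by
        intro h4
        exact he'.2 (mem_biUnion.2 ⟨c, hc, (hXm c e').2 h4⟩)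
      have h4 := tree_cross R (hsub v) m1 m2 ((hXm c e).1 hec) h3
      have h5 := h4.2.2
      rw [(hC c hc).2] at h5
      exact h5
  obtain ⟨M, hM⟩ : ∃ M : ℕ, ∀ i, R.dep i ≤ M :=
    ⟨univ.sup R.dep, fun i => Finset.le_sup (f := R.dep) (mem_univ i)⟩
  have hPO : ∀ (i : Fin n) (O : Finset E), (∀ e ∈ O, β e = i) → P O := by
    intro i O
    induction O using Finset.induction_on with
    | empty => intro _; exact h0
    | insert e O he ih =>
      intro hO
      have h2 : insert e O = O ∪ {e} := by
        ext x
        simp [or_comm]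
      have b1 := hbd i O ∅ (fun x hx => hO x (mem_insert_of_mem hx)) (by simp)
      have b2 := hbd i {e} ∅ (fun x hx => by
        rw [mem_singleton.1 hx]
        exact hO e (mem_insert_self _ _)) (by simp)
      rw [biUnion_empty, union_empty] at b1 b2
      rw [h2]
      exact hU _ _ (disjoint_singleton_right.2 he) b1 b2
        (ih fun x hx => hO x (mem_insert_of_mem hx)) (h1 e)
  have hPC : ∀ (i : Fin n) (O : Finset E), (∀ e ∈ O, β e = i) → ∀ C : Finset (Fin n),
      (∀ c ∈ C, c ≠ R.root ∧ R.par c = i) → (∀ c ∈ C, P (X c)) → P (O ∪ C.biUnion X) := by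
    intro i O hO C
    induction C using Finset.induction_on with
    | empty =>
      intro _ _
      rw [biUnion_empty, union_empty]
      exact hPO i O hO
    | insert c C hc ih =>
      intro hC hP
      have h2 : O ∪ (insert c C).biUnion X = (O ∪ C.biUnion X) ∪ X c := by
        rw [biUnion_insert]
        ext x
        simp only [mem_union]
        tauto
      have hC' : ∀ c' ∈ C, c' ≠ R.root ∧ R.par c' = i := fun c' h => hC c' (mem_insert_of_mem h)
      have hcc := hC c (mem_insert_self _ _)
      have hdc := R.dep_par c hcc.1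
      have b1 := hbd i O C hO hC'
      have b2 := hbd i ∅ {c} (by simp) (fun c' h => by rw [mem_singleton.1 h]; exact hcc)
      rw [singleton_biUnion, empty_union] at b2
      rw [h2]
      refine hU _ _ ?_ b1 b2 (ih hC' fun c' h => hP c' (mem_insert_of_mem h))
        (hP c (mem_insert_self _ _))
      rw [disjoint_left]
      intro e he hec
      have h3 := (hXm c e).1 hec
      rcases mem_union.1 he with h | h
      · have h4 := h3.1
        rw [hO e h, ← hcc.2] at h4
        omega
      · obtain ⟨c', hc', hec'⟩ := mem_biUnion.1 h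
        have h4 := (hXm c' e).1 hec'
        have hcc' := hC' c' hc'
        have hdc' := R.dep_par c' hcc'.1
        have h5 : c = c' := by
          apply tree_dn_unique R h3 h4
          rw [← hdc, ← hdc', hcc.2, hcc'.2]
        exact hc (h5 ▸ hc')
  have key : ∀ (k : ℕ) (i : Fin n), M - R.dep i = k → P (X i) := by
    intro k
    induction k using Nat.strong_induction_on with
    | _ k ih =>
      intro i hi
      have h2 : X i = (univ.filter fun e => β e = i) ∪
          (univ.filter fun c => c ≠ R.root ∧ R.par c = i).biUnion X := by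
        ext e
        rw [mem_union, mem_biUnion, hXm]
        constructor
        · intro h
          by_cases hbe : β e = i
          · left
            exact mem_filter.2 ⟨mem_univ _, hbe⟩
          · right
            obtain ⟨c, h3, h4, h5⟩ := tree_dn_step R h hbe
            exact ⟨c, mem_filter.2 ⟨mem_univ _, h3, h4⟩, (hXm c e).2 h5⟩
        · rintro (h | ⟨c, hc, hec⟩)
          · rw [(mem_filter.1 h).2]
            exact tree_dn_refl R i
          · obtain ⟨-, h3, h4⟩ := mem_filter.1 hc
            have h5 := tree_dn_child R h3 ((hXm c e).1 hec)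
            rw [h4] at h5
            exact h5
      rw [h2]
      apply hPC i
      · intro e he
        exact (mem_filter.1 he).2
      · intro c hc
        exact (mem_filter.1 hc).2
      · intro c hc
        obtain ⟨-, h3, h4⟩ := mem_filter.1 hc
        have h5 := R.dep_par c h3
        rw [h4] at h5
        have h6 := hM c
        exact ih (M - R.dep c) (by omega) c rfl
  have hlast := key _ R.root rfl
  have h2 : X R.root = univ := by
    ext e
    simp only [hXm, mem_univ, iff_true]
    exact tree_dn_root R _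
  rw [h2] at hlast
  exact hlast

end Pool.Agent.K9h72.BN
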