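import Pool.Agent.K9h72.BN.Stmb

/-!
# LEAF MOO: the Moore bound for multigraphs
-/

set_option autoImplicit false

namespace Pool.Agent.K9h72.BN

open Finset

namespace MOO_

section

variable {V E : Type} [Fintype V] [Fintype E] [DecidableEq V] [DecidableEq E]

/-- the number of the edges in the support -/
def sc (c : E → ZMod 2) : ℕ := (univ.filter fun e => c e ≠ 0).card

theorem sc_zero : sc (0 : E → ZMod 2) = 0 := by
  simp [sc]

theorem sc_add (c d : E → ZMod 2) : sc (c + d) ≤ sc c + sc d := by
  refine le_trans (card_le_card (t := (univ.filter fun e => c e ≠ 0) ∪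
    (univ.filter fun e => d e ≠ 0)) ?_) (card_union_le _ _)
  intro e he
  rw [mem_filter] at he
  rw [mem_union, mem_filter, mem_filter]
  by_contra hcon
  push Not at hcon
  exact he.2 (by rw [Pi.add_apply, hcon.1 (mem_univ e), hcon.2 (mem_univ e), add_zero])

theorem sc_single (e : E) : sc (Pi.single e 1 : E → ZMod 2) ≤ 1 := by
  refine le_trans (card_le_card (t := {e}) ?_) (by simp)
  intro x hx
  rw [mem_filter] at hx
  rw [mem_singleton]
  by_contra hne
  exact hx.2 (by rw [Pi.single_apply, if_neg hne])

theorem two (a : ZMod 2) : a + a = 0 := by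
  revert a; decide

theorem dbl (f : V → ZMod 2) : f + f = 0 := by
  funext v
  exact two _

theorem bd_single (s t : E → V) (e : E) :
    bd s t (Pi.single e 1) = Pi.single (s e) 1 + Pi.single (t e) 1 := by
  funext v
  show ∑ x, (Pi.single e 1 : E → ZMod 2) x * inc s t x v = _
  rw [Finset.sum_eq_single e]
  · rw [Pi.single_eq_same, one_mul, inc, Pi.add_apply, Pi.single_apply, Pi.single_apply]
    simp only [eq_comm]
  · intro x _ hx
    rw [Pi.single_apply, if_neg hx, zero_mul]
  · exact fun h => absurd (mem_univ e) h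

/-- the layers of the breadth first search -/
structure Lay (s t : E → V) (X : Finset E) (r : V) (j : ℕ) (R L : Finset V) (T : Finset E)
    (p : V → E → ZMod 2) : Prop where
  hLR : L ⊆ R
  hL : L ⊆ touch s t X
  hT : T ⊆ X
  sup : ∀ v ∈ R, p v ∈ Sup T
  bnd : ∀ v ∈ R, bd s t (p v) = Pi.single r 1 + Pi.single v 1
  sz : ∀ v ∈ R, sc (p v) ≤ j
  ends : ∀ e ∈ T, s e ∈ R ∧ t e ∈ R
  deg : ∀ v ∈ L, (T.filter fun e => s e = v ∨ t e = v).card ≤ 1
  big : 2 ^ j ≤ L.card

theorem step (s t : E → V) (X : Finset E) (r : V) (J : ℕ)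
    (hno : ∀ c ∈ Sup X, bd s t c = 0 → sc c ≤ 2 * J → c = 0)
    (hdeg : ∀ v ∈ touch s t X, 3 ≤ (X.filter fun e => s e = v ∨ t e = v).card)
    (j : ℕ) (hj : j + 1 ≤ J) (R L : Finset V) (T : Finset E) (p : V → E → ZMod 2)
    (h : Lay s t X r j R L T p) :
    ∃ (R' L' : Finset V) (T' : Finset E) (p' : V → E → ZMod 2), Lay s t X r (j + 1) R' L' T' p' := by
  classical
  obtain ⟨N, hN⟩ : ∃ N, N = (X \ T).filter fun e => s e ∈ L ∨ t e ∈ L := ⟨_, rfl⟩
  obtain ⟨inn, hinn⟩ : ∃ inn : E → V, inn = fun e => if s e ∈ L then s e else t e := ⟨_, rfl⟩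
  obtain ⟨out, hout⟩ : ∃ out : E → V, out = fun e => if s e ∈ L then t e else s e := ⟨_, rfl⟩
  have hNX : ∀ e ∈ N, e ∈ X ∧ e ∉ T := by
    intro e he
    rw [hN, mem_filter, mem_sdiff] at he
    exact he.1
  have hinnL : ∀ e ∈ N, inn e ∈ L := by
    intro e he
    rw [hN, mem_filter] at he
    rw [hinn]
    show (if s e ∈ L then s e else t e) ∈ L
    split_ifs with h1
    · exact h1
    · exact he.2.resolve_left h1
  have hends : ∀ e v, (s e = v ∨ t e = v) ↔ (inn e = v ∨ out e = v) := by
    intro e v
    rw [hinn, hout]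
    show _ ↔ ((if s e ∈ L then s e else t e) = v ∨ (if s e ∈ L then t e else s e) = v)
    split_ifs
    · rfl
    · exact or_comm
  have hbs : ∀ e, bd s t (Pi.single e 1) = Pi.single (inn e) 1 + Pi.single (out e) 1 := by
    intro e
    rw [bd_single, hinn, hout]
    show _ = (Pi.single (if s e ∈ L then s e else t e) 1 + Pi.single (if s e ∈ L then t e else s e) 1 :
      V → ZMod 2)
    split_ifs
    · rfl
    · exact add_comm _ _
  have hsupX : ∀ v ∈ R, p v ∈ Sup X := fun v hv e he => h.sup v hv e fun h' => he (h.hT h')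
  have hsingX : ∀ e ∈ N, (Pi.single e 1 : E → ZMod 2) ∈ Sup X := by
    intro e he x hx
    rw [Pi.single_apply, if_neg]
    rintro rfl
    exact hx (hNX _ he).1
  -- the outer ends are new
  have hA : ∀ e ∈ N, out e ∉ R := by
    intro e he hR
    have hi := h.hLR (hinnL e he)
    have h0 := hno (p (inn e) + Pi.single e 1 + p (out e))
      ((Sup X).add_mem ((Sup X).add_mem (hsupX _ hi) (hsingX e he)) (hsupX _ hR)) (by
        rw [map_add, map_add, h.bnd _ hi, hbs, h.bnd _ hR]
        have : (Pi.single r 1 + Pi.single (inn e) 1 + (Pi.single (inn e) 1 + Pi.single (out e) 1) +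
            (Pi.single r 1 + Pi.single (out e) 1) : V → ZMod 2) =
            (Pi.single r 1 + Pi.single r 1) + (Pi.single (inn e) 1 + Pi.single (inn e) 1) +
            (Pi.single (out e) 1 + Pi.single (out e) 1) := by abel
        simp only [this, dbl, add_zero]) (by
        have a1 := sc_add (p (inn e) + Pi.single e 1) (p (out e))
        have a2 := sc_add (p (inn e)) (Pi.single e 1)
        have a3 := sc_single e
        have a4 := h.sz _ hi
        have a5 := h.sz _ hR
        omega)
    have h1 := congrFun h0 e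
    rw [Pi.add_apply, Pi.add_apply, h.sup _ hi e (hNX e he).2, h.sup _ hR e (hNX e he).2,
      Pi.single_eq_same, Pi.zero_apply, zero_add, add_zero] at h1
    exact one_ne_zero h1
  have hB : ∀ e ∈ N, ∀ e' ∈ N, out e = out e' → e = e' := by
    intro e he e' he' heq
    by_contra hne
    have hi := h.hLR (hinnL e he)
    have hi' := h.hLR (hinnL e' he')
    have h0 := hno (p (inn e) + Pi.single e 1 + (p (inn e') + Pi.single e' 1))
      ((Sup X).add_mem ((Sup X).add_mem (hsupX _ hi) (hsingX e he))
        ((Sup X).add_mem (hsupX _ hi') (hsingX e' he'))) (by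
        rw [map_add, map_add, map_add, h.bnd _ hi, hbs, h.bnd _ hi', hbs, heq]
        have : (Pi.single r 1 + Pi.single (inn e) 1 + (Pi.single (inn e) 1 + Pi.single (out e') 1) +
            (Pi.single r 1 + Pi.single (inn e') 1 + (Pi.single (inn e') 1 + Pi.single (out e') 1)) :
            V → ZMod 2) =
            (Pi.single r 1 + Pi.single r 1) + (Pi.single (inn e) 1 + Pi.single (inn e) 1) +
            (Pi.single (inn e') 1 + Pi.single (inn e') 1) +
            (Pi.single (out e') 1 + Pi.single (out e') 1) := by abel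
        simp only [this, dbl, add_zero]) (by
        have a1 := sc_add (p (inn e) + Pi.single e 1) (p (inn e') + Pi.single e' 1)
        have a2 := sc_add (p (inn e)) (Pi.single e 1)
        have a2' := sc_add (p (inn e')) (Pi.single e' 1)
        have a3 := sc_single e
        have a3' := sc_single e'
        have a4 := h.sz _ hi
        have a5 := h.sz _ hi'
        omega)
    have h1 := congrFun h0 e
    rw [Pi.add_apply, Pi.add_apply, Pi.add_apply, h.sup _ hi e (hNX e he).2,
      h.sup _ hi' e (hNX e he).2, Pi.single_eq_same, Pi.single_apply, if_neg hne,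
      Pi.zero_apply, zero_add, add_zero, add_zero] at h1
    exact one_ne_zero h1
  -- counting
  have hcard : 2 * L.card ≤ N.card := by
    rw [card_eq_sum_card_fiberwise (f := inn) (s := N) (t := L) (fun e he => hinnL e he), mul_comm,
      ← smul_eq_mul, ← sum_const]
    refine sum_le_sum fun v hv => ?_
    have h3 := hdeg v (h.hL hv)
    have h1 := h.deg v hv
    have hsub : (X.filter fun e => s e = v ∨ t e = v) ⊆
        (T.filter fun e => s e = v ∨ t e = v) ∪ (N.filter fun e => inn e = v) := by
      intro e he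
      rw [mem_filter] at he
      rw [mem_union, mem_filter, mem_filter]
      by_cases heT : e ∈ T
      · exact Or.inl ⟨heT, he.2⟩
      · right
        have heN : e ∈ N := by
          rw [hN, mem_filter, mem_sdiff]
          refine ⟨⟨he.1, heT⟩, ?_⟩
          rcases he.2 with h' | h'
          · exact Or.inl (h' ▸ hv)
          · exact Or.inr (h' ▸ hv)
        refine ⟨heN, ?_⟩
        rcases (hends e v).1 he.2 with h' | h'
        · exact h'
        · exact absurd (h.hLR hv) (h' ▸ hA e heN)
    have h2 := (card_le_card hsub).trans (card_union_le _ _)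
    omega
  have hL' : (N.image out).card = N.card := card_image_of_injOn fun e he e' he' heq =>
    hB e he e' he' heq
  -- the new paths
  obtain ⟨p', hp'⟩ : ∃ p' : V → E → ZMod 2, p' = fun u => if hu : ∃ e ∈ N, out e = u then
    p (inn hu.choose) + Pi.single hu.choose 1 else p u := ⟨_, rfl⟩
  have hpR : ∀ v ∈ R, p' v = p v := by
    intro v hv
    rw [hp']
    show (if hu : ∃ e ∈ N, out e = v then _ else _) = _
    rw [dif_neg]
    rintro ⟨e, he, rfl⟩
    exact hA e he hv
  have hpL : ∀ v ∈ N.image out, ∃ e ∈ N, out e = v ∧ p' v = p (inn e) + Pi.single e 1 := by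
    intro v hv
    rw [mem_image] at hv
    refine ⟨hv.choose, hv.choose_spec.1, hv.choose_spec.2, ?_⟩
    rw [hp']
    show (if hu : ∃ e ∈ N, out e = v then _ else _) = _
    rw [dif_pos hv]
  have hsup' : ∀ v ∈ R, p v ∈ Sup (T ∪ N) := fun v hv e he => h.sup v hv e fun h' =>
    he (mem_union_left _ h')
  refine ⟨R ∪ N.image out, N.image out, T ∪ N, p', subset_union_right, ?_, ?_, ?_, ?_, ?_, ?_, ?_,
    ?_⟩
  · intro v hv
    rw [mem_image] at hv
    obtain ⟨e, he, rfl⟩ := hv
    rw [touch, mem_filter]
    exact ⟨mem_univ _, e, (hNX e he).1, (hends e _).2 (Or.inr rfl)⟩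
  · exact union_subset h.hT fun e he => (hNX e he).1
  · intro v hv
    rcases mem_union.1 hv with hv | hv
    · rw [hpR v hv]
      exact hsup' v hv
    · obtain ⟨e, he, -, hpe⟩ := hpL v hv
      rw [hpe]
      refine (Sup (T ∪ N)).add_mem (hsup' _ (h.hLR (hinnL e he))) ?_
      intro x hx
      rw [Pi.single_apply, if_neg]
      rintro rfl
      exact hx (mem_union_right _ he)
  · intro v hv
    rcases mem_union.1 hv with hv | hv
    · rw [hpR v hv]
      exact h.bnd v hv
    · obtain ⟨e, he, hev, hpe⟩ := hpL v hv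
      rw [hpe, map_add, h.bnd _ (h.hLR (hinnL e he)), hbs, hev]
      have : (Pi.single r 1 + Pi.single (inn e) 1 + (Pi.single (inn e) 1 + Pi.single v 1) :
          V → ZMod 2) = Pi.single r 1 + (Pi.single (inn e) 1 + Pi.single (inn e) 1) +
          Pi.single v 1 := by abel
      rw [this, dbl, add_zero]
  · intro v hv
    rcases mem_union.1 hv with hv | hv
    · rw [hpR v hv]
      exact (h.sz v hv).trans (Nat.le_succ j)
    · obtain ⟨e, he, -, hpe⟩ := hpL v hv
      rw [hpe]
      have a2 := sc_add (p (inn e)) (Pi.single e 1)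
      have a3 := sc_single e
      have a4 := h.sz _ (h.hLR (hinnL e he))
      omega
  · intro e he
    rcases mem_union.1 he with he | he
    · exact ⟨mem_union_left _ (h.ends e he).1, mem_union_left _ (h.ends e he).2⟩
    · have h1 : inn e ∈ R ∪ N.image out := mem_union_left _ (h.hLR (hinnL e he))
      have h2 : out e ∈ R ∪ N.image out := mem_union_right _ (mem_image_of_mem _ he)
      constructor
      · rcases (hends e (s e)).1 (Or.inl rfl) with h' | h'
        · rwa [← h']
        · rwa [← h']
      · rcases (hends e (t e)).1 (Or.inr rfl) with h' | h'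
        · rwa [← h']
        · rwa [← h']
  · intro v hv
    rw [mem_image] at hv
    obtain ⟨e₀, he₀, rfl⟩ := hv
    have hkey : ∀ e ∈ (T ∪ N).filter (fun e => s e = out e₀ ∨ t e = out e₀), e = e₀ := by
      intro e he
      rw [mem_filter, mem_union] at he
      obtain ⟨h1, h2⟩ := he
      rcases h1 with h1 | h1
      · exfalso
        rcases h2 with h2 | h2
        · exact hA e₀ he₀ (h2 ▸ (h.ends e h1).1)
        · exact hA e₀ he₀ (h2 ▸ (h.ends e h1).2)
      · rcases (hends e _).1 h2 with h3 | h3
        · exact absurd (h3 ▸ h.hLR (hinnL e h1)) (hA e₀ he₀)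
        · exact hB e h1 e₀ he₀ h3
    exact card_le_one.2 fun x hx y hy => (hkey x hx).trans (hkey y hy).symm
  · rw [hL', pow_succ]
    have := h.big
    omega

theorem layers (s t : E → V) (X : Finset E) (r : V) (hr : r ∈ touch s t X) (J : ℕ)
    (hno : ∀ c ∈ Sup X, bd s t c = 0 → sc c ≤ 2 * J → c = 0)
    (hdeg : ∀ v ∈ touch s t X, 3 ≤ (X.filter fun e => s e = v ∨ t e = v).card) :
    ∀ j ≤ J, ∃ (R L : Finset V) (T : Finset E) (p : V → E → ZMod 2), Lay s t X r j R L T p := by
  intro j
  induction j with
  | zero =>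
    intro _
    refine ⟨{r}, {r}, ∅, fun _ => 0, Finset.Subset.refl _, ?_, empty_subset _, ?_, ?_, ?_, ?_, ?_, ?_⟩
    · intro v hv
      rw [mem_singleton] at hv
      rwa [hv]
    · exact fun v _ => (Sup ∅).zero_mem
    · intro v hv
      rw [mem_singleton] at hv
      rw [hv, map_zero, dbl]
    · intro v _
      exact sc_zero.le
    · intro e he
      exact absurd he (notMem_empty e)
    · intro v _
      rw [filter_empty]
      exact Nat.zero_le _
    · simp
  | succ j ih =>
    intro hj
    obtain ⟨R, L, T, p, h⟩ := ih (by omega)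
    exact step s t X r J hno hdeg j hj R L T p h

end

end MOO_

open MOO_ in
theorem moo : S_MOO := by
  intro V E _ _ _ _ s t X hX _ hdeg
  by_contra hcon
  push Not at hcon
  obtain ⟨e, he⟩ := hX
  have hr : s e ∈ touch s t X := by
    rw [touch, mem_filter]
    exact ⟨mem_univ _, e, he, Or.inl rfl⟩
  obtain ⟨R, L, T, p, h⟩ := layers s t X (s e) hr (Nat.log 2 (Fintype.card V) + 1)
    (fun c hc hb hs => by
      by_contra h0
      exact absurd hs (not_le.2 (hcon c hc h0 hb))) hdeg _ le_rfl
  have h1 := h.big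
  have h2 : L.card ≤ Fintype.card V := card_le_univ L
  have h3 := Nat.lt_pow_succ_log_self (b := 2) (by norm_num) (Fintype.card V)
  rw [Nat.succ_eq_add_one] at h3
  omega

end Pool.Agent.K9h72.BN
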