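import Pool.Agent.K9h72.BN.Stme

/-! Leaf POTC. -/

set_option autoImplicit false

namespace Pool.Agent.K9h72.BN

open Finset

namespace PC7

/-- restriction to `E₀` -/
noncomputable def rs {E : Type} (E₀ : Finset E) :
    (E → ZMod 2) →ₗ[ZMod 2] ({e // e ∈ E₀} → ZMod 2) :=
  LinearMap.funLeft (ZMod 2) (ZMod 2) Subtype.val

theorem rs_apply {E : Type} (E₀ : Finset E) (c : E → ZMod 2) (e : {e // e ∈ E₀}) :
    rs E₀ c e = c e.1 := rfl

theorem sum_sub {E : Type} [Fintype E] (E₀ : Finset E) (F : E → ℝ) (hF : ∀ e, e ∉ E₀ → F e = 0) :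
    ∑ e : {e // e ∈ E₀}, F e.1 = ∑ e, F e := by
  rw [Finset.sum_coe_sort E₀ F]
  exact Finset.sum_subset (subset_univ _) fun e _ he => hF e he

theorem wt_nonneg {E : Type} [Fintype E] {w : E → ℝ} (hw : ∀ e, 0 ≤ w e) (c : E → ZMod 2) :
    0 ≤ wt w c := by
  unfold wt
  exact sum_nonneg fun e _ => hw e

end PC7

open PC7

theorem potc (hP : S_POTB) : S_POTC := by
  classical
  intro b hb E _ _ C K E₀ h hw
  -- injectivity on `C`
  have hinj : ∀ c ∈ C, ∀ c' ∈ C, rs E₀ c = rs E₀ c' → c = c' := by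
    intro c hc c' hc' hcc
    funext e
    rcases h e with h0 | ⟨e₀, he₀, h1⟩
    · rw [h0 c hc, h0 c' hc']
    · rw [h1 c hc, h1 c' hc']
      exact congrFun hcc ⟨e₀, he₀⟩
  have hmain := hP b hb {e // e ∈ E₀} (C.map (rs E₀)) K ?_
  · obtain ⟨B₀, hB1, hB2, hB3⟩ := hmain
    have hmem : ∀ c₀ ∈ B₀, ∃ c ∈ C, rs E₀ c = c₀ := by
      intro c₀ hc₀
      have h1 : c₀ ∈ Submodule.span (ZMod 2) (B₀ : Set ({e // e ∈ E₀} → ZMod 2)) :=
        Submodule.subset_span hc₀
      rw [hB2] at h1
      exact Submodule.mem_map.1 h1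
    have hg : ∃ g : ({e // e ∈ E₀} → ZMod 2) → (E → ZMod 2), ∀ c₀ ∈ B₀, g c₀ ∈ C ∧
        rs E₀ (g c₀) = c₀ := by
      choose! g hg1 hg2 using hmem
      exact ⟨g, fun c₀ hc₀ => ⟨hg1 c₀ hc₀, hg2 c₀ hc₀⟩⟩
    obtain ⟨g, hg⟩ := hg
    have hBC : ∀ c ∈ B₀.image g, c ∈ C := by
      intro c hc
      obtain ⟨c₀, hc₀, rfl⟩ := mem_image.1 hc
      exact (hg c₀ hc₀).1
    have hrB : ∀ c ∈ B₀.image g, rs E₀ c ∈ B₀ := by
      intro c hc
      obtain ⟨c₀, hc₀, rfl⟩ := mem_image.1 hc
      rw [(hg c₀ hc₀).2]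
      exact hc₀
    have himg : (rs E₀) '' ((B₀.image g : Finset (E → ZMod 2)) : Set (E → ZMod 2)) =
        (B₀ : Set ({e // e ∈ E₀} → ZMod 2)) := by
      ext c
      constructor
      · rintro ⟨c', hc', rfl⟩
        exact hrB c' hc'
      · intro hc
        exact ⟨g c, mem_coe.2 (mem_image_of_mem g hc), (hg c hc).2⟩
    refine ⟨B₀.image g, ?_, ?_, ?_⟩
    · refine LinearIndependent.of_comp (rs E₀) ?_
      let φ : {c // c ∈ B₀.image g} → {c // c ∈ B₀} := fun c => ⟨rs E₀ c.1, hrB c.1 c.2⟩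
      have hφ : Function.Injective φ := by
        intro c c' hcc
        have h1 : rs E₀ c.1 = rs E₀ c'.1 := congrArg Subtype.val hcc
        exact Subtype.ext (hinj _ (hBC _ c.2) _ (hBC _ c'.2) h1)
      exact hB1.comp φ hφ
    · apply le_antisymm
      · rw [Submodule.span_le]
        intro c hc
        exact hBC c hc
      · intro c hc
        have h1 : rs E₀ c ∈ C.map (rs E₀) := Submodule.mem_map_of_mem hc
        rw [← hB2, ← himg, ← Submodule.map_span] at h1
        obtain ⟨c', hc', hcc⟩ := Submodule.mem_map.1 h1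
        have hc'C : c' ∈ C := by
          have h2 : Submodule.span (ZMod 2)
              ((B₀.image g : Finset (E → ZMod 2)) : Set (E → ZMod 2)) ≤ C := by
            rw [Submodule.span_le]
            intro x hx
            exact hBC x hx
          exact h2 hc'
        rw [← hinj c' hc'C c hc hcc]
        exact hc'
    · intro e
      rcases h e with h0 | ⟨e₀, he₀, h1⟩
      · have h2 : (B₀.image g).filter (fun c => c e ≠ 0) = ∅ := by
          refine filter_eq_empty_iff.2 fun c hc => ?_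
          rw [not_not]
          exact h0 c (hBC c hc)
        rw [h2, card_empty]
        exact Nat.zero_le _
      · have h2 := hB3 ⟨e₀, he₀⟩
        rw [Fintype.card_coe] at h2
        refine le_trans (card_le_card_of_injOn (rs E₀) ?_ ?_) h2
        · intro c hc
          rw [mem_coe, mem_filter] at hc
          rw [mem_coe, mem_filter]
          refine ⟨hrB c hc.1, ?_⟩
          rw [rs_apply, ← h1 c (hBC c hc.1)]
          exact hc.2
        · intro c hc c' hc' hcc
          exact hinj c (hBC c (mem_filter.1 hc).1) c' (hBC c' (mem_filter.1 hc').1) hcc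
  · intro w₀ hw₀
    obtain ⟨S, hS1, hS2, hS3⟩ := hw (fun e => if he : e ∈ E₀ then w₀ ⟨e, he⟩ else 0) (by
      intro e
      split_ifs with he
      · exact hw₀ _
      · exact le_rfl)
    have hwt : ∀ c : E → ZMod 2, wt w₀ (rs E₀ c) =
        wt (fun e => if he : e ∈ E₀ then w₀ ⟨e, he⟩ else 0) c := by
      intro c
      unfold wt
      rw [sum_filter, sum_filter,
        ← sum_sub E₀ (fun e => if c e ≠ 0 then (if he : e ∈ E₀ then w₀ ⟨e, he⟩ else 0) else 0)
          (fun e he => by rw [dif_neg he, ite_self])]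
      refine sum_congr rfl fun e _ => ?_
      rw [dif_pos e.2, rs_apply]
    refine ⟨S.image (rs E₀), ?_, ?_, ?_⟩
    · intro c hc
      obtain ⟨c', hc', rfl⟩ := mem_image.1 hc
      exact Submodule.mem_map_of_mem (hS1 c' hc')
    · intro c hc
      obtain ⟨c', hc', rfl⟩ := Submodule.mem_map.1 hc
      have h1 := Submodule.mem_map_of_mem (f := rs E₀) (hS2 c' hc')
      rw [Submodule.map_span] at h1
      rw [coe_image]
      exact h1
    · have h1 : ∑ c ∈ S.image (rs E₀), wt w₀ c ≤ ∑ c ∈ S, wt w₀ (rs E₀ c) := by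
        rw [Finset.sum_comp (wt w₀) (rs E₀)]
        refine sum_le_sum fun c hc => ?_
        obtain ⟨a, ha, hac⟩ := mem_image.1 hc
        have h2 : 1 ≤ (S.filter fun a => rs E₀ a = c).card :=
          card_pos.2 ⟨a, mem_filter.2 ⟨ha, hac⟩⟩
        have h3 : (1 : ℝ) ≤ ((S.filter fun a => rs E₀ a = c).card : ℝ) := by exact_mod_cast h2
        rw [nsmul_eq_mul]
        nlinarith [wt_nonneg hw₀ c]
      refine h1.trans ?_
      rw [sum_congr rfl fun c _ => hwt c]
      refine hS3.trans (le_of_eq ?_)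
      congr 1
      rw [← sum_sub E₀ (fun e => if he : e ∈ E₀ then w₀ ⟨e, he⟩ else 0)
        (fun e he => dif_neg he)]
      exact sum_congr rfl fun e _ => dif_pos e.2

end Pool.Agent.K9h72.BN
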