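import Pool.Agent.K9h72.BN.Stmc

/-!
# LEAF PRA: a minimal basis (helper15)
-/

set_option autoImplicit false

namespace Pool.Agent.K9h72.BN

open Finset

namespace PrA_

set_option linter.unusedSectionVars false

variable {E : Type} [Fintype E] [DecidableEq E]

/-- independence of a finite set -/
def Ind (B : Finset (E → ZMod 2)) : Prop := LinearIndependent (ZMod 2) (fun c : B => (c : E → ZMod 2))

theorem ind_iff' {B : Finset (E → ZMod 2)} : Ind B ↔
    ∀ f : (E → ZMod 2) → ZMod 2, ∑ i ∈ B, f i • i = 0 → ∀ i ∈ B, f i = 0 := by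
  have h := linearIndepOn_finset_iff (R := ZMod 2) (s := B) (v := (id : (E → ZMod 2) → E → ZMod 2))
  exact h

theorem sum_ind {B S : Finset (E → ZMod 2)} (h : S ⊆ B) :
    ∑ i ∈ B, (if i ∈ S then (1 : ZMod 2) else 0) • i = ∑ i ∈ S, i := by
  simp only [ite_smul, one_smul, zero_smul]
  rw [Finset.sum_ite_mem, Finset.inter_eq_right.mpr h]

theorem uniq {B S T : Finset (E → ZMod 2)} (hB : Ind B) (hS : S ⊆ B) (hT : T ⊆ B)
    (h : ∑ i ∈ S, i = ∑ i ∈ T, i) : S = T := by
  have h1 := ind_iff'.mp hB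
    (fun i => (if i ∈ S then (1 : ZMod 2) else 0) - (if i ∈ T then (1 : ZMod 2) else 0)) (by
      simp only [sub_smul]
      rw [Finset.sum_sub_distrib, sum_ind hS, sum_ind hT, h, sub_self])
  ext i
  constructor
  · intro hi
    have h2 := h1 i (hS hi)
    by_contra hcon
    rw [if_pos hi, if_neg hcon, sub_zero] at h2
    exact one_ne_zero h2
  · intro hi
    have h2 := h1 i (hT hi)
    by_contra hcon
    rw [if_pos hi, if_neg hcon, zero_sub, neg_eq_zero] at h2
    exact one_ne_zero h2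

theorem ind_of {B : Finset (E → ZMod 2)} (h : ∀ S ⊆ B, ∑ i ∈ S, i = 0 → S = ∅) : Ind B := by
  rw [ind_iff']
  intro f hf i hi
  by_contra hcon
  have h1 : B.filter (fun i => f i ≠ 0) = ∅ := by
    apply h _ (Finset.filter_subset _ _)
    rw [← hf, Finset.sum_filter]
    refine Finset.sum_congr rfl fun j _ => ?_
    split_ifs with hj
    · have : f j = 1 := by
        have := ZMod.natCast_self 2
        revert hj
        generalize f j = a
        revert a
        decide
      rw [this, one_smul]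
    · rw [not_not.mp hj, zero_smul]
  have h2 : i ∈ B.filter (fun i => f i ≠ 0) := Finset.mem_filter.mpr ⟨hi, hcon⟩
  rw [h1] at h2
  exact absurd h2 (Finset.notMem_empty _)

theorem neg_self' (x : E → ZMod 2) : -x = x := by
  funext e
  rw [Pi.neg_apply]
  generalize x e = a
  revert a
  decide

theorem exch {C : Submodule (ZMod 2) (E → ZMod 2)} {B S : Finset (E → ZMod 2)} {c : E → ZMod 2}
    (hB : Ind B) (hC : Submodule.span (ZMod 2) (B : Set (E → ZMod 2)) = C) (hS : S ⊆ B) (hc : c ∈ S) :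
    Ind (insert (∑ i ∈ S, i) (B.erase c)) ∧
      Submodule.span (ZMod 2) ((insert (∑ i ∈ S, i) (B.erase c) : Finset (E → ZMod 2)) :
        Set (E → ZMod 2)) = C := by
  set x := ∑ i ∈ S, i with hx
  constructor
  · apply ind_of
    intro T hT hT0
    by_cases hxT : x ∈ T
    · exfalso
      have h1 : ∑ i ∈ T.erase x, i = ∑ i ∈ S, i := by
        have h2 := Finset.sum_erase_add T (fun i => i) hxT
        rw [hT0] at h2
        rw [eq_neg_of_add_eq_zero_left h2, neg_self']
      have h3 : T.erase x ⊆ B.erase c := by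
        intro i hi
        obtain ⟨h4, h5⟩ := Finset.mem_erase.mp hi
        exact (Finset.mem_insert.mp (hT h5)).resolve_left h4
      have h6 := uniq hB (h3.trans (Finset.erase_subset _ _)) hS h1
      rw [← h6] at hc
      exact Finset.notMem_erase c B (h3 hc)
    · have h3 : T ⊆ B := by
        intro i hi
        have h4 : i ≠ x := fun h => hxT (h ▸ hi)
        exact Finset.mem_of_mem_erase ((Finset.mem_insert.mp (hT hi)).resolve_left h4)
      exact uniq hB h3 (Finset.empty_subset _) (by rw [hT0, Finset.sum_empty])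
  · apply le_antisymm
    · rw [Submodule.span_le]
      intro i hi
      rw [Finset.mem_coe, Finset.mem_insert] at hi
      rcases hi with rfl | hi
      · rw [← hC]
        exact Submodule.sum_mem _ fun j hj => Submodule.subset_span (hS hj)
      · rw [← hC]
        exact Submodule.subset_span (Finset.mem_of_mem_erase hi)
    · rw [← hC, Submodule.span_le]
      intro i hi
      by_cases hic : i = c
      · have h1 : c = x - ∑ j ∈ S.erase c, j := by
          rw [hx, ← Finset.add_sum_erase S (fun j => j) hc]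
          abel
        have h2 : x - ∑ j ∈ S.erase c, j ∈ Submodule.span (ZMod 2)
            ((insert x (B.erase c) : Finset (E → ZMod 2)) : Set (E → ZMod 2)) := by
          refine Submodule.sub_mem _ (Submodule.subset_span (by simp)) (Submodule.sum_mem _ fun j hj =>
            Submodule.subset_span ?_)
          rw [Finset.mem_coe, Finset.mem_insert]
          right
          exact Finset.mem_erase.mpr ⟨(Finset.mem_erase.mp hj).1, hS (Finset.mem_erase.mp hj).2⟩
        rw [← h1] at h2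
        rw [hic]
        exact h2
      · apply Submodule.subset_span
        rw [Finset.mem_coe, Finset.mem_insert]
        right
        exact Finset.mem_erase.mpr ⟨hic, hi⟩

/-- the largest label in the support -/
def hi (κ : E → ℕ) (c : E → ZMod 2) : ℕ := (univ.filter fun e => c e ≠ 0).sup κ

theorem le_hi {κ : E → ℕ} {c : E → ZMod 2} {e : E} (h : c e ≠ 0) : κ e ≤ hi κ c :=
  Finset.le_sup (f := κ) (Finset.mem_filter.mpr ⟨Finset.mem_univ _, h⟩)

theorem hi_le {κ : E → ℕ} {c : E → ZMod 2} {n : ℕ} (h : ∀ e, c e ≠ 0 → κ e ≤ n) : hi κ c ≤ n :=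
  Finset.sup_le fun e he => h e (Finset.mem_filter.mp he).2

theorem hi_lt {κ : E → ℕ} {c : E → ZMod 2} {n : ℕ} (hn : 0 < n) (h : ∀ e, c e ≠ 0 → κ e < n) :
    hi κ c < n :=
  (Finset.sup_lt_iff (by simpa using hn)).mpr fun e he => h e (Finset.mem_filter.mp he).2

theorem exists_hi {κ : E → ℕ} {c : E → ZMod 2} {e : E} (h : c e ≠ 0) :
    ∃ e', c e' ≠ 0 ∧ κ e' = hi κ c := by
  obtain ⟨e', he', h2⟩ := Finset.exists_mem_eq_sup (univ.filter fun e => c e ≠ 0)
    ⟨e, Finset.mem_filter.mpr ⟨Finset.mem_univ _, h⟩⟩ κ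
  exact ⟨e', (Finset.mem_filter.mp he').2, h2.symm⟩

theorem half {C : Submodule (ZMod 2) (E → ZMod 2)} {κ : E → ℕ} {M : ℕ} (hM : ∀ e, κ e ≤ M)
    {𝓓 : Set (E → ZMod 2)} (hD : ∀ d ∈ 𝓓, ∀ e e', d e ≠ 0 → d e' ≠ 0 → κ e = κ e')
    {B : Finset (E → ZMod 2)} (hB1 : Ind B)
    (hB2 : Submodule.span (ZMod 2) (B : Set (E → ZMod 2)) = C) (hB3 : ∀ d ∈ 𝓓, d ∈ B)
    (hmin : ∀ B' : Finset (E → ZMod 2), Ind B' →
      Submodule.span (ZMod 2) (B' : Set (E → ZMod 2)) = C → (∀ d ∈ 𝓓, d ∈ B') →
      ∑ c ∈ B, (hi κ c + hi (fun e => M - κ e) c) ≤ ∑ c ∈ B', (hi κ c + hi (fun e => M - κ e) c))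
    (l : ℕ) (S : Finset (E → ZMod 2)) (hS : S ⊆ B) (h1 : ∀ c ∈ S, ∀ e, c e ≠ 0 → l ≤ κ e)
    (h2 : ∀ e, (∑ c ∈ S, c) e ≠ 0 → l < κ e) : ∀ c ∈ S, ∀ e, c e ≠ 0 → l < κ e := by
  classical
  by_contra hcon
  push Not at hcon
  obtain ⟨c0, hc0, e0, he0, hle0⟩ := hcon
  set S' := S.filter (fun c => ∃ e, c e ≠ 0 ∧ κ e = l) with hS'
  have hS'S : S' ⊆ S := Finset.filter_subset _ _
  have hS'B : S' ⊆ B := hS'S.trans hS
  have hne : S'.Nonempty :=
    ⟨c0, Finset.mem_filter.mpr ⟨hc0, e0, he0, le_antisymm hle0 (h1 c0 hc0 e0 he0)⟩⟩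
  set x := ∑ c ∈ S', c with hx
  have hxe : ∀ e, x e = ∑ c ∈ S', c e := fun e => by rw [hx, Finset.sum_apply]
  have hx1 : ∀ e, x e ≠ 0 → l < κ e := by
    intro e he
    by_contra hle
    apply he
    have h3 : (∑ c ∈ S, c) e = 0 := by
      by_contra h4
      exact hle (h2 e h4)
    rw [Finset.sum_apply] at h3
    rw [hxe, ← h3]
    apply Finset.sum_subset hS'S
    intro c hc hc'
    by_contra h4
    apply hc'
    exact Finset.mem_filter.mpr ⟨hc, e, h4, le_antisymm (not_lt.mp hle) (h1 c hc e h4)⟩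
  have hx2 : ∀ e, x e ≠ 0 → ∃ c ∈ S', c e ≠ 0 := by
    intro e he
    rw [hxe] at he
    exact Finset.exists_ne_zero_of_sum_ne_zero he
  obtain ⟨c, hc, hmax⟩ := Finset.exists_max_image S' (hi κ) hne
  obtain ⟨e1, he1, hle1⟩ := (Finset.mem_filter.mp hc).2
  have hx0 : x ≠ 0 := by
    intro h
    have h3 := uniq hB1 hS'B (Finset.empty_subset _) (by rw [← hx, h, Finset.sum_empty])
    exact hne.ne_empty h3
  obtain ⟨e2, he2⟩ : ∃ e, x e ≠ 0 := by
    by_contra h
    push Not at h
    exact hx0 (funext h)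
  have hl2 := hx1 e2 he2
  obtain ⟨c2, hc2, hce2⟩ := hx2 e2 he2
  have hhi : l < hi κ c := lt_of_lt_of_le hl2 ((le_hi hce2).trans (hmax c2 hc2))
  obtain ⟨e3, he3, hk3⟩ := exists_hi (κ := κ) he1
  have hcD : c ∉ 𝓓 := by
    intro h
    have := hD c h e1 e3 he1 he3
    omega
  obtain ⟨hE1, hE2⟩ := exch hB1 hB2 hS'B hc
  rw [← hx] at hE1 hE2
  have hm := hmin _ hE1 hE2 (fun d hd => Finset.mem_insert_of_mem
    (Finset.mem_erase.mpr ⟨fun h => hcD (h ▸ hd), hB3 d hd⟩))
  have hw1 : hi κ x ≤ hi κ c := hi_le fun e he => by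
    obtain ⟨c', hc', hce'⟩ := hx2 e he
    exact (le_hi hce').trans (hmax c' hc')
  have hw2 : hi (fun e => M - κ e) x < hi (fun e => M - κ e) c := by
    have h3 : M - l ≤ hi (fun e => M - κ e) c := by
      have := le_hi (κ := fun e => M - κ e) he1
      simp only [hle1] at this
      exact this
    refine lt_of_lt_of_le (hi_lt ?_ fun e he => ?_) h3
    · have := hM e2
      omega
    · have h4 := hx1 e he
      have h5 := hM e
      change M - κ e < M - l
      omega
  have h6 : ∑ c ∈ insert x (B.erase c), (hi κ c + hi (fun e => M - κ e) c) ≤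
      (hi κ x + hi (fun e => M - κ e) x) +
        ∑ c ∈ B.erase c, (hi κ c + hi (fun e => M - κ e) c) := by
    by_cases h7 : x ∈ B.erase c
    · rw [Finset.insert_eq_of_mem h7]
      exact Nat.le_add_left _ _
    · rw [Finset.sum_insert h7]
  have h8 := Finset.add_sum_erase B (fun c => hi κ c + hi (fun e => M - κ e) c) (hS'B hc)
  omega

theorem mem_Kp {κ : E → ℕ} {p : ℕ → Prop} [DecidablePred p] {c : E → ZMod 2} :
    c ∈ Sup (Kp κ p) ↔ ∀ e, c e ≠ 0 → p (κ e) := by
  constructor
  · intro h e he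
    by_contra h1
    apply he
    apply h e
    intro h2
    exact h1 (Finset.mem_filter.mp h2).2
  · intro h e he
    by_contra h1
    exact he (Finset.mem_filter.mpr ⟨Finset.mem_univ _, h e h1⟩)

end PrA_

open PrA_

theorem pra : S_PRA := by
  classical
  intro E _ _ C κ D hDb
  set M := (univ : Finset E).sup κ with hMdef
  have hM : ∀ e, κ e ≤ M := fun e => Finset.le_sup (f := κ) (Finset.mem_univ e)
  have hDmem : ∀ l, ∀ d ∈ D l, d ∈ C ∧ ∀ e, d e ≠ 0 → κ e = l := by
    intro l d hd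
    have h1 : d ∈ Submodule.span (ZMod 2) (D l : Set (E → ZMod 2)) := Submodule.subset_span hd
    rw [(hDb l).2, Submodule.mem_inf] at h1
    exact ⟨h1.1, mem_Kp.mp h1.2⟩
  let 𝓓 : Set (E → ZMod 2) := {d | ∃ l, d ∈ D l}
  have hD : ∀ d ∈ 𝓓, ∀ e e', d e ≠ 0 → d e' ≠ 0 → κ e = κ e' := by
    rintro d ⟨l, hl⟩ e e' he he'
    rw [(hDmem l d hl).2 e he, (hDmem l d hl).2 e' he']
  set U : Finset (E → ZMod 2) := univ.filter (fun d => ∃ l, d ∈ D l) with hU
  have hUind : Ind U := by
    apply ind_of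
    intro S hS hS0
    rw [Finset.eq_empty_iff_forall_notMem]
    intro c hc
    obtain ⟨l, hl⟩ := (Finset.mem_filter.mp (hS hc)).2
    have h1 : ∑ i ∈ S.filter (fun i => i ∈ D l), i = 0 := by
      funext e
      rw [Finset.sum_apply, Pi.zero_apply]
      by_cases he : κ e = l
      · have h2 := congrFun hS0 e
        rw [Finset.sum_apply, Pi.zero_apply] at h2
        rw [← h2]
        apply Finset.sum_subset (Finset.filter_subset _ _)
        intro i hi hi'
        obtain ⟨j, hj⟩ := (Finset.mem_filter.mp (hS hi)).2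
        by_contra h3
        have h4 := (hDmem j i hj).2 e h3
        apply hi'
        refine Finset.mem_filter.mpr ⟨hi, ?_⟩
        rw [← he, h4]
        exact hj
      · refine Finset.sum_eq_zero fun i hi => ?_
        by_contra h3
        exact he ((hDmem l i (Finset.mem_filter.mp hi).2).2 e h3)
    have h5 := uniq (hDb l).1 (S := S.filter (fun i => i ∈ D l)) (T := ∅)
      (fun i hi => (Finset.mem_filter.mp hi).2) (Finset.empty_subset _)
      (by rw [h1, Finset.sum_empty])
    have h6 : c ∈ S.filter (fun i => i ∈ D l) := Finset.mem_filter.mpr ⟨hc, hl⟩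
    rw [h5] at h6
    exact absurd h6 (Finset.notMem_empty _)
  have hUC : (U : Set (E → ZMod 2)) ⊆ (C : Set (E → ZMod 2)) := by
    intro d hd
    obtain ⟨l, hl⟩ := (Finset.mem_filter.mp hd).2
    exact (hDmem l d hl).1
  obtain ⟨b, hb1, hb2, hb3, hb4⟩ := exists_linearIndepOn_id_extension
    (K := ZMod 2) (s := (U : Set (E → ZMod 2))) (t := (C : Set (E → ZMod 2))) hUind hUC
  set 𝓕 : Finset (Finset (E → ZMod 2)) := univ.filter (fun B => Ind B ∧
    Submodule.span (ZMod 2) (B : Set (E → ZMod 2)) = C ∧ ∀ d ∈ 𝓓, d ∈ B) with h𝓕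
  have hne : 𝓕.Nonempty := by
    refine ⟨b.toFinset, Finset.mem_filter.mpr ⟨Finset.mem_univ _, ?_, ?_, ?_⟩⟩
    · have : LinearIndepOn (ZMod 2) id ((b.toFinset : Finset (E → ZMod 2)) : Set (E → ZMod 2)) := by
        rw [Set.coe_toFinset]
        exact hb4
      exact this
    · rw [Set.coe_toFinset]
      exact le_antisymm (Submodule.span_le.mpr hb1) hb3
    · intro d hd
      rw [Set.mem_toFinset]
      apply hb2
      exact Finset.mem_coe.mpr (Finset.mem_filter.mpr ⟨Finset.mem_univ _, hd⟩)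
  obtain ⟨B, hB, hBmin⟩ := Finset.exists_min_image 𝓕
    (fun B => ∑ c ∈ B, (hi κ c + hi (fun e => M - κ e) c)) hne
  obtain ⟨-, hB1, hB2, hB3⟩ := Finset.mem_filter.mp hB
  refine ⟨B, hB1, hB2, fun l d hd => hB3 d ⟨l, hd⟩, fun l S hS h1 h2 => ?_, fun l S hS h1 h2 => ?_⟩
  · have h3 := half hM hD hB1 hB2 hB3 (fun B' h4 h5 h6 => hBmin B' (Finset.mem_filter.mpr
      ⟨Finset.mem_univ _, h4, h5, h6⟩)) l S hS (fun c hc => mem_Kp.mp (h1 c hc)) (mem_Kp.mp h2)
    exact fun c hc => mem_Kp.mpr (h3 c hc)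
  · by_cases hl : M < l
    · intro c _
      rw [mem_Kp]
      intro e _
      exact lt_of_le_of_lt (hM e) hl
    · have hl' : l ≤ M := not_lt.mp hl
      have hκ : (fun e => M - (M - κ e)) = κ := by
        funext e
        have := hM e
        omega
      have hD' : ∀ d ∈ 𝓓, ∀ e e', d e ≠ 0 → d e' ≠ 0 → M - κ e = M - κ e' := by
        intro d hd e e' he he'
        rw [hD d hd e e' he he']
      have h3 := half (κ := fun e => M - κ e) (M := M) (fun e => Nat.sub_le _ _) hD' hB1 hB2 hB3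
        (fun B' h4 h5 h6 => by
          have h7 := hBmin B' (Finset.mem_filter.mpr ⟨Finset.mem_univ _, h4, h5, h6⟩)
          simp only [hκ]
          simp only [add_comm] at h7 ⊢
          exact h7) (M - l) S hS
        (fun c hc e he => by
          have := mem_Kp.mp (h1 c hc) e he
          change M - l ≤ M - κ e
          omega)
        (fun e he => by
          have := mem_Kp.mp h2 e he
          change M - l < M - κ e
          omega)
      intro c hc
      rw [mem_Kp]
      intro e he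
      have h4 := h3 c hc e he
      change M - l < M - κ e at h4
      omega

end Pool.Agent.K9h72.BN
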