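import Pool.Agent.K9h72.BN.Stmc

/-! # Leaf PRB (helper17) -/

set_option autoImplicit false

namespace Pool.Agent.K9h72.BN

open Finset

namespace PRB17

variable {E : Type} [Fintype E] [DecidableEq E]

theorem memSup17 (κ : E → ℕ) (p : ℕ → Prop) [DecidablePred p] (c : E → ZMod 2) :
    c ∈ Sup (Kp κ p) ↔ ∀ e, ¬ p (κ e) → c e = 0 := by
  constructor
  · intro h e he
    exact h e (by simpa using he)
  · intro h e he
    exact h e (by simpa using he)

theorem exists_sum {B : Finset (E → ZMod 2)} {x : E → ZMod 2}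
    (hx : x ∈ Submodule.span (ZMod 2) (B : Set (E → ZMod 2))) : ∃ S ⊆ B, x = ∑ c ∈ S, c := by
  classical
  obtain ⟨f, -, hf⟩ := Submodule.mem_span_finset.1 hx
  refine ⟨B.filter fun c => f c ≠ 0, Finset.filter_subset _ _, ?_⟩
  rw [← hf, Finset.sum_filter]
  refine Finset.sum_congr rfl fun c _ => ?_
  have h2 : ∀ z : ZMod 2, z = 0 ∨ z = 1 := by decide
  rcases h2 (f c) with h | h
  · rw [h]
    simp
  · rw [h]
    simp

variable {C : Submodule (ZMod 2) (E → ZMod 2)} {κ : E → ℕ} {D : ℕ → Finset (E → ZMod 2)}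
  {B : Finset (E → ZMod 2)}

theorem claimA (hB : Good C κ D B) (l : ℕ) {S : Finset (E → ZMod 2)} (hS : S ⊆ B)
    (hx : ∑ c ∈ S, c ∈ Sup (Kp κ (fun j => j < l))) :
    ∀ c ∈ S, c ∈ Sup (Kp κ (fun j => j < l)) := by
  obtain ⟨-, -, -, -, h5⟩ := hB
  have key : ∀ d : ℕ, ∀ j : ℕ, l ≤ j → j + d = (univ.sup κ + 1) + l →
      ∀ c ∈ S, c ∈ Sup (Kp κ (fun i => i < j)) := by
    intro d
    induction d with
    | zero =>
      intro j _ hj c _
      rw [memSup17]
      intro e he
      have h1 : κ e ≤ univ.sup κ := Finset.le_sup (mem_univ e)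
      omega
    | succ d ih =>
      intro j hlj hj
      have h1 := ih (j + 1) (by omega) (by omega)
      refine h5 j S hS ?_ ?_
      · intro c hc
        have h2 := h1 c hc
        rw [memSup17] at h2 ⊢
        intro e he
        exact h2 e (by omega)
      · rw [memSup17] at hx ⊢
        intro e he
        exact hx e (by omega)
  exact key (univ.sup κ + 1) l le_rfl (by omega)

theorem claimB (hB : Good C κ D B) (l : ℕ) {S : Finset (E → ZMod 2)} (hS : S ⊆ B)
    (hx : ∑ c ∈ S, c ∈ Sup (Kp κ (fun j => l ≤ j))) :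
    ∀ c ∈ S, c ∈ Sup (Kp κ (fun j => l ≤ j)) := by
  obtain ⟨-, -, -, h4, -⟩ := hB
  have key : ∀ j : ℕ, j ≤ l → ∀ c ∈ S, c ∈ Sup (Kp κ (fun i => j ≤ i)) := by
    intro j
    induction j with
    | zero =>
      intro _ c _
      rw [memSup17]
      intro e he
      omega
    | succ j ih =>
      intro hj
      have h1 := ih (by omega)
      have h2 := h4 j S hS h1 (by
        rw [memSup17] at hx ⊢
        intro e he
        exact hx e (by omega))
      intro c hc
      have h3 := h2 c hc
      rw [memSup17] at h3 ⊢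
      intro e he
      exact h3 e (by omega)
  exact key l le_rfl

open Classical in
/-- the elements of the basis which cross the label `l` -/
noncomputable def Cross (κ : E → ℕ) (B : Finset (E → ZMod 2)) (l : ℕ) : Finset (E → ZMod 2) :=
  B.filter fun c => c ∉ Sup (Kp κ (fun j => j < l)) ∧ c ∉ Sup (Kp κ (fun j => l ≤ j))

theorem card_cross (hB : Good C κ D B) {a : ℕ} (l : ℕ)
    (hC : Module.finrank (ZMod 2) C ≤ Module.finrank (ZMod 2) ↥(C ⊓ Sup (Kp κ (fun j => j < l))) +
      Module.finrank (ZMod 2) ↥(C ⊓ Sup (Kp κ (fun j => l ≤ j))) + a) :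
    (Cross κ B l).card ≤ a := by
  classical
  have hB' := hB
  obtain ⟨hli, hsp, -, -, -⟩ := hB'
  obtain ⟨B1, hB1⟩ : ∃ B1, B1 = B.filter fun c => c ∈ Sup (Kp κ (fun j => j < l)) := ⟨_, rfl⟩
  obtain ⟨B2, hB2⟩ : ∃ B2, B2 = B.filter fun c => c ∈ Sup (Kp κ (fun j => l ≤ j)) := ⟨_, rfl⟩
  have e0 : Module.finrank (ZMod 2) C = B.card := by
    rw [← hsp]
    exact finrank_span_finset_eq_card hli
  have e1 : Module.finrank (ZMod 2) ↥(C ⊓ Sup (Kp κ (fun j => j < l))) ≤ B1.card := by
    refine le_trans (Submodule.finrank_mono (t := Submodule.span (ZMod 2) (B1 : Set (E → ZMod 2)))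
      ?_) (finrank_span_finset_le_card B1)
    rintro x ⟨hx1, hx2⟩
    have hx1' : x ∈ Submodule.span (ZMod 2) (B : Set (E → ZMod 2)) := by
      rw [hsp]
      exact hx1
    obtain ⟨S, hS, rfl⟩ := exists_sum hx1'
    have h1 := claimA hB l hS hx2
    refine Submodule.sum_mem _ fun c hc => Submodule.subset_span ?_
    rw [hB1]
    exact Finset.mem_coe.2 (Finset.mem_filter.2 ⟨hS hc, h1 c hc⟩)
  have e2 : Module.finrank (ZMod 2) ↥(C ⊓ Sup (Kp κ (fun j => l ≤ j))) ≤ B2.card := by
    refine le_trans (Submodule.finrank_mono (t := Submodule.span (ZMod 2) (B2 : Set (E → ZMod 2)))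
      ?_) (finrank_span_finset_le_card B2)
    rintro x ⟨hx1, hx2⟩
    have hx1' : x ∈ Submodule.span (ZMod 2) (B : Set (E → ZMod 2)) := by
      rw [hsp]
      exact hx1
    obtain ⟨S, hS, rfl⟩ := exists_sum hx1'
    have h1 := claimB hB l hS hx2
    refine Submodule.sum_mem _ fun c hc => Submodule.subset_span ?_
    rw [hB2]
    exact Finset.mem_coe.2 (Finset.mem_filter.2 ⟨hS hc, h1 c hc⟩)
  have d12 : Disjoint B1 B2 := by
    rw [Finset.disjoint_left]
    intro c h1 h2
    rw [hB1, Finset.mem_filter] at h1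
    rw [hB2, Finset.mem_filter] at h2
    have hc0 : c ≠ 0 := hli.ne_zero ⟨c, h1.1⟩
    apply hc0
    funext e
    have h3 := (memSup17 _ _ _).1 h1.2 e
    have h4 := (memSup17 _ _ _).1 h2.2 e
    by_cases he : κ e < l
    · exact h4 (by omega)
    · exact h3 he
  have d3 : Disjoint (B1 ∪ B2) (Cross κ B l) := by
    rw [Finset.disjoint_left]
    intro c h1 h2
    rw [Cross, Finset.mem_filter] at h2
    rcases Finset.mem_union.1 h1 with h | h
    · rw [hB1, Finset.mem_filter] at h
      exact h2.2.1 h.2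
    · rw [hB2, Finset.mem_filter] at h
      exact h2.2.2 h.2
  have hsub : (B1 ∪ B2) ∪ Cross κ B l ⊆ B := by
    rw [hB1, hB2, Cross]
    exact Finset.union_subset (Finset.union_subset (Finset.filter_subset _ _)
      (Finset.filter_subset _ _)) (Finset.filter_subset _ _)
  have h5 := Finset.card_le_card hsub
  rw [Finset.card_union_of_disjoint d3, Finset.card_union_of_disjoint d12] at h5
  omega

end PRB17

open PRB17

theorem prb : S_PRB := by
  classical
  intro E _ _ C κ D B a hD hB hC l A hAB hAD hA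
  have hB' := hB
  obtain ⟨hli, hsp, hDB, -, -⟩ := hB'
  have hsub : A ⊆ Cross κ B l ∪ Cross κ B (l + 1) := by
    intro c hc
    obtain ⟨e0, he0, hce0⟩ := hA c hc
    have hnot : c ∉ Sup (Kp κ (fun j => j = l)) := by
      intro h
      have h1 : c ∈ C := by
        rw [← hsp]
        exact Submodule.subset_span (hAB hc)
      have h2 : c ∈ Submodule.span (ZMod 2) (D l : Set (E → ZMod 2)) := by
        rw [(hD l).2]
        exact ⟨h1, h⟩
      have h3 := hli.notMem_span_image (s := {b : B | (b : E → ZMod 2) ∈ D l}) (x := ⟨c, hAB hc⟩)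
        (fun h4 => (Finset.disjoint_left.1 hAD hc) h4)
      apply h3
      have h4 : (fun b : B => (b : E → ZMod 2)) '' {b : B | (b : E → ZMod 2) ∈ D l} =
          (D l : Set (E → ZMod 2)) := by
        ext x
        constructor
        · rintro ⟨b, hb, rfl⟩
          exact hb
        · intro hx
          exact ⟨⟨x, hDB l hx⟩, hx, rfl⟩
      rw [h4]
      exact h2
    obtain ⟨e, he, hce⟩ : ∃ e, κ e ≠ l ∧ c e ≠ 0 := by
      by_contra hcon
      apply hnot
      rw [memSup17]
      intro e he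
      by_contra h
      exact hcon ⟨e, he, h⟩
    rcases lt_or_gt_of_ne he with h | h
    · refine Finset.mem_union_left _ (Finset.mem_filter.2 ⟨hAB hc, ?_, ?_⟩)
      · intro h1
        exact hce0 ((memSup17 _ _ _).1 h1 e0 (by omega))
      · intro h1
        exact hce ((memSup17 _ _ _).1 h1 e (by omega))
    · refine Finset.mem_union_right _ (Finset.mem_filter.2 ⟨hAB hc, ?_, ?_⟩)
      · intro h1
        exact hce ((memSup17 _ _ _).1 h1 e (by omega))
      · intro h1
        exact hce0 ((memSup17 _ _ _).1 h1 e0 (by omega))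
  have h1 := card_cross hB l (hC l)
  have h2 := card_cross hB (l + 1) (hC (l + 1))
  have h3 := (Finset.card_le_card hsub).trans (Finset.card_union_le _ _)
  omega

end Pool.Agent.K9h72.BN
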