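import Pool.Agent.K9h72.BN.Stme
import Pool.Agent.K9h72.BN.JoinA

/-!
# Leaf REPF: a forest which realises the boundaries in `WW X`, with few different coordinates (helper73)
-/

set_option autoImplicit false

namespace Pool.Agent.K9h72.BN

open Finset

theorem repf (h : S_CLS) : S_REPF := by
  classical
  intro V E _ _ _ _ s t hst X
  have h0 : WW s t X ≤ (Sup X).map (bd s t) := inf_le_left
  obtain ⟨F, hFX, hfor, hW⟩ := join_forest s t _ X h0
  obtain ⟨L, hL, hcl⟩ := h V E s t hst F hfor (bdry s t X)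
  let P : ((E → ZMod 2) → ZMod 2) → E → Prop := fun φ e => e ∈ F ∧ ∀ c ∈ Sup F,
    (∀ v, v ∉ bdry s t X → bd s t c v = 0) → c e = φ c
  let g : ((E → ZMod 2) → ZMod 2) → Finset E := fun φ =>
    if hx : ∃ e, P φ e then {hx.choose} else ∅
  have hg : ∀ φ (hx : ∃ e, P φ e), g φ = {hx.choose} := fun φ hx => dif_pos hx
  refine ⟨F, L.biUnion g, hFX, ?_, hW, ?_, ?_⟩
  · intro e he
    obtain ⟨φ, -, he⟩ := Finset.mem_biUnion.1 he
    by_cases hx : ∃ e, P φ e
    · rw [hg φ hx, Finset.mem_singleton] at he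
      rw [he]
      exact hx.choose_spec.1
    · have : g φ = ∅ := dif_neg hx
      rw [this] at he
      exact absurd he (Finset.notMem_empty _)
  · refine le_trans ?_ hL
    have := Finset.card_biUnion_le_card_mul L g 1 (fun φ _ => ?_)
    · rwa [mul_one] at this
    · by_cases hx : ∃ e, P φ e
      · rw [hg φ hx, Finset.card_singleton]
      · have : g φ = ∅ := dif_neg hx
        rw [this, Finset.card_empty]
        exact Nat.zero_le 1
  · intro e he
    rcases hcl e he with h1 | ⟨φ, hφ, h1⟩
    · exact Or.inl h1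
    · right
      have hx : ∃ e, P φ e := ⟨e, he, h1⟩
      refine ⟨hx.choose, Finset.mem_biUnion.2 ⟨φ, hφ, ?_⟩, fun c hc hb => ?_⟩
      · rw [hg φ hx]
        exact Finset.mem_singleton_self _
      · exact (h1 c hc hb).trans (hx.choose_spec.2 c hc hb).symm

end Pool.Agent.K9h72.BN
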