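import Pool.Agent.K9h72.BN.Stmb

/-!
# Generating sets of small weight, for all graphs (leaf RIZ)
-/

set_option autoImplicit false
set_option linter.unusedSectionVars false

namespace Pool.Agent.K9h72.BN

open Finset

section

variable {V E : Type} [Fintype V] [Fintype E] [DecidableEq V] [DecidableEq E]

lemma riz_zmod {a : ZMod 2} (h : a ≠ 0) : a = 1 := by
  revert h
  revert a
  decide

lemma riz_add_self (a : ZMod 2) : a + a = 0 := by
  revert a
  decide

lemma riz_wt_nonneg {w : E → ℝ} (hw : ∀ x, 0 ≤ w x) (c : E → ZMod 2) : 0 ≤ wt w c :=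
  Finset.sum_nonneg fun e _ => hw e

lemma riz_mem_sup {X : Finset E} {c : E → ZMod 2} : c ∈ Sup X ↔ ∀ e, e ∉ X → c e = 0 := Iff.rfl

lemma riz_sup_erase {X : Finset E} {e : E} {c : E → ZMod 2} (hc : c ∈ Sup X) (h : c e = 0) :
    c ∈ Sup (X.erase e) := by
  rw [riz_mem_sup] at hc ⊢
  intro x hx
  by_cases hxe : x = e
  · rw [hxe, h]
  · exact hc x fun hx2 => hx (Finset.mem_erase.2 ⟨hxe, hx2⟩)

lemma riz_sup_mono {X : Finset E} {e : E} {c : E → ZMod 2} (hc : c ∈ Sup (X.erase e)) :
    c ∈ Sup X := by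
  rw [riz_mem_sup] at hc ⊢
  exact fun x hx => hc x fun h => hx (Finset.mem_of_mem_erase h)

lemma riz_gen_zero {s t : E → V} {K : ℝ} (hK : 0 ≤ K) {w : E → ℝ} (hw : ∀ x, 0 ≤ w x)
    {X : Finset E} {e : E} (he : e ∈ X) (h0 : ∀ c ∈ Sup X, bd s t c = 0 → c e = 0)
    (hg : Gen s t K w (X.erase e)) : Gen s t K w X := by
  obtain ⟨S, h1, h2, h3⟩ := hg
  refine ⟨S, fun c hc => ⟨riz_sup_mono (h1 c hc).1, (h1 c hc).2⟩, fun c hc hb =>
    h2 c (riz_sup_erase hc (h0 c hc hb)) hb, h3.trans ?_⟩
  refine mul_le_mul_of_nonneg_left ?_ hK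
  rw [← Finset.add_sum_erase X w he]
  linarith [hw e]

lemma riz_gen_cycle {s t : E → V} {K : ℕ} {w : E → ℝ} (hw : ∀ x, 0 ≤ w x)
    {X : Finset E} {c : E → ZMod 2} (hc : c ∈ Sup X) (hb : bd s t c = 0)
    (hcard : (univ.filter fun e => c e ≠ 0).card ≤ K) {e : E} (hce : c e ≠ 0)
    (hmax : ∀ x, c x ≠ 0 → w x ≤ w e)
    (hg : Gen s t (K : ℝ) w (X.erase e)) : Gen s t (K : ℝ) w X := by
  classical
  have heX : e ∈ X := by
    by_contra h
    exact hce (hc e h)
  obtain ⟨S, h1, h2, h3⟩ := hg
  have hwt : wt w c ≤ (K : ℝ) * w e := by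
    unfold wt
    calc ∑ x ∈ univ.filter (fun x => c x ≠ 0), w x ≤
        ∑ _x ∈ univ.filter (fun x => c x ≠ 0), w e :=
          Finset.sum_le_sum fun x hx => hmax x (Finset.mem_filter.1 hx).2
      _ = ((univ.filter fun x => c x ≠ 0).card : ℝ) * w e := by
          rw [Finset.sum_const, nsmul_eq_mul]
      _ ≤ (K : ℝ) * w e := mul_le_mul_of_nonneg_right (by exact_mod_cast hcard) (hw e)
  refine ⟨insert c S, ?_, ?_, ?_⟩
  · intro d hd
    rcases Finset.mem_insert.1 hd with rfl | hd
    · exact ⟨hc, hb⟩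
    · exact ⟨riz_sup_mono (h1 d hd).1, (h1 d hd).2⟩
  · intro d hd hbd
    have hsub : Submodule.span (ZMod 2) (S : Set (E → ZMod 2)) ≤
        Submodule.span (ZMod 2) ((insert c S : Finset (E → ZMod 2)) : Set (E → ZMod 2)) := by
      apply Submodule.span_mono
      intro x hx
      exact Finset.mem_coe.2 (Finset.mem_insert_of_mem (Finset.mem_coe.1 hx))
    by_cases hde : d e = 0
    · exact hsub (h2 d (riz_sup_erase hd hde) hbd)
    · have h4 : (d + c) e = 0 := by
        rw [Pi.add_apply, riz_zmod hde, riz_zmod hce, riz_add_self]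
      have h5 : d + c ∈ Sup X := Submodule.add_mem _ hd hc
      have h6 := hsub (h2 (d + c) (riz_sup_erase h5 h4) (by rw [map_add, hbd, hb, add_zero]))
      have h7 : c ∈ Submodule.span (ZMod 2)
          ((insert c S : Finset (E → ZMod 2)) : Set (E → ZMod 2)) :=
        Submodule.subset_span (Finset.mem_coe.2 (Finset.mem_insert_self c S))
      have h8 := Submodule.add_mem _ h6 h7
      have h9 : d + c + c = d := by
        funext x
        rw [Pi.add_apply, Pi.add_apply, add_assoc, riz_add_self, add_zero]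
      rwa [h9] at h8
  · have h4 : ∑ d ∈ insert c S, wt w d ≤ wt w c + ∑ d ∈ S, wt w d := by
      by_cases hcS : c ∈ S
      · rw [Finset.insert_eq_of_mem hcS]
        linarith [riz_wt_nonneg hw c]
      · rw [Finset.sum_insert hcS]
    have h5 := Finset.add_sum_erase X w heX
    have h6 : (K : ℝ) * ∑ x ∈ X, w x = (K : ℝ) * w e + (K : ℝ) * ∑ x ∈ X.erase e, w x := by
      rw [← h5, mul_add]
    rw [h6]
    linarith

lemma riz_bd_apply {s t : E → V} {X : Finset E} {c : E → ZMod 2} (hc : c ∈ Sup X) (v : V) :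
    bd s t c v = ∑ e ∈ X.filter (fun e => s e = v ∨ t e = v), c e * inc s t e v := by
  show ∑ e, c e * inc s t e v = _
  symm
  apply Finset.sum_subset (Finset.subset_univ _)
  intro e _ he
  rw [Finset.mem_filter, not_and_or, not_or] at he
  rcases he with he | ⟨h1, h2⟩
  · rw [hc e he, zero_mul]
  · unfold inc
    rw [if_neg h1, if_neg h2, add_zero, mul_zero]

lemma riz_inc {s t : E → V} {e : E} {v : V} (hne : s e ≠ t e) (h : s e = v ∨ t e = v) :
    inc s t e v = 1 := by
  unfold inc
  rcases h with h | h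
  · rw [if_pos h, if_neg (fun h2 => hne (h.trans h2.symm)), add_zero]
  · rw [if_pos h, if_neg (fun h2 => hne (h2.trans h.symm)), zero_add]

end

theorem riz (h1 : S_MOO) (h2 : S_CON) (h3 : S_STB) : S_RIZ := by
  classical
  intro V E _ _ _ _ X
  induction hn : X.card using Nat.strong_induction_on generalizing X with
  | _ n ih =>
  subst hn
  intro s t w hw
  set K : ℕ := 2 * (Nat.log 2 (Fintype.card V) + 1) with hK
  have hK1 : 1 ≤ K := by omega
  have hK0 : (0 : ℝ) ≤ (K : ℝ) := Nat.cast_nonneg K
  have hih : ∀ (e : E), e ∈ X → ∀ (s t : E → V) (w : E → ℝ), (∀ x, 0 ≤ w x) →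
      Gen s t (K : ℝ) w (X.erase e) := fun e he s t w hw =>
    ih _ (Finset.card_erase_lt_of_mem he) (X.erase e) rfl s t w hw
  rcases X.eq_empty_or_nonempty with hX | hX
  · refine ⟨∅, fun c hc => absurd hc (Finset.notMem_empty c), fun c hc _ => ?_, ?_⟩
    · have : c = 0 := by
        funext e
        exact hc e (by rw [hX]; exact Finset.notMem_empty e)
      rw [this]
      exact Submodule.zero_mem _
    · rw [hX, Finset.sum_empty, Finset.sum_empty, mul_zero]
  by_cases hc1 : ∃ e ∈ X, ∀ c ∈ Sup X, bd s t c = 0 → c e = 0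
  · obtain ⟨e, he, h⟩ := hc1
    exact riz_gen_zero hK0 hw he h (hih e he s t w hw)
  by_cases hc2 : ∃ e ∈ X, ∃ f ∈ X, e ≠ f ∧ s f ≠ t f ∧ ∀ c ∈ Sup X, bd s t c = 0 → c e = c f
  · obtain ⟨e, he, f, hf, hef, hst, h⟩ := hc2
    obtain ⟨s', t', g1, g2⟩ := h2 V E s t f hst
    refine h3 V E s t s' t' K w X e f hw he hf hef h g1 g2 ?_
    refine hih f hf s' t' _ fun x => ?_
    by_cases hx : x = e
    · rw [hx, Function.update_self]
      exact add_nonneg (hw e) (hw f)
    · rw [Function.update_of_ne hx]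
      exact hw x
  have hcyc : ∃ c ∈ Sup X, c ≠ 0 ∧ bd s t c = 0 ∧ (univ.filter fun e => c e ≠ 0).card ≤ K := by
    by_cases hloop : ∃ e ∈ X, s e = t e
    · obtain ⟨e, he, hst⟩ := hloop
      refine ⟨Pi.single e 1, ?_, ?_, ?_, ?_⟩
      · intro x hx
        exact Pi.single_eq_of_ne (fun h : x = e => hx (by rw [h]; exact he)) _
      · intro h
        have := congrFun h e
        rw [Pi.single_eq_same, Pi.zero_apply] at this
        exact one_ne_zero this
      · funext v
        show ∑ x, (Pi.single e 1 : E → ZMod 2) x * inc s t x v = 0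
        rw [Finset.sum_eq_single e]
        · rw [Pi.single_eq_same, one_mul]
          unfold inc
          rw [hst]
          exact riz_add_self _
        · intro x _ hx
          rw [Pi.single_eq_of_ne hx, zero_mul]
        · intro h
          exact absurd (Finset.mem_univ e) h
      · refine le_trans ?_ hK1
        refine le_trans (Finset.card_le_card (t := {e}) ?_) (Finset.card_singleton e).le
        intro x hx
        rw [Finset.mem_singleton]
        by_contra h
        exact (Finset.mem_filter.1 hx).2 (Pi.single_eq_of_ne h _)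
    · push Not at hloop
      refine h1 V E s t X hX hloop fun v hv => ?_
      by_contra hlt
      rw [not_le] at hlt
      have hpos : 0 < (X.filter fun e => s e = v ∨ t e = v).card := by
        rw [Finset.card_pos]
        obtain ⟨e, he, h⟩ := (Finset.mem_filter.1 hv).2
        exact ⟨e, Finset.mem_filter.2 ⟨he, h⟩⟩
      have hor : (X.filter fun e => s e = v ∨ t e = v).card = 1 ∨
          (X.filter fun e => s e = v ∨ t e = v).card = 2 := by omega
      rcases hor with h | h
      · obtain ⟨e, he⟩ := Finset.card_eq_one.1 h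
        have hem : e ∈ X.filter fun e => s e = v ∨ t e = v := by
          rw [he]
          exact Finset.mem_singleton_self e
        obtain ⟨g1, g2⟩ := Finset.mem_filter.1 hem
        refine hc1 ⟨e, g1, fun c hc hb => ?_⟩
        have h5 := riz_bd_apply (s := s) (t := t) hc v
        rw [hb, he, Finset.sum_singleton, riz_inc (hloop e g1) g2, mul_one, Pi.zero_apply] at h5
        exact h5.symm
      · obtain ⟨e, f, hef, he⟩ := Finset.card_eq_two.1 h
        have hem : e ∈ X.filter fun e => s e = v ∨ t e = v := by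
          rw [he]
          exact Finset.mem_insert_self e _
        have hfm : f ∈ X.filter fun e => s e = v ∨ t e = v := by
          rw [he]
          exact Finset.mem_insert_of_mem (Finset.mem_singleton_self f)
        obtain ⟨g1, g2⟩ := Finset.mem_filter.1 hem
        obtain ⟨g3, g4⟩ := Finset.mem_filter.1 hfm
        refine hc2 ⟨e, g1, f, g3, hef, hloop f g3, fun c hc hb => ?_⟩
        have h5 := riz_bd_apply (s := s) (t := t) hc v
        rw [hb, he, Finset.sum_pair hef, riz_inc (hloop e g1) g2, riz_inc (hloop f g3) g4,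
          mul_one, mul_one, Pi.zero_apply] at h5
        calc c e = c e + (c f + c f) := by rw [riz_add_self, add_zero]
          _ = (c e + c f) + c f := by rw [add_assoc]
          _ = c f := by rw [← h5, zero_add]
  obtain ⟨c, hcS, hc0, hcb, hcK⟩ := hcyc
  have hne : (univ.filter fun e => c e ≠ 0).Nonempty := by
    by_contra h
    rw [Finset.not_nonempty_iff_eq_empty] at h
    apply hc0
    funext e
    by_contra h4
    have : e ∈ univ.filter fun e => c e ≠ 0 := Finset.mem_filter.2 ⟨Finset.mem_univ e, h4⟩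
    rw [h] at this
    exact Finset.notMem_empty e this
  obtain ⟨e, he, hmax⟩ := Finset.exists_max_image _ w hne
  have hce := (Finset.mem_filter.1 he).2
  have heX : e ∈ X := by
    by_contra h
    exact hce (hcS e h)
  exact riz_gen_cycle hw hcS hcb hcK hce
    (fun x hx => hmax x (Finset.mem_filter.2 ⟨Finset.mem_univ x, hx⟩)) (hih e heX s t w hw)

end Pool.Agent.K9h72.BN
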