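import Pool.Agent.K9h72.BN.Stmb

set_option autoImplicit false

namespace Pool.Agent.K9h72.BN

open Finset

/-- replace the value at `f` by the value at `e` -/
noncomputable def dup {E : Type} [DecidableEq E] (e f : E) : (E → ZMod 2) →ₗ[ZMod 2] (E → ZMod 2) where
  toFun c := Function.update c f (c e)
  map_add' c d := by
    funext x
    by_cases hx : x = f
    · subst hx
      simp
    · simp [Function.update_of_ne hx]
  map_smul' a c := by
    funext x
    by_cases hx : x = f
    · subst hx
      simp
    · simp [Function.update_of_ne hx]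

theorem dup_apply {E : Type} [DecidableEq E] (e f : E) (c : E → ZMod 2) :
    dup e f c = Function.update c f (c e) := rfl

theorem wt_dup {E : Type} [Fintype E] [DecidableEq E] {e f : E} (hef : e ≠ f) (w : E → ℝ)
    (c : E → ZMod 2) (hc : c f = 0) :
    wt w (dup e f c) = wt (Function.update w e (w e + w f)) c := by
  unfold wt
  rw [Finset.sum_filter, Finset.sum_filter]
  have h1 : ∀ x : E, (if dup e f c x ≠ 0 then w x else 0) =
      (if c x ≠ 0 then w x else 0) + (if x = f then (if c e ≠ 0 then w f else 0) else 0) := by
    intro x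
    rw [dup_apply]
    by_cases hx : x = f
    · subst hx
      simp [hc]
    · rw [Function.update_of_ne hx, if_neg hx, add_zero]
  have h2 : ∀ x : E, (if c x ≠ 0 then Function.update w e (w e + w f) x else 0) =
      (if c x ≠ 0 then w x else 0) + (if x = e then (if c e ≠ 0 then w f else 0) else 0) := by
    intro x
    by_cases hx : x = e
    · subst hx
      rw [Function.update_self, if_pos rfl]
      split_ifs <;> simp
    · rw [Function.update_of_ne hx, if_neg hx, add_zero]
  rw [Finset.sum_congr rfl (fun x _ => h1 x), Finset.sum_congr rfl (fun x _ => h2 x),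
    Finset.sum_add_distrib, Finset.sum_add_distrib]
  simp

theorem stb : S_STB := by
  intro V E _ _ _ _ s t s' t' K w X e f hw heX hfX hef hc1 hc2 hc3 hG
  classical
  obtain ⟨S', hS1, hS2, hS3⟩ := hG
  refine ⟨S'.image (dup e f), ?_, ?_, ?_⟩
  · intro c hc
    obtain ⟨d, hd, rfl⟩ := Finset.mem_image.1 hc
    obtain ⟨hdX, hdb⟩ := hS1 d hd
    have hdf : d f = 0 := hdX f (Finset.notMem_erase f X)
    obtain ⟨a, ha⟩ := hc3 d hdf hdb
    have hX : Function.update d f a ∈ Sup X := by
      intro x hx
      have hxf : x ≠ f := fun h => hx (h ▸ hfX)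
      rw [Function.update_of_ne hxf]
      exact hdX x fun h => hx (Finset.mem_of_mem_erase h)
    have hval := hc1 _ hX ha
    rw [Function.update_of_ne hef, Function.update_self] at hval
    rw [dup_apply, hval]
    exact ⟨hX, ha⟩
  · intro c hcX hcb
    have hd : Function.update c f 0 ∈ Sup (X.erase f) := by
      intro x hx
      by_cases hxf : x = f
      · rw [hxf, Function.update_self]
      · rw [Function.update_of_ne hxf]
        exact hcX x fun h => hx (Finset.mem_erase.2 ⟨hxf, h⟩)
    have h1 := hS2 _ hd (hc2 c hcb)
    have h2 : dup e f (Function.update c f 0) = c := by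
      rw [dup_apply, Function.update_of_ne hef, Function.update_idem, hc1 c hcX hcb,
        Function.update_eq_self]
    have h3 : dup e f (Function.update c f 0) ∈
        (Submodule.span (ZMod 2) (S' : Set (E → ZMod 2))).map (dup e f) :=
      Submodule.mem_map_of_mem h1
    rw [h2, Submodule.map_span] at h3
    rw [Finset.coe_image]
    exact h3
  · have hwt : ∀ c : E → ZMod 2, 0 ≤ wt w c := fun c => Finset.sum_nonneg fun x _ => hw x
    have h1 : ∑ c ∈ S'.image (dup e f), wt w c ≤ ∑ c ∈ S', wt w (dup e f c) :=
      Finset.sum_image_le_of_nonneg fun c _ => hwt _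
    have h2 : ∑ c ∈ S', wt w (dup e f c) = ∑ c ∈ S', wt (Function.update w e (w e + w f)) c := by
      refine Finset.sum_congr rfl fun c hc => wt_dup hef w c ?_
      exact (hS1 c hc).1 f (Finset.notMem_erase f X)
    have h3 : ∑ x ∈ X.erase f, Function.update w e (w e + w f) x = ∑ x ∈ X, w x := by
      have he : e ∈ X.erase f := Finset.mem_erase.2 ⟨hef, heX⟩
      rw [← Finset.add_sum_erase _ _ he, Function.update_self]
      have h4 : ∑ x ∈ (X.erase f).erase e, Function.update w e (w e + w f) x =
          ∑ x ∈ (X.erase f).erase e, w x := by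
        refine Finset.sum_congr rfl fun x hx => ?_
        rw [Function.update_of_ne (Finset.ne_of_mem_erase hx)]
      rw [h4, ← Finset.add_sum_erase X w hfX, ← Finset.add_sum_erase (X.erase f) w he]
      ring
    rw [h3] at hS3
    exact (h1.trans h2.le).trans hS3

end Pool.Agent.K9h72.BN
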