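import Pool.Agent.K9h72.BN.Stm

/-!
# Basis number `O(log n)` for all graphs: statements of the leaves (helper72)

Goal (second theorem, MP_35885f_co): every graph with `n` vertices and `m` edges has a cycle basis in which every edge is
in at most `4 (log_2 n + 1) + log_2 m` members (known: `O (log^2 n)`). Here loops and parallel edges are allowed.
File of the leaf NAME: `Pool/Agent/K9h72/BN/Name.lean`, in the namespace `Pool.Agent.K9h72.BN`.
-/

set_option autoImplicit false

namespace Pool.Agent.K9h72.BN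

open Finset

/-- the cycle space of the edges in `X` has a generating set of weight at most `K * weight X` -/
def Gen {V E : Type} [Fintype V] [Fintype E] [DecidableEq V] [DecidableEq E] (s t : E → V) (K : ℝ) (w : E → ℝ)
    (X : Finset E) : Prop :=
  ∃ S : Finset (E → ZMod 2), (∀ c ∈ S, c ∈ Sup X ∧ bd s t c = 0) ∧
    (∀ c ∈ Sup X, bd s t c = 0 → c ∈ Submodule.span (ZMod 2) (S : Set (E → ZMod 2))) ∧
    ∑ c ∈ S, wt w c ≤ K * ∑ e ∈ X, w e

/-- LEAF MOO (Moore bound). Proof. Fix a root `r ∈ touch X` and assume that there is no such `c`. By induction on `j` there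
are `R, L : Finset V` (`L ⊆ R`: the vertices reached in at most `j` steps, in exactly `j` steps), `T ⊆ X` and
`p : V → (E → ZMod 2)` such that: `R ⊆ touch X`; for `v ∈ R`: `p v ∈ Sup T`, `bd (p v) = Pi.single r 1 + Pi.single v 1`, at
most `j` edges in the support of `p v`; the ends of the edges of `T` are in `R`; for `v ∈ L` at most one edge of `T` is
incident with `v`; `2 ^ j ≤ |L|`. Step: `N = {e ∈ X \ T : an end of e is in L}`. For `e ∈ N` with the end `v ∈ L` the other
end `u` is not in `R` (otherwise `p v + e + p u` is a cycle, not zero since `e ∉ T`, with at most `2 j + 1` edges).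
Different `e, e' ∈ N` have different outer ends (otherwise `p v + e + e' + p v'` is such a cycle, with at most `2 j + 2`
edges). So the set `L'` of the outer ends has `|N| ≥ 2 |L|` elements (each `v ∈ L` has at least `3 - 1` edges in `N`),
`R' = R ∪ L'`, `T' = T ∪ N`, `p u = p v + e`. For `j + 1 = log_2 |V| + 1` get `|V| < 2 ^ (j + 1) ≤ |L'| ≤ |V|`. -/
def S_MOO : Prop := ∀ (V E : Type) [Fintype V] [Fintype E] [DecidableEq V] [DecidableEq E] (s t : E → V) (X : Finset E),
  X.Nonempty → (∀ e ∈ X, s e ≠ t e) → (∀ v ∈ touch s t X, 3 ≤ (X.filter fun e => s e = v ∨ t e = v).card) →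
  ∃ c ∈ Sup X, c ≠ 0 ∧ bd s t c = 0 ∧ (univ.filter fun e => c e ≠ 0).card ≤ 2 * (Nat.log 2 (Fintype.card V) + 1)

/-- LEAF CON (contraction of the edge `f`). Proof: `s' e = if s e = t f then s f else s e`,
`t' e = if t e = t f then s f else t e`. Then `bd s' t' c v = bd s t c v` for `v ≠ s f, t f`, `bd s' t' c (t f) = 0` and
`bd s' t' c (s f) = bd s t c (s f) + bd s t c (t f)`; `a = bd s t c (t f)`. -/
def S_CON : Prop := ∀ (V E : Type) [Fintype V] [Fintype E] [DecidableEq V] [DecidableEq E] (s t : E → V) (f : E),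
  s f ≠ t f → ∃ s' t' : E → V, (∀ c : E → ZMod 2, bd s t c = 0 → bd s' t' (Function.update c f 0) = 0) ∧
    ∀ c : E → ZMod 2, c f = 0 → bd s' t' c = 0 → ∃ a : ZMod 2, bd s t (Function.update c f a) = 0

/-- LEAF STB (two edges `e ≠ f` in the same cycles; `s', t'` are as in `S_CON`). Proof: `Φ c = Function.update c f (c e)`
is linear, `S = S'.image Φ`. For `c ∈ S'` there is `a` with `bd s t (update c f a) = 0`; this chain is in `Sup X`, so
`a = c e`; `wt w (Φ c) = wt w' c` for `w' = Function.update w e (w e + w f)` (if `c f = 0`). For a cycle `c` in `Sup X`: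
`update c f 0 ∈ span S'` and `c = Φ (update c f 0)`. -/
def S_STB : Prop := ∀ (V E : Type) [Fintype V] [Fintype E] [DecidableEq V] [DecidableEq E] (s t s' t' : E → V)
  (K : ℝ) (w : E → ℝ) (X : Finset E) (e f : E), (∀ x, 0 ≤ w x) → e ∈ X → f ∈ X → e ≠ f →
  (∀ c ∈ Sup X, bd s t c = 0 → c e = c f) →
  (∀ c : E → ZMod 2, bd s t c = 0 → bd s' t' (Function.update c f 0) = 0) →
  (∀ c : E → ZMod 2, c f = 0 → bd s' t' c = 0 → ∃ a : ZMod 2, bd s t (Function.update c f a) = 0) →
  Gen s' t' K (Function.update w e (w e + w f)) (X.erase f) → Gen s t K w X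

/-- LEAF RIZ (with `S_MOO`, `S_CON`, `S_STB` as hypotheses). Proof by induction on `|X|` (all `s, t, w`). `X = ∅`: `S = ∅`.
If there is `e ∈ X` with `c e = 0` for all cycles `c` in `Sup X`: `X \ {e}`. If there are `e ≠ f` in `X` with `c e = c f` for
all cycles `c` in `Sup X` and `s f ≠ t f`: `S_CON`, `S_STB`. Otherwise there is a cycle `c ≠ 0` in `Sup X` with at most `K`
edges: one loop if there is a loop; if not, `S_MOO` (if only one edge `e ∈ X` is incident with `v` then
`c e = bd s t c v = 0`, if only `e` and `f` are then `c e + c f = 0`). Let `e₀` be an edge of `c` with the largest weight: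
`wt c ≤ K w e₀`, `S = insert c S'` with `S'` for `X \ {e₀}`. -/
def S_RIZ : Prop := ∀ (V E : Type) [Fintype V] [Fintype E] [DecidableEq V] [DecidableEq E] (X : Finset E) (s t : E → V)
  (w : E → ℝ), (∀ x, 0 ≤ w x) → Gen s t ((2 * (Nat.log 2 (Fintype.card V) + 1) : ℕ) : ℝ) w X

/-- LEAF POTB: `S_POT` with the base `b` instead of `2` (same proof: potential `∑_e b ^ load e`, `wt w (b i) ≤ b wt w (b' (σ i))`,
`∑_e load e b ^ load e ≤ b K ∑_e b ^ load e`, `b ^ L ≤ (L - b K) b ^ L ≤ |E| b ^ (b K)`). -/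
def S_POTB : Prop := ∀ (b : ℕ), 2 ≤ b → ∀ (E : Type) [Fintype E] [DecidableEq E]
  (C : Submodule (ZMod 2) (E → ZMod 2)) (K : ℕ),
  (∀ w : E → ℝ, (∀ e, 0 ≤ w e) → ∃ S : Finset (E → ZMod 2), (∀ c ∈ S, c ∈ C) ∧
    (∀ c ∈ C, c ∈ Submodule.span (ZMod 2) (S : Set (E → ZMod 2))) ∧ ∑ c ∈ S, wt w c ≤ (K : ℝ) * ∑ e, w e) →
  ∃ B : Finset (E → ZMod 2), LinearIndependent (ZMod 2) (fun c : B => (c : E → ZMod 2)) ∧
    Submodule.span (ZMod 2) (B : Set (E → ZMod 2)) = C ∧
    ∀ e, (B.filter fun c => c e ≠ 0).card ≤ b * K + Nat.log b (Fintype.card E)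

end Pool.Agent.K9h72.BN
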