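import Pool.Agent.K9h72.BN.Stmb

/-!
# Basis number and treewidth, many parts: statements of the leaves (helper72)
-/

set_option autoImplicit false

namespace Pool.Agent.K9h72.BN

open Finset

/-- LEAF POTC (with `S_POTB` as hypothesis): `|E|` replaced by the number of representatives of the coordinates of `C`.
Proof: let `C₀` be the space of the restrictions to `E₀` (type `{e // e ∈ E₀}`) of the `c ∈ C`; restriction `C → C₀` is
injective by (h), so an isomorphism. For a weight `w₀` on `E₀` use the hypothesis for the weight `w = w₀` on `E₀`, `0`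
outside, and restrict the generating set. `S_POTB` gives a basis of `C₀`; pull it back; for `e` with representative `e₀`
the chains containing `e` are those containing `e₀`. -/
def S_POTC : Prop := ∀ (b : ℕ), 2 ≤ b → ∀ (E : Type) [Fintype E] [DecidableEq E]
  (C : Submodule (ZMod 2) (E → ZMod 2)) (K : ℕ) (E₀ : Finset E),
  (∀ e, (∀ c ∈ C, c e = 0) ∨ ∃ e₀ ∈ E₀, ∀ c ∈ C, c e = c e₀) →
  (∀ w : E → ℝ, (∀ e, 0 ≤ w e) → ∃ S : Finset (E → ZMod 2), (∀ c ∈ S, c ∈ C) ∧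
    (∀ c ∈ C, c ∈ Submodule.span (ZMod 2) (S : Set (E → ZMod 2))) ∧ ∑ c ∈ S, wt w c ≤ (K : ℝ) * ∑ e, w e) →
  ∃ B : Finset (E → ZMod 2), LinearIndependent (ZMod 2) (fun c : B => (c : E → ZMod 2)) ∧
    Submodule.span (ZMod 2) (B : Set (E → ZMod 2)) = C ∧
    ∀ e, (B.filter fun c => c e ≠ 0).card ≤ b * K + Nat.log b E₀.card

/-- LEAF REPF (with `S_CLS` as hypothesis). (1) An inclusion-minimal `F ⊆ X` with `WW X ≤ (Sup F).map bd` is a forest.
(2) `S_CLS` for `F` and `bdry X`; `R` has one edge for each functional in `L` which occurs. -/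
def S_REPF : Prop := ∀ (V E : Type) [Fintype V] [Fintype E] [DecidableEq V] [DecidableEq E] (s t : E → V),
  (∀ e, s e ≠ t e) → ∀ X : Finset E, ∃ F R : Finset E, F ⊆ X ∧ R ⊆ F ∧ WW s t X ≤ (Sup F).map (bd s t) ∧
    R.card ≤ 2 * (bdry s t X).card ∧
    ∀ e ∈ F, (∀ c ∈ Sup F, (∀ v, v ∉ bdry s t X → bd s t c v = 0) → c e = 0) ∨
      ∃ e₀ ∈ R, ∀ c ∈ Sup F, (∀ v, v ∉ bdry s t X → bd s t c v = 0) → c e = c e₀

/-- LEAF WGT (with `S_JOIN`, `S_TREE` as hypotheses): the weight bound for the cycles in `H`. Proof: as in `main3_of`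
(`Asmb.lean`) for the type `{e // e ∈ H}` instead of `E` (same `V`, `T`, `B`), then extend the chains by `0`. -/
def S_WGT : Prop := ∀ (V E : Type) [Fintype V] [Fintype E] [DecidableEq V] [DecidableEq E] (s t : E → V),
  (∀ e, s e ≠ t e) → ∀ (n : ℕ) (T : SimpleGraph (Fin n)) (B : Fin n → Finset V) (m : ℕ), T.IsTree →
  (∀ v : V, (T.induce {i : Fin n | v ∈ B i}).Connected) → (∀ e, ∃ i, s e ∈ B i ∧ t e ∈ B i) →
  (∀ i, (B i).card ≤ m) → ∀ (H : Finset E) (w : E → ℝ), (∀ e, 0 ≤ w e) →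
  ∃ S : Finset (E → ZMod 2), (∀ c ∈ S, c ∈ Cy s t ⊓ Sup H) ∧
    (∀ c ∈ Cy s t ⊓ Sup H, c ∈ Submodule.span (ZMod 2) (S : Set (E → ZMod 2))) ∧
    ∑ c ∈ S, wt w c ≤ ((4 * m : ℕ) : ℝ) * ∑ e, w e

end Pool.Agent.K9h72.BN
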