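import Pool.Agent.K9h72.BN.Stmc
import Pool.Agent.K9h72.BN.Asmb

/-!
# LEAF SUBP: transfer to subtypes (helper22)
-/

set_option autoImplicit false

namespace Pool.Agent.K9h72.BN

open Finset

namespace SubP_

variable {V E : Type} [Fintype V] [Fintype E] [DecidableEq V] [DecidableEq E]

/-- extension of chains by zero -/
def ext0 (X : Finset E) : ({e // e ∈ X} → ZMod 2) →ₗ[ZMod 2] (E → ZMod 2) where
  toFun c e := if h : e ∈ X then c ⟨e, h⟩ else 0
  map_add' c d := by
    funext e
    by_cases h : e ∈ X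
    · simp [h]
    · simp [h]
  map_smul' a c := by
    funext e
    by_cases h : e ∈ X
    · simp [h]
    · simp [h]

theorem ext0_mem (X : Finset E) (c : {e // e ∈ X} → ZMod 2) {e : E} (h : e ∈ X) :
    ext0 X c e = c ⟨e, h⟩ := by
  show (if h : e ∈ X then c ⟨e, h⟩ else 0) = _
  rw [dif_pos h]

theorem ext0_not (X : Finset E) (c : {e // e ∈ X} → ZMod 2) {e : E} (h : e ∉ X) :
    ext0 X c e = 0 := by
  show (if h : e ∈ X then c ⟨e, h⟩ else 0) = _
  rw [dif_neg h]

theorem ext0_inj (X : Finset E) : Function.Injective (ext0 X) := by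
  intro c d h
  funext e
  have h1 := congrFun h e.1
  rw [ext0_mem X c e.2, ext0_mem X d e.2] at h1
  exact h1

theorem sum_ext0 (X : Finset E) (c : {e // e ∈ X} → ZMod 2) (f : E → ZMod 2) :
    ∑ e, ext0 X c e * f e = ∑ e : {e // e ∈ X}, c e * f e := by
  rw [← Finset.sum_subset (Finset.subset_univ X)
    (fun e _ he => by rw [ext0_not X c he, zero_mul]), ← Finset.sum_coe_sort X]
  exact Finset.sum_congr rfl fun e _ => by rw [ext0_mem X c e.2]

/-- the restricted ends -/
def sr (s : E → V) (X : Finset E) (W : Finset V) (h : ∀ e ∈ X, s e ∈ W) :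
    {e // e ∈ X} → {v // v ∈ W} := fun e => ⟨s e.1, h e.1 e.2⟩

theorem cy_iff (s t : E → V) (X : Finset E) (W : Finset V) (hs : ∀ e ∈ X, s e ∈ W)
    (ht : ∀ e ∈ X, t e ∈ W) (c : {e // e ∈ X} → ZMod 2) :
    ext0 X c ∈ Cy s t ↔ c ∈ Cy (sr s X W hs) (sr t X W ht) := by
  have key : ∀ (v : V) (hv : v ∈ W), bd s t (ext0 X c) v =
      bd (sr s X W hs) (sr t X W ht) c ⟨v, hv⟩ := by
    intro v hv
    show ∑ e, ext0 X c e * inc s t e v =
      ∑ e : {e // e ∈ X}, c e * inc (sr s X W hs) (sr t X W ht) e ⟨v, hv⟩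
    rw [sum_ext0 X c (fun e => inc s t e v)]
    refine Finset.sum_congr rfl fun e _ => ?_
    congr 1
    unfold inc sr
    simp only [Subtype.mk.injEq]
  have key2 : ∀ v : V, v ∉ W → bd s t (ext0 X c) v = 0 := by
    intro v hv
    show ∑ e, ext0 X c e * inc s t e v = 0
    rw [sum_ext0 X c (fun e => inc s t e v)]
    refine Finset.sum_eq_zero fun e _ => ?_
    have h1 : s e.1 ≠ v := fun h => hv (h ▸ hs e.1 e.2)
    have h2 : t e.1 ≠ v := fun h => hv (h ▸ ht e.1 e.2)
    unfold inc
    rw [if_neg h1, if_neg h2, add_zero, mul_zero]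
  unfold Cy
  rw [LinearMap.mem_ker, LinearMap.mem_ker]
  constructor
  · intro h
    funext v
    have h1 := congrFun h v.1
    rw [key v.1 v.2] at h1
    exact h1
  · intro h
    funext v
    by_cases hv : v ∈ W
    · rw [key v hv, h]
      rfl
    · rw [key2 v hv]
      rfl

end SubP_

open SubP_

theorem subp (h1 : S_RIZ) (h2 : S_POT) : S_SUBP := by
  intro V E _ _ _ _ s t X W hXW
  have hs : ∀ e ∈ X, s e ∈ W := fun e he => (hXW e he).1
  have ht : ∀ e ∈ X, t e ∈ W := fun e he => (hXW e he).2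
  obtain ⟨S, hS1, hS2, hS3⟩ := main2_of h1 h2 {v // v ∈ W} {e // e ∈ X} (sr s X W hs) (sr t X W ht)
  refine ⟨S.image (ext0 X), ?_, ?_, ?_⟩
  · have h3 : LinearIndependent (ZMod 2)
        ((ext0 X) ∘ fun c : S => (c : {e // e ∈ X} → ZMod 2)) :=
      hS1.map' (ext0 X) (LinearMap.ker_eq_bot.2 (ext0_inj X))
    have h4 : LinearIndepOn (ZMod 2) (ext0 X) (S : Set ({e // e ∈ X} → ZMod 2)) := h3
    have h5 := h4.id_image
    rw [← Finset.coe_image] at h5
    exact h5
  · rw [Finset.coe_image, Submodule.span_image, hS2]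
    ext c
    rw [Submodule.mem_map, Submodule.mem_inf]
    constructor
    · rintro ⟨d, hd, rfl⟩
      exact ⟨(cy_iff s t X W hs ht d).2 hd, fun e he => ext0_not X d he⟩
    · rintro ⟨hc1, hc2⟩
      have h3 : ext0 X (fun e => c e.1) = c := by
        funext e
        by_cases he : e ∈ X
        · rw [ext0_mem X _ he]
        · rw [ext0_not X _ he, hc2 e he]
      refine ⟨fun e => c e.1, ?_, h3⟩
      rw [← cy_iff s t X W hs ht, h3]
      exact hc1
  · intro e
    by_cases he : e ∈ X
    · have h3 : (S.image (ext0 X)).filter (fun c => c e ≠ 0) ⊆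
          (S.filter fun c => c ⟨e, he⟩ ≠ 0).image (ext0 X) := by
        intro c hc
        rw [Finset.mem_filter, Finset.mem_image] at hc
        obtain ⟨⟨d, hd, rfl⟩, hde⟩ := hc
        rw [ext0_mem X d he] at hde
        exact Finset.mem_image_of_mem _ (Finset.mem_filter.2 ⟨hd, hde⟩)
      refine (Finset.card_le_card h3).trans (Finset.card_image_le.trans ?_)
      have h4 := hS3 ⟨e, he⟩
      rwa [Fintype.card_coe, Fintype.card_coe] at h4
    · have h3 : (S.image (ext0 X)).filter (fun c => c e ≠ 0) = ∅ := by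
        rw [Finset.filter_eq_empty_iff]
        intro c hc
        rw [Finset.mem_image] at hc
        obtain ⟨d, _, rfl⟩ := hc
        rw [ext0_not X d he]
        simp
      rw [h3, Finset.card_empty]
      exact Nat.zero_le _

end Pool.Agent.K9h72.BN
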