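import Pool.Agent.K9h72.BN.Stme
import Pool.Agent.K9h72.BN.SubP

/-!
# LEAF WGT: the weight bound for the cycles in `H` (helper98)
-/

set_option autoImplicit false

namespace Pool.Agent.K9h72.BN

open Finset

namespace Wgt_

open SubP_

variable {V E : Type} [Fintype V] [Fintype E] [DecidableEq V] [DecidableEq E]

theorem bd_ext0 (s t : E → V) (H : Finset E) (c : {e // e ∈ H} → ZMod 2) :
    bd s t (ext0 H c) = bd (fun e : {e // e ∈ H} => s e.1) (fun e => t e.1) c := by
  funext v
  show ∑ e, ext0 H c e * inc s t e v =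
    ∑ e : {e // e ∈ H}, c e * inc (fun e : {e // e ∈ H} => s e.1) (fun e => t e.1) e v
  rw [sum_ext0 H c (fun e => inc s t e v)]
  rfl

theorem wt_ext0 (w : E → ℝ) (H : Finset E) (c : {e // e ∈ H} → ZMod 2) :
    wt w (ext0 H c) = wt (fun e : {e // e ∈ H} => w e.1) c := by
  unfold wt
  rw [sum_filter, sum_filter]
  rw [← Finset.sum_subset (Finset.subset_univ H)
    (fun e _ he => by rw [ext0_not H c he, if_neg (by simp)]), ← Finset.sum_coe_sort H]
  exact Finset.sum_congr rfl fun e _ => by rw [ext0_mem H c e.2]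

end Wgt_

open SubP_ Wgt_

theorem wgt (h1 : S_JOIN) (h2 : S_TREE) : S_WGT := by
  intro V E _ _ _ _ s t hl n T B m hTt hc he hB H w hw
  have hcost : Cost (fun e : {e // e ∈ H} => s e.1) (fun e => t e.1) (4 * m)
      (fun e : {e // e ∈ H} => w e.1) univ := by
    apply h2 V {e // e ∈ H} (fun e => s e.1) (fun e => t e.1) n T B m hTt hc (fun e => he e.1) hB
      (fun X => Cost (fun e : {e // e ∈ H} => s e.1) (fun e => t e.1) (4 * m)
        (fun e : {e // e ∈ H} => w e.1) X)
    · exact cost_of_forest _ _ _ _ _ (forest_empty _ _)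
    · intro e
      exact cost_of_forest _ _ _ _ _ (forest_single _ _ (fun e => hl e.1) e)
    · intro X Y hXY hX hY a b
      exact h1 V {e // e ∈ H} (fun e => s e.1) (fun e => t e.1) (fun e => hl e.1)
        (fun e => w e.1) (fun e => hw e.1) m X Y hXY hX hY a b
  obtain ⟨S, F, a2, a3, a4, a5, a6⟩ := hcost
  refine ⟨S.image (ext0 H), ?_, ?_, ?_⟩
  · intro c hcS
    rw [Finset.mem_image] at hcS
    obtain ⟨d, hd, rfl⟩ := hcS
    refine Submodule.mem_inf.2 ⟨?_, fun e he => ext0_not H d he⟩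
    unfold Cy
    rw [LinearMap.mem_ker, bd_ext0]
    exact (a2 d hd).2
  · intro c hcC
    obtain ⟨hc1, hc2⟩ := Submodule.mem_inf.1 hcC
    have h3 : ext0 H (fun e => c e.1) = c := by
      funext e
      by_cases he : e ∈ H
      · rw [ext0_mem H _ he]
      · rw [ext0_not H _ he, hc2 e he]
    have h4 : bd (fun e : {e // e ∈ H} => s e.1) (fun e => t e.1) (fun e => c e.1) = 0 := by
      rw [← bd_ext0, h3]
      exact hc1
    have h5 := a3 (fun e => c e.1) (fun e he => absurd (mem_univ e) he) h4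
    rw [Finset.coe_image, Submodule.span_image, Submodule.mem_map]
    exact ⟨_, h5, h3⟩
  · rw [Finset.sum_image (fun a _ b _ hab => ext0_inj H hab)]
    have h6 : ∑ d ∈ S, wt w (ext0 H d) = ∑ d ∈ S, wt (fun e : {e // e ∈ H} => w e.1) d :=
      Finset.sum_congr rfl fun d _ => wt_ext0 w H d
    rw [h6]
    have h7 : 0 ≤ ∑ e ∈ F, w e.1 := Finset.sum_nonneg fun e _ => hw e.1
    have h8 : (0 : ℝ) ≤ 4 * m := by positivity
    have h9 := mul_nonneg h8 h7
    have h10 : ∑ e : {e // e ∈ H}, w e.1 ≤ ∑ e, w e := by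
      rw [Finset.sum_coe_sort H w]
      exact Finset.sum_le_sum_of_subset_of_nonneg (Finset.subset_univ H) fun e _ _ => hw e
    have h11 := mul_le_mul_of_nonneg_left h10 h8
    push_cast
    linarith

end Pool.Agent.K9h72.BN
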